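import Pool.Agent.R755.KS.Defs2
import Pool.Agent.R755.KF.M

/-!
# Centred fibrations: concentration
-/

set_option autoImplicit false

namespace Pool.Agent.R755.KS

open MeasureTheory Set Filter Topology
open scoped ENNReal InnerProductSpace
open Pool.Agent.H888R2.KT (gs gc)
open Pool.Agent.R754.KG (E un sl Rv)
open Pool.Agent.R755.KF
open Pool.Agent.Y506.PV (CcW ind)
open Pool.Agent.Y506.RG (EW VW)

open Pool.Agent.R755.KF.Maux in
/-- from functions of `T z + √h Z` to functions of `T z` -/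
theorem desm (hW : S_WH) (hP : S_PX) {C κ δ : ℝ} (hCp : 0 < C) (hκ : 0 < κ) (hδ : 0 < δ)
    {N d n : ℕ} (e : (E N × E d) ≃ₗ[ℝ] E n) (K : Set (E N × E d)) (h : CB K)
    (H : ∀ (k : ℕ) (T : E N × E d →ₗ[ℝ] E k) (s : ℝ), 0 < s → (∀ θ : E k, ‖θ‖ = 1 →
      (∫ z, ⟪T z, θ⟫_ℝ ^ 2 ∂(un K)) - (∫ z, ⟪T z, θ⟫_ℝ ∂(un K)) ^ 2 ≤ s) →
      ∀ f : E k → ℝ, ContDiff ℝ 1 f → (∀ y, |f y| ≤ 1) →
      (∀ y, ‖fderiv ℝ f y‖ ≤ κ / Real.sqrt s) →
      ∃ c : ℝ, ∫ z, gs (C * s) (fun y => (f y - c) ^ 2) (T z) ∂(un K) ≤ δ / 2) :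
    CcW (min (κ / 2) (Real.sqrt (δ / (4 * C)))) δ (ind (e '' K)) := by
  obtain ⟨κ1, hκ1⟩ : ∃ κ1, κ1 = min (κ / 2) (Real.sqrt (δ / (4 * C))) := ⟨_, rfl⟩
  have hκ1p : 0 < κ1 := by rw [hκ1]; exact lt_min (by positivity) (Real.sqrt_pos.2 (by positivity))
  have hκ1a : κ1 ≤ κ / 2 := by rw [hκ1]; exact min_le_left _ _
  have hκ1b : 2 * C * κ1 ^ 2 ≤ δ / 2 := by
    have h1 : κ1 ^ 2 ≤ δ / (4 * C) := by
      rw [← Real.sq_sqrt (show 0 ≤ δ / (4 * C) by positivity)]
      refine pow_le_pow_left₀ hκ1p.le ?_ 2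
      rw [hκ1]
      exact min_le_right _ _
    calc 2 * C * κ1 ^ 2 ≤ 2 * C * (δ / (4 * C)) := by gcongr
      _ = δ / 2 := by
          field_simp
          norm_num
  rw [← hκ1]
  intro k hk T s hs hvar v hv hvb hvd
  let e' : (E N × E d) ≃L[ℝ] E n := e.toContinuousLinearEquiv
  have hme : MeasurableSet (e '' K) :=
    e'.toHomeomorph.measurableEmbedding.measurableSet_image.2 (meas h)
  have hcp : IsCompact (e '' K) := h.comp.image e'.continuous
  have hcv : Convex ℝ (e '' K) := h.conv.linear_image e.toLinearMap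
  have hvp : 0 < volume (e '' K) := by
    rw [pos_iff_ne_zero]
    intro h0
    have hv0 : (volume : Measure (E N × E d)).IsAddHaarMeasure :=
      inferInstanceAs
        (Measure.prod (volume : Measure (E N)) (volume : Measure (E d))).IsAddHaarMeasure
    have hh : (Measure.map e' (volume : Measure (E N × E d))).IsAddHaarMeasure :=
      e'.isAddHaarMeasure_map volume
    obtain ⟨c, hc⟩ : ∃ c : NNReal, Measure.map e' (volume : Measure (E N × E d)) =
        c • (volume : Measure (E n)) := ⟨_, Measure.isAddLeftInvariant_eq_smul _ _⟩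
    have hme' : MeasurableEmbedding e' := e'.toHomeomorph.measurableEmbedding
    have hKe : e' ⁻¹' (e '' K) = K := preimage_image_eq K e.injective
    have h2 : (Measure.map e' (volume : Measure (E N × E d))) (e '' K) = volume K := by
      rw [hme'.map_apply, hKe]
    rw [hc] at h2
    have h3 : (c • (volume : Measure (E n))) (e '' K) = c * volume (e '' K) := rfl
    rw [h3, h0, mul_zero] at h2
    exact h.pos.ne h2
  have hTc : Continuous T := T.continuous_of_finiteDimensional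
  have hprob : IsProbabilityMeasure (un (e '' K)) :=
    Pool.Agent.R754.KG.un_prob hvp.ne' hcp.measure_lt_top.ne
  obtain ⟨ν, hν⟩ : ∃ ν, ν = Measure.map T (un (e '' K)) := ⟨_, rfl⟩
  have hint : ∀ F : E k → ℝ, Continuous F → ∫ x, F x ∂ν = ∫ x, F (T x) ∂(un (e '' K)) := by
    intro F hF
    rw [hν, integral_map hTc.measurable.aemeasurable hF.aestronglyMeasurable]
  obtain ⟨B, hB⟩ := (hcp.image hTc).isBounded.exists_norm_le
  have hPB : PB (max B 0) ν := by
    refine ⟨?_, ?_⟩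
    · rw [hν]
      exact Measure.isProbabilityMeasure_map hTc.measurable.aemeasurable
    · rw [hν, ae_map_iff hTc.measurable.aemeasurable
        (measurableSet_le (by fun_prop) (by fun_prop))]
      unfold un
      refine Measure.ae_smul_measure ?_ _
      refine (ae_restrict_iff' hme).2 (Eventually.of_forall fun x hx => ?_)
      exact (hB _ (mem_image_of_mem _ hx)).trans (le_max_left _ _)
  have hhp : 0 < C * s := by positivity
  have hPL := hW n k (e '' K) T hcv hcp hvp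
  rw [← hν] at hPL
  obtain ⟨f, hf, hfb, hfd, hfin⟩ := hP k (C * s) (max B 0) (κ1 / Real.sqrt s) ν hhp
    (le_max_right _ _) (by positivity) hPB hPL v hv hvb hvd
  have hvc : Continuous v := hv.continuous
  have hfc : Continuous f := hf.continuous
  obtain ⟨c, hc⟩ := H k (T ∘ₗ e.toLinearMap) s hs (fun θ hθ => by
    have h1 := hvar θ hθ
    rw [Pool.Agent.R754.KG.VW_ind hme, Pool.Agent.R754.KG.un_img e h.pos.ne' (kfin h),
      Pool.Agent.R754.KG.un_img e h.pos.ne' (kfin h)] at h1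
    exact h1) f hf hfb (fun y => by
      refine (hfd y).trans ?_
      rw [← mul_div_assoc]
      exact div_le_div_of_nonneg_right (by linarith) (Real.sqrt_nonneg _))
  have hfb2 : ∀ y, |f y ^ 2| ≤ 1 := fun y => by
    rw [abs_pow]
    exact pow_le_one₀ (abs_nonneg _) (hfb y)
  have hqc : Continuous fun y => (f y - c) ^ 2 := by fun_prop
  have hqb : ∀ y, |(f y - c) ^ 2| ≤ (1 + |c|) ^ 2 := fun y => by
    rw [abs_pow]
    refine pow_le_pow_left₀ (abs_nonneg _) ?_ 2
    exact (abs_sub _ _).trans (by linarith [hfb y])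
  have g1 : Continuous (gs (C * s) f) := Pool.Agent.H888R2.KT.N7x.cont_gs _ hhp f hfc 1 hfb
  have g2 : Continuous (gs (C * s) fun y => f y ^ 2) :=
    Pool.Agent.H888R2.KT.N7x.cont_gs _ hhp _ (by fun_prop) 1 hfb2
  have g3 : Continuous (gs (C * s) fun y => (f y - c) ^ 2) :=
    Pool.Agent.H888R2.KT.N7x.cont_gs _ hhp _ hqc _ hqb
  have hlow : ey (C * s) ν (fun y => f y ^ 2) - ey (C * s) ν f ^ 2 ≤ δ / 2 := by
    have hun : ∀ F : E n → ℝ, Continuous F → Integrable F (un (e '' K)) := fun F hF =>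
      Pool.Agent.R754.KG.un_int hvp.ne' hcp.isBounded hF
    have h1 : ∫ x, gs (C * s) (fun y => (f y - c) ^ 2) (T x) ∂(un (e '' K)) ≤ δ / 2 := by
      rw [Pool.Agent.R754.KG.un_img e h.pos.ne' (kfin h)]
      exact hc
    have h2 : ∀ x, gs (C * s) (fun y => (f y - c) ^ 2) x = gs (C * s) (fun y => f y ^ 2) x +
        (-(2 * c) * gs (C * s) f x + c ^ 2) := by
      intro x
      rw [gs_sq _ hhp f hfc 1 hfb c x]
      ring
    simp only [h2] at h1
    have j2 : Integrable (fun x => gs (C * s) (fun y => f y ^ 2) (T x)) (un (e '' K)) :=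
      hun _ (g2.comp hTc)
    have j1 : Integrable (fun x => -(2 * c) * gs (C * s) f (T x)) (un (e '' K)) :=
      (hun _ (g1.comp hTc)).const_mul _
    have j3 : Integrable (fun x => -(2 * c) * gs (C * s) f (T x) + c ^ 2) (un (e '' K)) :=
      j1.add (integrable_const _)
    rw [integral_add j2 j3, integral_add j1 (integrable_const _), integral_const_mul] at h1
    unfold ey
    rw [hint _ g1, hint _ g2]
    simp only [integral_const, probReal_univ, smul_eq_mul, one_mul] at h1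
    nlinarith [sq_nonneg ((∫ x, gs (C * s) f (T x) ∂(un (e '' K))) - c)]
  rw [hint _ (by fun_prop), hint _ hvc] at hfin
  rw [Pool.Agent.R754.KG.VW_ind hme]
  have h5 : 2 * (C * s) * (κ1 / Real.sqrt s) ^ 2 = 2 * C * κ1 ^ 2 := by
    rw [div_pow, Real.sq_sqrt hs.le]
    field_simp
  rw [h5] at hfin
  linarith

/-- concentration for centred fibrations -/
def S_CCB : Prop := ∀ δ : ℝ, 0 < δ →
    ∃ δ' : ℝ, 0 < δ' ∧ ∀ κ' A Q : ℝ, 0 < κ' → 0 < A → 0 < Q → ∃ κ : ℝ, 0 < κ ∧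
    ∀ (N M n : ℕ) (e : (E N × E M) ≃ₗ[ℝ] E n) (K : Set (E N × E M)), CB K →
    (∀ t, volume (sl K t) ≠ 0 → CcW κ' δ' (ind (sl K t)) ∧
      ∀ θ : E N, ∫ x, ⟪x, θ⟫_ℝ ∂(un (sl K t)) = 0) →
    (∃ q : E M → ℝ, QC Q K q) → KM A δ' (bl K) → CcW κ δ (ind (e '' K))

theorem kw_mono {A A' δ δ' : ℝ} (hA : A ≤ A') (hδ : δ ≤ δ') {N : ℕ} {C : Set (E N)}
    (h : KW A δ C) : KW A' δ' C := by
  intro k T s hs hT M v hv hv1
  refine (h k T s hs hT M v hv hv1).trans ?_
  have h0 : 0 ≤ ∫ x, ‖fderiv ℝ v (T x)‖ ^ 2 ∂(un C) := integral_nonneg fun x => sq_nonneg _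
  have h1 : A * s ≤ A' * s := mul_le_mul_of_nonneg_right hA hs.le
  exact add_le_add hδ (mul_le_mul_of_nonneg_right h1 h0)

theorem km_mono {A A' δ δ' : ℝ} (hA : A ≤ A') (hδ : δ ≤ δ') {M : ℕ} {ρ : Measure (E M)}
    (h : KM A δ ρ) : KM A' δ' ρ := by
  intro k T s hs hT C v hv hv1
  refine (h k T s hs hT C v hv hv1).trans ?_
  have h0 : 0 ≤ ∫ x, ‖fderiv ℝ v (T x)‖ ^ 2 ∂ρ := integral_nonneg fun x => sq_nonneg _
  have h1 : A * s ≤ A' * s := mul_le_mul_of_nonneg_right hA hs.le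
  exact add_le_add hδ (mul_le_mul_of_nonneg_right h1 h0)

/-- **Concentration for centred fibrations.** -/
theorem ccb (hW : S_WH) (hP : S_PX) (hY : S_YB2) (hK : S_KWC) : S_CCB := by
  intro δ hδ
  obtain ⟨δ1, hδ1, H0⟩ := hY (δ / 2) (by positivity)
  refine ⟨δ1 / 17, by positivity, fun κ' A Q hκ' hA hQ => ?_⟩
  obtain ⟨A0, hA0, HK⟩ := hK κ' (δ1 / 17) hκ' (by positivity)
  obtain ⟨C, κ, hCp, hκ, H⟩ := H0 (max A0 A) Q (lt_max_of_lt_left hA0) hQ
  refine ⟨_, lt_min (by positivity) (Real.sqrt_pos.2 (by positivity)),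
    fun N M n e K h hfib hq hb => desm hW hP hCp hκ hδ e K h fun k T s hs hvar f hf hfb hfd =>
      H N M k K h (fun t ht => ⟨?_, (hfib t ht).2⟩) hq
        (km_mono (le_max_right _ _) (by linarith) hb) T s hs hvar f hf hfb hfd⟩
  have h1 := HK N (sl K t) (sl_comp h t) (sl_conv h t) (int_of_vol (sl_conv h t) ht)
    (hfib t ht).1
  rw [mul_div_cancel₀ _ (by norm_num : (17 : ℝ) ≠ 0)] at h1
  exact kw_mono (le_max_left _ _) le_rfl h1

end Pool.Agent.R755.KS
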