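import Pool.Agent.R755.KS.Ind
import Pool.Agent.R755.KF.Cls
import Pool.Agent.R754.KG.G

/-!
# Centred fibrations: the class of bodies
-/

set_option autoImplicit false

namespace Pool.Agent.R755.KS

open MeasureTheory Set Filter Topology
open scoped ENNReal InnerProductSpace
open Pool.Agent.R754.KG (E un sl Rv cc_zero VW_ind un_prob min_const)
open Pool.Agent.R755.KF
open Pool.Agent.Y506.PV (CcW ind)
open Pool.Agent.Y506.RG (EW VW Adm Star)

/-- concentration from the inequality `(Var v)² ≤ c0 s E ‖∇ v‖²` -/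
theorem cc_of_bp {c0 δ : ℝ} (hc0 : 0 < c0) (hδ : 0 < δ) {N : ℕ} {C : Set (E N)}
    (hm : IsCompact C) (hi : (interior C).Nonempty) (h : BP c0 (un C)) :
    CcW (δ / Real.sqrt c0) δ (ind C) := by
  intro k hk T s hs hT v hv hvb hvd
  have hp : IsProbabilityMeasure (un C) := un_prob (vol_ne hi) hm.measure_lt_top.ne
  have hTc : Continuous T := T.continuous_of_finiteDimensional
  have hd : Continuous (fderiv ℝ v) := hv.continuous_fderiv one_ne_zero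
  have hsc : 0 < Real.sqrt c0 := Real.sqrt_pos.2 hc0
  have h1 := h k T s hs (fun θ hθ => by
    have := hT θ hθ
    rwa [VW_ind hm.measurableSet] at this) (max 1 (δ / Real.sqrt c0 / Real.sqrt s)) v
    ⟨hv, fun y => (hvb y).trans (le_max_left _ _), fun y => (hvd y).trans (le_max_right _ _)⟩ hvb
  rw [VW_ind hm.measurableSet]
  have hκ : (δ / Real.sqrt c0 / Real.sqrt s) ^ 2 = δ ^ 2 / c0 / s := by
    rw [div_pow, div_pow, Real.sq_sqrt hc0.le, Real.sq_sqrt hs.le]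
  have h2 : ∫ x, ‖fderiv ℝ v (T x)‖ ^ 2 ∂(un C) ≤ δ ^ 2 / c0 / s := by
    rw [← hκ]
    have h3 : ∫ _, (δ / Real.sqrt c0 / Real.sqrt s) ^ 2 ∂(un C) =
        (δ / Real.sqrt c0 / Real.sqrt s) ^ 2 := by simp
    rw [← h3]
    refine integral_mono (Pool.Agent.R754.KG.un_int (vol_ne hi) hm.isBounded
      ((hd.comp hTc).norm.pow 2)) (integrable_const _) fun x => ?_
    exact pow_le_pow_left₀ (norm_nonneg _) (hvd _) 2
  have h4 : ((∫ x, v (T x) ^ 2 ∂(un C)) - (∫ x, v (T x) ∂(un C)) ^ 2) ^ 2 ≤ δ ^ 2 := by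
    refine h1.trans ?_
    calc c0 * s * ∫ x, ‖fderiv ℝ v (T x)‖ ^ 2 ∂(un C) ≤ c0 * s * (δ ^ 2 / c0 / s) :=
          mul_le_mul_of_nonneg_left h2 (by positivity)
      _ = δ ^ 2 := by
          field_simp
  exact (le_abs_self _).trans (abs_le_of_sq_le_sq h4 hδ.le)

/-- from `(Var v)² ≤ c0 s E ‖∇ v‖²` to a weak Poincaré inequality -/
theorem km_of_bp {c0 δ : ℝ} (hδ : 0 < δ) {M : ℕ} {ρ : Measure (E M)} (h : BP c0 ρ) :
    KM (c0 / (4 * δ)) δ ρ := by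
  intro k P s hs hP C v hv hv1
  have h1 := h k P s hs hP C v hv hv1
  obtain ⟨x, hx⟩ : ∃ x, x = (∫ t, v (P t) ^ 2 ∂ρ) - (∫ t, v (P t) ∂ρ) ^ 2 := ⟨_, rfl⟩
  obtain ⟨I, hI⟩ : ∃ I, I = ∫ t, ‖fderiv ℝ v (P t)‖ ^ 2 ∂ρ := ⟨_, rfl⟩
  rw [← hx, ← hI] at h1 ⊢
  have h2 : c0 / (4 * δ) * s * I = c0 * s * I / (4 * δ) := by ring
  rw [h2]
  have h3 : x ^ 2 / (4 * δ) ≤ c0 * s * I / (4 * δ) :=
    div_le_div_of_nonneg_right h1 (by positivity)
  have h4 : δ + x ^ 2 / (4 * δ) - x = (2 * δ - x) ^ 2 / (4 * δ) := by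
    field_simp
    ring
  have h5 : 0 ≤ (2 * δ - x) ^ 2 / (4 * δ) := by positivity
  linarith

theorem km_map {A δ : ℝ} {m M : ℕ} {C : Set (E m)} (h : KW A δ C) (L : E m →ₗ[ℝ] E M) :
    KM A δ (Measure.map L (un C)) := by
  intro k P s hs hP B v hv hv1
  have hL : Continuous L := L.continuous_of_finiteDimensional
  have hPc : Continuous P := P.continuous_of_finiteDimensional
  have hvc : Continuous v := hv.c1.continuous
  have hd : Continuous (fderiv ℝ v) := hv.c1.continuous_fderiv one_ne_zero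
  have e : ∀ F : E M → ℝ, Continuous F → ∫ t, F t ∂(Measure.map L (un C)) =
      ∫ x, F (L x) ∂(un C) := fun F hF =>
    integral_map hL.measurable.aemeasurable hF.aestronglyMeasurable
  have h1 := h k (P ∘ₗ L) s hs (fun θ hθ => by
    have h2 := hP θ hθ
    rw [e _ (by fun_prop), e _ (by fun_prop)] at h2
    exact h2) B v hv hv1
  rw [e _ (by fun_prop), e _ (by fun_prop), e _ (by fun_prop)]
  exact h1

theorem ccw_mono {N : ℕ} {κ δ δ' : ℝ} {w : E N → ℝ} (h : CcW κ δ w) (hδ : δ ≤ δ') :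
    CcW κ δ' w := fun k hk T s hs hT v hv hvb hvd => (h k hk T s hs hT v hv hvb hvd).trans hδ

/-- the class of bodies -/
inductive Cs (c0 Q : ℝ) (d : ℕ) : ℕ → ∀ n : ℕ, Set (E n) → Prop
  | base (n : ℕ) (K : Set (E n)) : IsCompact K → Convex ℝ K → (interior K).Nonempty →
      BP c0 (un K) → Cs c0 Q d 0 n K
  | up (h n : ℕ) (K : Set (E n)) : Cs c0 Q d h n K → Cs c0 Q d (h + 1) n K
  | tr (h n : ℕ) (K : Set (E n)) (w : E n) : Cs c0 Q d h n K →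
      Cs c0 Q d (h + 1) n ((fun x => w + x) '' K)
  | fibred (h N j n : ℕ) (K : Set (E n)) (e : (E N × E j) ≃ₗ[ℝ] E n) : j ≤ d → IsCompact K →
      Convex ℝ K → (interior K).Nonempty →
      (∀ t, volume (sl (e ⁻¹' K) t) ≠ 0 → Cs c0 Q d h N (sl (e ⁻¹' K) t)) →
      Cs c0 Q d (h + 1) n K
  | cent (h N M n : ℕ) (K : Set (E n)) (e : (E N × E M) ≃ₗ[ℝ] E n) : IsCompact K →
      Convex ℝ K → (interior K).Nonempty →
      (∀ t, volume (sl (e ⁻¹' K) t) ≠ 0 → Cs c0 Q d h N (sl (e ⁻¹' K) t)) →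
      (∀ t, volume (sl (e ⁻¹' K) t) ≠ 0 → ∀ θ : E N,
        ∫ x, ⟪x, θ⟫_ℝ ∂(un (sl (e ⁻¹' K) t)) = 0) →
      (∃ q : E M → ℝ, QC Q (e ⁻¹' K) q) → BP c0 (bl (e ⁻¹' K)) → Cs c0 Q d (h + 1) n K
  | cent' (h N M n m : ℕ) (K : Set (E n)) (e : (E N × E M) ≃ₗ[ℝ] E n) (K' : Set (E m))
      (L : E m →ₗ[ℝ] E M) : IsCompact K →
      Convex ℝ K → (interior K).Nonempty →
      (∀ t, volume (sl (e ⁻¹' K) t) ≠ 0 → Cs c0 Q d h N (sl (e ⁻¹' K) t)) →
      (∀ t, volume (sl (e ⁻¹' K) t) ≠ 0 → ∀ θ : E N,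
        ∫ x, ⟪x, θ⟫_ℝ ∂(un (sl (e ⁻¹' K) t)) = 0) →
      (∃ q : E M → ℝ, QC Q (e ⁻¹' K) q) → Cs c0 Q d h m K' →
      bl (e ⁻¹' K) = Measure.map L (un K') → Cs c0 Q d (h + 1) n K

/-- concentration for all bodies of the class -/
theorem cs_cc (hcc : S_CC) (hC : S_CCB) (hK : S_KWC) (c0 Q : ℝ) (hc0 : 0 < c0) (hQ : 0 < Q) (d h : ℕ) :
    ∀ δ : ℝ, 0 < δ → ∃ κ : ℝ, 0 < κ ∧
    ∀ (n : ℕ) (K : Set (E n)), Cs c0 Q d h n K → IsCompact K ∧ Convex ℝ K ∧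
      (interior K).Nonempty ∧ CcW κ δ (ind K) := by
  induction h with
  | zero =>
    intro δ hδ
    refine ⟨δ / Real.sqrt c0, div_pos hδ (Real.sqrt_pos.2 hc0), fun n K hK => ?_⟩
    cases hK with
    | base _ _ h1 h2 h3 h4 => exact ⟨h1, h2, h3, cc_of_bp hc0 hδ h1 h3 h4⟩
  | succ h ih =>
    intro δ hδ
    obtain ⟨κ0, hκ0, H0⟩ := ih δ hδ
    -- fibrations
    obtain ⟨κ2, hκ2, H2⟩ := min_const (P := fun j κ => ∀ (N n : ℕ) (e : (E N × E j) ≃ₗ[ℝ] E n)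
        (K : Set (E N × E j)), CB K →
        (∀ t, volume (sl K t) ≠ 0 → Cs c0 Q d h N (sl K t)) → CcW κ δ (ind (e '' K)))
      (fun j => by
        obtain ⟨δ', hδ', H3⟩ := hcc j δ hδ
        obtain ⟨κ, hκ, H2⟩ := ih δ' hδ'
        obtain ⟨κ', hκ', H4⟩ := H3 κ hκ
        exact ⟨κ', hκ', fun N n e K hF hK => H4 N n e K hF fun t ht => (H2 _ _ (hK t ht)).2.2.2⟩)
      (fun j κ κ' hκκ hP N n e K hF hK => (hP N n e K hF hK).mono hκκ) d
    -- centred fibrations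
    obtain ⟨δ', hδ', H3⟩ := hC δ hδ
    obtain ⟨κ', hκ', H4⟩ := ih (δ' / 17) (by positivity)
    obtain ⟨A0, hA0, HK⟩ := hK κ' (δ' / 17) hκ' (by positivity)
    obtain ⟨κ3, hκ3, H5⟩ := H3 κ' (max A0 (c0 / (4 * δ'))) Q hκ' (lt_max_of_lt_left hA0) hQ
    refine ⟨min κ0 (min κ2 κ3), lt_min hκ0 (lt_min hκ2 hκ3), fun n K hK => ?_⟩
    cases hK with
    | up _ _ _ hK =>
      obtain ⟨h1, h2, h3, h4⟩ := H0 n K hK
      exact ⟨h1, h2, h3, h4.mono (min_le_left _ _)⟩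
    | tr _ _ K w hK =>
      obtain ⟨h1, h2, h3, h4⟩ := H0 n K hK
      exact ⟨h1.image (by fun_prop), h2.translate w, Pool.Agent.R754.KG.int_trans h3 w,
        (Pool.Agent.R754.KG.cc_trans _ h1 h3 w h4).mono (min_le_left _ _)⟩
    | fibred _ N j _ K e hj hc hcv hi hfib =>
      refine ⟨hc, hcv, hi, ?_⟩
      have h3 := H2 j hj N n e (e ⁻¹' K) (cb_pre e hc hcv hi) hfib
      rw [image_preimage_eq K e.surjective] at h3
      exact h3.mono ((min_le_right _ _).trans (min_le_left _ _))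
    | cent _ N M _ K e hc hcv hi hfib hcen hq hb =>
      refine ⟨hc, hcv, hi, ?_⟩
      have h3 := H5 N M n e (e ⁻¹' K) (cb_pre e hc hcv hi)
        (fun t ht => ⟨ccw_mono (H4 _ _ (hfib t ht)).2.2.2 (by linarith), hcen t ht⟩) hq
        (km_mono (le_max_right _ _) le_rfl (km_of_bp hδ' hb))
      rw [image_preimage_eq K e.surjective] at h3
      exact h3.mono ((min_le_right _ _).trans (min_le_right _ _))
    | cent' _ N M _ m K e K' L hc hcv hi hfib hcen hq hK' hb =>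
      refine ⟨hc, hcv, hi, ?_⟩
      obtain ⟨k1, k2, k3, k4⟩ := H4 _ _ hK'
      have h4 := HK m K' k1 k2 k3 k4
      rw [mul_div_cancel₀ _ (by norm_num : (17 : ℝ) ≠ 0)] at h4
      have h5 := km_map h4 L
      rw [← hb] at h5
      have h3 := H5 N M n e (e ⁻¹' K) (cb_pre e hc hcv hi)
        (fun t ht => ⟨ccw_mono (H4 _ _ (hfib t ht)).2.2.2 (by linarith), hcen t ht⟩) hq
        (km_mono (le_max_left _ _) le_rfl h5)
      rw [image_preimage_eq K e.surjective] at h3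
      exact h3.mono ((min_le_right _ _).trans (min_le_right _ _))

/-- the functional inequality for all bodies of the class -/
theorem cs_star (hcc : S_CC) (hC : S_CCB) (hK : S_KWC) (c0 Q : ℝ) (hc0 : 0 < c0) (hQ : 0 < Q) (d h : ℕ) :
    ∃ c : ℝ, 0 < c ∧
    ∀ (n : ℕ) (K : Set (E n)), Cs c0 Q d h n K → IsCompact K ∧ Convex ℝ K ∧
      (interior K).Nonempty ∧ Star c (ind K) := by
  obtain ⟨κ, hκ, H⟩ := cs_cc hcc hC hK c0 Q hc0 hQ d h (1 / 25) (by norm_num)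
  obtain ⟨c, hc, H'⟩ := Pool.Agent.Y506.PV.stb Pool.Agent.Y211.PV.iso κ hκ
  refine ⟨c, hc, fun n K hK => ?_⟩
  obtain ⟨h1, h2, h3, h4⟩ := H n K hK
  exact ⟨h1, h2, h3, H' n K h1 h2 h3 h4⟩

end Pool.Agent.R755.KS
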