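import Pool.Agent.R755.KS.Defs

/-!
# Centred fibrations over a base of arbitrary dimension: weak conditions on the base
-/

set_option autoImplicit false

namespace Pool.Agent.R755.KS

open MeasureTheory Set Filter Topology
open scoped ENNReal InnerProductSpace
open Pool.Agent.H888R2.KT (gs gc)
open Pool.Agent.R754.KG (E un sl Rv)
open Pool.Agent.R755.KF (BL PB KW CB lw ey)

/-- weak Poincaré inequality for all linear images of a measure -/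
def KM (A δ : ℝ) {M : ℕ} (ρ : Measure (E M)) : Prop := ∀ (k : ℕ) (P : E M →ₗ[ℝ] E k) (s : ℝ),
  0 < s → (∀ θ : E k, ‖θ‖ = 1 →
    (∫ t, ⟪P t, θ⟫_ℝ ^ 2 ∂ρ) - (∫ t, ⟪P t, θ⟫_ℝ ∂ρ) ^ 2 ≤ s) →
  ∀ (C : ℝ) (v : E k → ℝ), BL C v → (∀ y, |v y| ≤ 1) →
  (∫ t, v (P t) ^ 2 ∂ρ) - (∫ t, v (P t) ∂ρ) ^ 2 ≤
    δ + A * s * ∫ t, ‖fderiv ℝ v (P t)‖ ^ 2 ∂ρ

/-- KS6': concentration of functions of `T z + √h Z` -/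
def S_YB2 : Prop := ∀ δ : ℝ, 0 < δ → ∃ δ' : ℝ, 0 < δ' ∧ ∀ A0 Q : ℝ, 0 < A0 → 0 < Q →
  ∃ C κ : ℝ, 0 < C ∧ 0 < κ ∧ ∀ (N M k : ℕ) (K : Set (E N × E M)), CB K →
  (∀ t, volume (sl K t) ≠ 0 → KW A0 δ' (sl K t) ∧
    ∀ θ : E N, ∫ x, ⟪x, θ⟫_ℝ ∂(un (sl K t)) = 0) →
  (∃ q : E M → ℝ, QC Q K q) → KM A0 δ' (bl K) →
  ∀ (T : E N × E M →ₗ[ℝ] E k) (s : ℝ), 0 < s → (∀ θ : E k, ‖θ‖ = 1 →
    (∫ z, ⟪T z, θ⟫_ℝ ^ 2 ∂(un K)) - (∫ z, ⟪T z, θ⟫_ℝ ∂(un K)) ^ 2 ≤ s) →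
  ∀ f : E k → ℝ, ContDiff ℝ 1 f → (∀ y, |f y| ≤ 1) → (∀ y, ‖fderiv ℝ f y‖ ≤ κ / Real.sqrt s) →
  ∃ c : ℝ, ∫ z, gs (C * s) (fun y => (f y - c) ^ 2) (T z) ∂(un K) ≤ δ

end Pool.Agent.R755.KS
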