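import Pool.Agent.R755.KS.Defs

/-!
# Centred fibrations, KS4: the variance in the base
-/

set_option autoImplicit false

namespace Pool.Agent.R755.KS

open MeasureTheory Set Filter Topology
open scoped ENNReal InnerProductSpace
open Pool.Agent.R754.KG (E un sl Rv)
open Pool.Agent.R755.KF (BL PB KW CB lw ey)

namespace KS4aux

theorem pb_bl {N M : ℕ} {K : Set (E N × E M)} (hK : CB K) : ∃ B0, PB B0 (bl K) := by
  obtain ⟨B0, hB0⟩ := hK.comp.isBounded.exists_norm_le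
  have hp : IsProbabilityMeasure (un K) :=
    Pool.Agent.R754.KG.un_prob hK.pos.ne' hK.comp.measure_lt_top.ne
  refine ⟨B0, ⟨Measure.isProbabilityMeasure_map measurable_snd.aemeasurable, ?_⟩⟩
  unfold bl
  rw [ae_map_iff measurable_snd.aemeasurable (measurableSet_le measurable_norm measurable_const)]
  unfold un
  refine Measure.ae_smul_measure ?_ _
  refine (ae_restrict_iff' hK.comp.measurableSet).2 (Eventually.of_forall fun z hz => ?_)
  exact (norm_snd_le z).trans (hB0 z hz)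

theorem wrl (h1 : S_RL) {M : ℕ} (ρ : Measure (E M)) [IsProbabilityMeasure ρ] (w : E M → ℝ)
    (hw : Measurable w) (hw0 : ∀ t, 0 < w t) (hw1 : ∀ t, w t ≤ 1) (g : E M → ℝ) (B : Set (E M))
    (r τ : ℝ) (hg : Measurable g) (hg1 : ∀ t, |g t| ≤ 1) (hB : MeasurableSet B) (hr : 0 < r)
    (hr4 : r ≤ 1 / 4) (hτ : 0 ≤ τ) (hrτ : r * τ ≤ 1)
    (h : (∫ t in Bᶜ, Real.exp (r * g t) * w t ∂ρ) * (∫ t in Bᶜ, Real.exp (-(r * g t)) * w t ∂ρ) ≤
      Real.exp (r * τ) * (∫ t, w t ∂ρ) ^ 2) :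
    (∫ t, g t ^ 2 * w t ∂ρ) * (∫ t, w t ∂ρ) - (∫ t, g t * w t ∂ρ) ^ 2 ≤
      ((2 * τ / r + r) * (∫ t, w t ∂ρ) + 8 / r ^ 2 * ∫ t in B, w t ∂ρ) * ∫ t, w t ∂ρ := by
  have hwi : Integrable w ρ := by
    refine Integrable.of_bound hw.aestronglyMeasurable 1 (Eventually.of_forall fun t => ?_)
    rw [Real.norm_eq_abs, abs_of_pos (hw0 t)]
    exact hw1 t
  have hZ : 0 < ∫ t, w t ∂ρ := by
    rw [integral_pos_iff_support_of_nonneg (fun t => (hw0 t).le) hwi]
    have : Function.support w = univ := by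
      ext t
      simp [(hw0 t).ne']
    rw [this, measure_univ]
    exact one_pos
  set Z := ∫ t, w t ∂ρ with hZdef
  have hdm : Measurable (fun t => Real.toNNReal (w t / Z)) := (hw.div_const Z).real_toNNReal
  set ν := ρ.withDensity (fun t => ((Real.toNNReal (w t / Z) : NNReal) : ℝ≥0∞)) with hν
  have hnn : ∀ t, ((Real.toNNReal (w t / Z) : NNReal) : ℝ) = Z⁻¹ * w t := by
    intro t
    rw [Real.coe_toNNReal _ (div_pos (hw0 t) hZ).le, div_eq_inv_mul]
  have hI : ∀ f : E M → ℝ, ∫ t, f t ∂ν = Z⁻¹ * ∫ t, f t * w t ∂ρ := by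
    intro f
    rw [hν, integral_withDensity_eq_integral_smul hdm, ← integral_const_mul]
    refine integral_congr_ae (Eventually.of_forall fun t => ?_)
    show (Real.toNNReal (w t / Z) : NNReal) • f t = _
    rw [NNReal.smul_def, hnn, smul_eq_mul]
    ring
  have hS : ∀ (f : E M → ℝ) (S : Set (E M)), MeasurableSet S →
      ∫ t in S, f t ∂ν = Z⁻¹ * ∫ t in S, f t * w t ∂ρ := by
    intro f S hSm
    rw [hν, setIntegral_withDensity_eq_setIntegral_smul hdm _ hSm, ← integral_const_mul]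
    refine integral_congr_ae (Eventually.of_forall fun t => ?_)
    show (Real.toNNReal (w t / Z) : NNReal) • f t = _
    rw [NNReal.smul_def, hnn, smul_eq_mul]
    ring
  have hprob : IsProbabilityMeasure ν := by
    refine ⟨?_⟩
    rw [hν, withDensity_apply _ MeasurableSet.univ, Measure.restrict_univ]
    have e : ∫⁻ t, ((Real.toNNReal (w t / Z) : NNReal) : ℝ≥0∞) ∂ρ =
        ENNReal.ofReal (∫ t, w t / Z ∂ρ) :=
      (ofReal_integral_eq_lintegral_ofReal (hwi.div_const Z)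
        (Eventually.of_forall fun t => (div_pos (hw0 t) hZ).le)).symm
    rw [e, integral_div, ← hZdef, div_self hZ.ne', ENNReal.ofReal_one]
  have hr1 : ν.real B = Z⁻¹ * ∫ t in B, w t ∂ρ := by
    have h2 := hS (fun _ => 1) B hB
    simp only [one_mul] at h2
    rw [setIntegral_const, smul_eq_mul, mul_one] at h2
    exact h2
  have hyp : (∫ t in Bᶜ, Real.exp (r * g t) ∂ν) * (∫ t in Bᶜ, Real.exp (-(r * g t)) ∂ν) ≤
      Real.exp (r * τ) := by
    rw [hS _ _ hB.compl, hS _ _ hB.compl]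
    calc _ = (Z⁻¹) ^ 2 * ((∫ t in Bᶜ, Real.exp (r * g t) * w t ∂ρ) *
          (∫ t in Bᶜ, Real.exp (-(r * g t)) * w t ∂ρ)) := by ring
      _ ≤ (Z⁻¹) ^ 2 * (Real.exp (r * τ) * Z ^ 2) :=
          mul_le_mul_of_nonneg_left h (sq_nonneg _)
      _ = Real.exp (r * τ) := by
          field_simp
  have key := h1 M ν g B r τ hprob hg hg1 hB hr hr4 hτ hrτ hyp
  rw [hI, hI, hr1] at key
  have key2 := mul_le_mul_of_nonneg_right key (sq_nonneg Z)
  have e1 : (Z⁻¹ * (∫ t, g t ^ 2 * w t ∂ρ) - (Z⁻¹ * ∫ t, g t * w t ∂ρ) ^ 2) * Z ^ 2 =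
      (∫ t, g t ^ 2 * w t ∂ρ) * Z - (∫ t, g t * w t ∂ρ) ^ 2 := by
    field_simp
  have e2 : (2 * τ / r + r + 8 / r ^ 2 * (Z⁻¹ * ∫ t in B, w t ∂ρ)) * Z ^ 2 =
      ((2 * τ / r + r) * Z + 8 / r ^ 2 * ∫ t in B, w t ∂ρ) * Z := by
    field_simp
  rw [e1, e2] at key2
  exact key2

theorem gw_meas {M k : ℕ} (h : ℝ) (P : E M →ₗ[ℝ] E k) (y : E k) : Measurable (gw h P y) := by
  have hP : Continuous P := P.continuous_of_finiteDimensional
  refine Continuous.measurable ?_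
  unfold gw
  fun_prop

theorem gw_le {M k : ℕ} {h : ℝ} (hh : 0 < h) (P : E M →ₗ[ℝ] E k) (y : E k) (t : E M) :
    gw h P y t ≤ 1 := by
  unfold gw
  rw [Real.exp_le_one_iff, neg_nonpos]
  positivity

end KS4aux

open KS4aux in
theorem bv (h1 : S_RL) (h2 : S_BPL) (h3 : S_CHAN) : S_BV := by
  intro N M k K P h r τ η D A δ g B hK hh hr hr4 hτ hrτ hη hD her hrh hA hAh hδ hg hg1 hB hpoi hloc
  obtain ⟨B0, hPB⟩ := pb_bl hK
  have hprob := hPB.prob
  refine h3 M k (bl K) P g B h A δ (2 * τ / r + r) (8 / r ^ 2) B0 hPB hh hA hAh hδ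
    (by positivity) (by positivity) hg hg1 hB hpoi (fun y => ?_)
  exact wrl h1 (bl K) (gw h P y) (gw_meas h P y) (fun t => Real.exp_pos _) (gw_le hh P y) g B r τ
    hg hg1 hB hr hr4 hτ hrτ
    (h2 N M k K P y h r τ η D g B hK hh hr hτ hη hD her hrh hg hg1 hB hloc)

end Pool.Agent.R755.KS
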