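import Pool.Agent.R755.KS.Defs
import Pool.Agent.R755.KF.K5W

/-!
# KS5: the means over fibres which are near to each other, and the variance in one fibre
-/

set_option autoImplicit false

namespace Pool.Agent.R755.KS

open MeasureTheory Set Filter Topology
open scoped ENNReal InnerProductSpace
open Pool.Agent.H888R2.KT (gs gc gc_pos)
open Pool.Agent.R754.KG (E un sl Rv un_prob un_int)
open Pool.Agent.R755.KF (BL PB PW KW CB lw ey)

namespace KS5aux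

open Pool.Agent.R755.KF.K5Waux Pool.Agent.R755.KF.T36

variable {N M k : ℕ} {K : Set (E N × E M)}

/-- the linear part on a fibre -/
noncomputable def Tl (T : E N × E M →ₗ[ℝ] E k) : E N →ₗ[ℝ] E k := T ∘ₗ LinearMap.inl ℝ (E N) (E M)

theorem Tl_apply (T : E N × E M →ₗ[ℝ] E k) (x : E N) : Tl T x = T (x, 0) := rfl

theorem T_split (T : E N × E M →ₗ[ℝ] E k) (t : E M) (x : E N) :
    T (x, t) = T (x, 0) + T (0, t) := by
  rw [← map_add]
  congr 1
  ext <;> simp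

theorem Tl_cont (T : E N × E M →ₗ[ℝ] E k) : Continuous fun x : E N => T (x, 0) := Tscont T 0

theorem cen_T (T : E N × E M →ₗ[ℝ] E k) {t : E M}
    (hc : ∀ θ : E N, ∫ x, ⟪x, θ⟫_ℝ ∂(un (sl K t)) = 0) (v : E k) :
    ∫ x, ⟪T (x, 0), v⟫_ℝ ∂(un (sl K t)) = 0 := by
  have e : ∀ x : E N, ⟪T (x, 0), v⟫_ℝ = ⟪x, LinearMap.adjoint (Tl T) v⟫_ℝ := by
    intro x
    rw [LinearMap.adjoint_inner_right, Tl_apply]
  simp_rw [e]
  exact hc _

theorem cov_T (T : E N × E M →ₗ[ℝ] E k) {t : E M} {s : ℝ}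
    (hc : ∀ θ : E k, ‖θ‖ = 1 → ∫ x, ⟪T (x, 0), θ⟫_ℝ ^ 2 ∂(un (sl K t)) ≤ s) (v : E k) :
    ∫ x, ⟪T (x, 0), v⟫_ℝ ^ 2 ∂(un (sl K t)) ≤ s * ‖v‖ ^ 2 := by
  rcases eq_or_ne v 0 with rfl | hv
  · simp
  · have hvn : 0 < ‖v‖ := norm_pos_iff.2 hv
    set θ : E k := ‖v‖⁻¹ • v with hθ
    have hθ1 : ‖θ‖ = 1 := by
      rw [hθ, norm_smul, norm_inv, norm_norm, inv_mul_cancel₀ hvn.ne']
    have hvθ : v = ‖v‖ • θ := by
      rw [hθ, smul_smul, mul_inv_cancel₀ hvn.ne', one_smul]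
    have h1 := hc θ hθ1
    have e1 : ∀ x : E N, ⟪T (x, 0), v⟫_ℝ ^ 2 = ‖v‖ ^ 2 * ⟪T (x, 0), θ⟫_ℝ ^ 2 := by
      intro x
      conv_lhs => rw [hvθ]
      rw [inner_smul_right, mul_pow]
    simp_rw [e1]
    rw [integral_const_mul]
    have h2 : 0 < ‖v‖ ^ 2 := by positivity
    nlinarith

theorem pw_gd (hK : CB K) (T : E N × E M →ₗ[ℝ] E k) {A0 δ s B : ℝ} {t : E M} (hs : 0 < s)
    (hB : ∀ z ∈ K, ‖T z‖ ≤ B) (hg : Gd K T A0 δ s t) : PW (A0 * s) δ s B (lw K T t) := by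
  have hv0 := vol_ne hg.pos
  have hprob : IsProbabilityMeasure (un (sl K t)) :=
    un_prob hv0 (sl_bdd hK.comp t).measure_lt_top.ne
  refine ⟨pb_fib hK T hB t hg.pos, ?_, ?_⟩
  · intro C f hf hf1
    have hfc : Continuous f := hf.c1.continuous
    have hfd : Continuous (fderiv ℝ f) := cont_fd hf
    rw [lw_int T t (g := fun y => f y ^ 2) (hfc.pow 2), lw_int T t hfc,
      lw_int T t (g := fun x => ‖fderiv ℝ f x‖ ^ 2) (hfd.norm.pow 2)]
    set w0 : E k := T (0, t) with hw0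
    have hT'x : ∀ x, Tl T x + w0 = T (x, t) := by
      intro x
      rw [T_split T t x, Tl_apply]
    have hkw := hg.kw k (Tl T) s hs (by
      intro θ hθ
      have h3 := hg.cov θ hθ
      simp only [Tl_apply]
      nlinarith [sq_nonneg (∫ x, ⟪T (x, 0), θ⟫_ℝ ∂(un (sl K t)))]) C (fun y => f (y + w0))
      ⟨hf.c1.comp (contDiff_id.add contDiff_const), fun y => hf.bd _, fun y => by
        rw [fderiv_comp_add_right]; exact hf.gd _⟩
      (fun y => hf1 _)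
    simp only [fderiv_comp_add_right, hT'x] at hkw
    exact hkw
  · intro v
    have hc1 : Continuous fun y : E k => ⟪y, v⟫_ℝ := continuous_id.inner continuous_const
    rw [lw_int T t (g := fun y => ⟪y, v⟫_ℝ ^ 2) (hc1.pow 2), lw_int T t hc1]
    have hc : Continuous fun x : E N => ⟪T (x, 0), v⟫_ℝ := (Tl_cont T).inner continuous_const
    have i1 : Integrable (fun x : E N => ⟪T (x, 0), v⟫_ℝ) (un (sl K t)) :=
      un_int hv0 (sl_bdd hK.comp t) hc
    have i2 : Integrable (fun x : E N => ⟪T (x, 0), v⟫_ℝ ^ 2) (un (sl K t)) :=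
      un_int hv0 (sl_bdd hK.comp t) (hc.pow 2)
    obtain ⟨c, hcd⟩ : ∃ c : ℝ, c = -⟪T (0, t), v⟫_ℝ := ⟨_, rfl⟩
    have e1 : ∀ x : E N, ⟪T (x, t), v⟫_ℝ = ⟪T (x, 0), v⟫_ℝ - c := by
      intro x
      rw [T_split T t x, inner_add_left, hcd]
      ring
    simp_rw [e1]
    rw [sq_exp i1 i2, integral_sub i1 (integrable_const _), integral_const, probReal_univ,
      one_smul, cen_T T hg.cen v]
    have h3 := cov_T T hg.cov v
    nlinarith

theorem mean_gd (hK : CB K) (T : E N × E M →ₗ[ℝ] E k) {A0 δ s : ℝ} {t : E M}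
    (hg : Gd K T A0 δ s t) (v : E k) : ∫ x, ⟪x, v⟫_ℝ ∂(lw K T t) = ⟪T (0, t), v⟫_ℝ := by
  have hv0 := vol_ne hg.pos
  have hprob : IsProbabilityMeasure (un (sl K t)) :=
    un_prob hv0 (sl_bdd hK.comp t).measure_lt_top.ne
  have hc1 : Continuous fun y : E k => ⟪y, v⟫_ℝ := continuous_id.inner continuous_const
  rw [lw_int T t hc1]
  have hc : Continuous fun x : E N => ⟪T (x, 0), v⟫_ℝ := (Tl_cont T).inner continuous_const
  have i1 : Integrable (fun x : E N => ⟪T (x, 0), v⟫_ℝ) (un (sl K t)) :=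
    un_int hv0 (sl_bdd hK.comp t) hc
  obtain ⟨c, hcd⟩ : ∃ c : ℝ, c = ⟪T (0, t), v⟫_ℝ := ⟨_, rfl⟩
  rw [← hcd]
  have e1 : ∀ x : E N, ⟪T (x, t), v⟫_ℝ = ⟪T (x, 0), v⟫_ℝ + c := by
    intro x
    rw [T_split T t x, inner_add_left, hcd]
  simp_rw [e1]
  rw [integral_add i1 (integrable_const _), integral_const, probReal_univ, one_smul,
    cen_T T hg.cen v, zero_add]

theorem bdK (hK : CB K) (T : E N × E M →ₗ[ℝ] E k) : ∃ B : ℝ, 0 ≤ B ∧ ∀ z ∈ K, ‖T z‖ ≤ B := by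
  obtain ⟨B0, hB0⟩ := hK.comp.exists_bound_of_continuousOn (Tcont T).continuousOn
  exact ⟨max B0 0, le_max_right _ _, fun z hz => (hB0 z hz).trans (le_max_left _ _)⟩

end KS5aux

open Pool.Agent.R755.KF.K5Waux KS5aux

theorem loc (h1 : Pool.Agent.R755.KF.S_GEO) (h2 : Pool.Agent.R755.KF.S_FIB)
    (h3 : Pool.Agent.R755.KF.S_PLH) (h4 : Pool.Agent.R755.KF.S_TMW) : S_LOC := by
  intro N M k K T A0 δ s h L f a b hK hA0 hδ hδ1 hs h64 h64' ha hb hR hD hf hL hf1 hfL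
  obtain ⟨B, hB0, hB⟩ := bdK hK T
  have hh : 0 < h := by linarith
  have hpa := pw_gd hK T hs hB ha
  have hpb := pw_gd hK T hs hB hb
  have hBLf : BL (max 1 L) f :=
    ⟨hf, fun y => (hf1 y).trans (le_max_left _ _), fun y => (hfL y).trans (le_max_right _ _)⟩
  refine h4 k h (A0 * s) δ s B ‖T (0, a - b)‖ (1 / 8000) L (lw K T a) (lw K T b)
    (mul_pos hA0 hs) hδ hδ1 hs.le h64 h64' (norm_nonneg _) hB0 (by norm_num) hL le_rfl hD
    hpa hpb ?_ ?_ (max 1 L) f hBLf hf1 hfL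
  · intro v
    rw [mean_gd hK T hb v, mean_gd hK T ha v, ← inner_sub_left]
    have e : T (0, b) - T (0, a) = -T (0, a - b) := by
      rw [← map_sub, ← map_neg]
      congr 1
      ext <;> simp
    rw [e, inner_neg_left, abs_neg]
    exact abs_real_inner_le_norm _ _
  · intro h' hh'
    have hhp : 0 < h' := lt_of_lt_of_le hh hh'
    have pm : 0 < Rv K ((1 / 2 : ℝ) • (a + b)) := by
      have h9 := h1 N M K hK a b (1 / 2) (by norm_num) (by norm_num)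
      have e1 : (1 - 1 / 2 : ℝ) • a + (1 / 2 : ℝ) • b = (1 / 2 : ℝ) • (a + b) := by
        module
      rw [e1] at h9
      have p1 : 0 < Rv K a ^ (1 - 1 / 2 : ℝ) := Real.rpow_pos_of_pos ha.pos _
      have p2 : 0 < Rv K b ^ (1 / 2 : ℝ) := Real.rpow_pos_of_pos hb.pos _
      exact lt_of_lt_of_le (mul_pos p1 p2) h9
    have hfib := h2 N M k K T a b hK ha.pos hb.pos pm
    have hab : 0 < Rv K a * Rv K b := mul_pos ha.pos hb.pos
    have hle : Rv K ((1 / 2 : ℝ) • (a + b)) ^ 2 / (Rv K a * Rv K b) ≤ (1 + 1 / 8000) ^ 2 := by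
      rw [div_le_iff₀ hab]
      have h10 := pow_le_pow_left₀ pm.le hR 2
      rw [mul_pow, Real.sq_sqrt hab.le] at h10
      exact h10
    exact h3 k h' B (1 / 8000) _ _ _ hhp hB0 (by norm_num) hpa.pb hpb.pb
      (pb_fib hK T hB _ pm) (pl3_mono hfib hle)

theorem lv (h1 : Pool.Agent.R755.KF.S_REP) (h2 : Pool.Agent.R755.KF.S_GP) : S_LV := by
  intro N M k K T A0 δ s h L f t hK hA0 hδ hs hh hg hf hL hf1 hfL
  obtain ⟨B, hB0, hB⟩ := bdK hK T
  have hp := pw_gd hK T hs hB hg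
  have hBLf : BL (max 1 L) f :=
    ⟨hf, fun y => (hf1 y).trans (le_max_left _ _), fun y => (hfL y).trans (le_max_right _ _)⟩
  have := var_leW h1 h2 hh (mul_pos hA0 hs).le hp hBLf hf1 hL hfL
  linarith

end Pool.Agent.R755.KS
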