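import Pool.Agent.R755.KS.Defs

/-!
# Centred fibrations over a base of arbitrary dimension, KS9: the base law of a body with symmetries
-/

set_option autoImplicit false

namespace Pool.Agent.R755.KS

open MeasureTheory Set Filter Topology
open scoped ENNReal InnerProductSpace
open Pool.Agent.H888R2.KT (gs gc)
open Pool.Agent.R754.KG (E un sl Rv)
open Pool.Agent.R755.KF (BL PB KW CB lw ey)

namespace KS9aux

variable {N d : ℕ} {K : Set (E N × E d)}

theorem meas (h : CB K) : MeasurableSet K := h.comp.measurableSet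

theorem kfin (h : CB K) : volume K ≠ ⊤ := h.comp.measure_lt_top.ne

theorem sl_meas (h : CB K) (t : E d) : MeasurableSet (sl K t) := measurable_prodMk_right (meas h)

theorem sl_bd (h : CB K) (t : E d) : Bornology.IsBounded (sl K t) :=
  h.comp.isBounded.image_fst.subset fun x hx => ⟨(x, t), hx, rfl⟩

theorem sl_fin (h : CB K) (t : E d) : volume (sl K t) ≠ ⊤ := (sl_bd h t).measure_lt_top.ne

theorem R_vol (h : CB K) (t : E d) : volume (sl K t) = ENNReal.ofReal (Rv K t) := by
  unfold Rv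
  rw [ENNReal.ofReal_toReal (sl_fin h t)]

theorem fub (h : CB K) (F : E N × E d → ℝ≥0∞) (hF : Measurable F) :
    ∫⁻ z in K, F z = ∫⁻ t, ∫⁻ x in sl K t, F (x, t) := by
  rw [← lintegral_indicator (meas h), Measure.volume_eq_prod,
    lintegral_prod_symm' _ (hF.indicator (meas h))]
  refine lintegral_congr fun t => ?_
  rw [← lintegral_indicator (sl_meas h t)]
  rfl

theorem sec_meas (h : CB K) (F : E N × E d → ℝ≥0∞) (hF : Measurable F) :
    Measurable fun t => ∫⁻ x in sl K t, F (x, t) := by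
  have h1 : Measurable fun t : E d => ∫⁻ x, K.indicator F (x, t) := by
    exact (hF.indicator (meas h)).lintegral_prod_left'
  convert h1 using 2 with t
  rw [← lintegral_indicator (sl_meas h t)]
  rfl

theorem R_meas (h : CB K) : Measurable (Rv K) := by
  have h1 := sec_meas h (fun _ => 1) measurable_const
  simp only [lintegral_const, one_mul, Measure.restrict_apply_univ] at h1
  unfold Rv
  exact h1.ennreal_toReal

/-- the density of the law of the second component -/
theorem bl_lint (h : CB K) (F : E d → ℝ≥0∞) (hF : Measurable F) :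
    ∫⁻ t, F t ∂(bl K) = (volume K)⁻¹ * ∫⁻ t, F t * volume (sl K t) := by
  unfold bl un
  rw [lintegral_map hF measurable_snd, lintegral_smul_measure, smul_eq_mul,
    fub h (fun z => F z.2) (hF.comp measurable_snd)]
  congr 1
  apply lintegral_congr
  intro t
  simp [lintegral_const]

/-- the law of the second component is a measure with density -/
theorem bl_eq (h : CB K) : bl K = volume.withDensity (fun t => ENNReal.ofReal (Rv K t / (volume K).toReal)) := by
  have hV0 : 0 < (volume K).toReal := ENNReal.toReal_pos h.pos.ne' (kfin h)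
  have hm : Measurable fun t => ENNReal.ofReal (Rv K t / (volume K).toReal) :=
    ((R_meas h).div_const _).ennreal_ofReal
  ext A hA
  have h1 := bl_lint h (A.indicator fun _ => 1) (measurable_const.indicator hA)
  rw [lintegral_indicator hA] at h1
  simp only [lintegral_const, one_mul, Measure.restrict_apply_univ] at h1
  rw [h1, withDensity_apply _ hA, ← lintegral_indicator hA, ← lintegral_const_mul]
  · apply lintegral_congr
    intro t
    by_cases ht : t ∈ A
    · rw [indicator_of_mem ht, indicator_of_mem ht, one_mul, R_vol h t, ENNReal.ofReal_div_of_pos hV0,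
        ENNReal.ofReal_toReal (kfin h), ENNReal.div_eq_inv_mul]
    · rw [indicator_of_notMem ht, indicator_of_notMem ht, zero_mul, mul_zero]
  · have h2 := sec_meas h (fun _ => 1) measurable_const
    simp only [lintegral_const, one_mul, Measure.restrict_apply_univ] at h2
    exact (measurable_const.indicator hA).mul h2

/-- first and second moments of a measure invariant under `G` -/
theorem mom {c0 : ℝ} {m : ℕ} {G : Set (E m ≃ₗᵢ[ℝ] E m)} (hG : KG c0 G) (ρ : Measure (E m))
    [IsProbabilityMeasure ρ] (B : ℝ) (hB : ∀ᵐ x ∂ρ, ‖x‖ ≤ B)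
    (hinv : ∀ g ∈ G, Measure.map g ρ = ρ) :
    (∀ u : E m, ∫ t, ⟪t, u⟫_ℝ ∂ρ = 0) ∧ ∃ c : ℝ, ∀ u : E m, ∫ t, ⟪t, u⟫_ℝ ^ 2 ∂ρ = c * ‖u‖ ^ 2 := by
  have hint : ∀ {F : Type} [NormedAddCommGroup F] [NormedSpace ℝ F] [FiniteDimensional ℝ F] (f : E m → F) (_ : Continuous f)
      (C : ℝ) (_ : ∀ x, ‖x‖ ≤ B → ‖f x‖ ≤ C), Integrable f ρ := by
    intro F _ _ _ f hf C hC
    apply Integrable.of_bound (hf.aestronglyMeasurable) C
    filter_upwards [hB] with x hx
    exact hC x hx
  have i1 : Integrable (fun t : E m => t) ρ := hint _ continuous_id B fun x hx => hx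
  have i2 : ∀ u : E m, Integrable (fun t : E m => ⟪t, u⟫_ℝ • t) ρ := by
    intro u
    apply hint _ (by fun_prop) (B * ‖u‖ * B)
    intro x hx
    have h0 := norm_nonneg x
    have h1 : ‖⟪x, u⟫_ℝ‖ ≤ ‖x‖ * ‖u‖ := norm_inner_le_norm x u
    rw [norm_smul]
    have h2 : ‖x‖ * ‖u‖ ≤ B * ‖u‖ := mul_le_mul_of_nonneg_right hx (norm_nonneg u)
    exact mul_le_mul (h1.trans h2) hx h0 (mul_nonneg (h0.trans hx) (norm_nonneg u))
  have change : ∀ (g : E m ≃ₗᵢ[ℝ] E m), g ∈ G → ∀ {F : Type} [NormedAddCommGroup F] [NormedSpace ℝ F]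
      [FiniteDimensional ℝ F] (f : E m → F), Continuous f →
      ∫ t, f (g t) ∂ρ = ∫ t, f t ∂ρ := by
    intro g hg F _ _ _ f hf
    conv_rhs => rw [← hinv g hg]
    rw [integral_map g.continuous.aemeasurable]
    rw [hinv g hg]
    exact hf.aestronglyMeasurable
  have hv : (∫ t, t ∂ρ) = 0 := by
    apply hG.mean
    intro g hg
    have h1 : g (∫ t, t ∂ρ) = ∫ t, g t ∂ρ := by
      have := (g.toContinuousLinearEquiv : E m →L[ℝ] E m).integral_comp_comm i1
      exact this.symm
    rw [h1]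
    exact change g hg (fun t => t) continuous_id
  refine ⟨fun u => ?_, ?_⟩
  · have h1 : ∫ t, ⟪t, u⟫_ℝ ∂ρ = ⟪∫ t, t ∂ρ, u⟫_ℝ := by
      have := (innerSL ℝ u).integral_comp_comm i1
      simp only [innerSL_apply_apply] at this
      rw [real_inner_comm, ← this]
      apply integral_congr_ae
      filter_upwards with t
      exact real_inner_comm _ _
    rw [h1, hv, inner_zero_left]
  · let A : E m →ₗ[ℝ] E m :=
      { toFun := fun u => ∫ t, ⟪t, u⟫_ℝ • t ∂ρ
        map_add' := fun u w => by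
          rw [← integral_add (i2 u) (i2 w)]
          congr 1
          funext t
          rw [inner_add_right, add_smul]
        map_smul' := fun r u => by
          rw [RingHom.id_apply, ← integral_smul]
          congr 1
          funext t
          rw [real_inner_smul_right, mul_smul] }
    have hA : ∀ u w, ⟪A u, w⟫_ℝ = ∫ t, ⟪t, u⟫_ℝ * ⟪t, w⟫_ℝ ∂ρ := by
      intro u w
      have := (innerSL ℝ w).integral_comp_comm (i2 u)
      simp only [innerSL_apply_apply] at this
      show ⟪∫ t, ⟪t, u⟫_ℝ • t ∂ρ, w⟫_ℝ = _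
      rw [real_inner_comm, ← this]
      congr 1
      funext t
      rw [real_inner_smul_right, real_inner_comm w t]
    obtain ⟨c, hc⟩ := hG.scal A (by
      intro u w
      rw [hA, real_inner_comm, hA]
      congr 1
      funext t
      rw [mul_comm]) (by
      intro g hg u
      have h1 : g (A u) = ∫ t, ⟪t, u⟫_ℝ • g t ∂ρ := by
        have := (g.toContinuousLinearEquiv : E m →L[ℝ] E m).integral_comp_comm (i2 u)
        show g (∫ t, ⟪t, u⟫_ℝ • t ∂ρ) = _
        refine this.symm.trans ?_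
        congr 1
        funext t
        show g (⟪t, u⟫_ℝ • t) = _
        rw [map_smul]
      rw [h1]
      show _ = ∫ t, ⟪t, g u⟫_ℝ • t ∂ρ
      rw [← change g hg (fun t => ⟪t, g u⟫_ℝ • t) (by fun_prop)]
      congr 1
      funext t
      rw [g.inner_map_map])
    refine ⟨c, fun u => ?_⟩
    have h1 := hA u u
    rw [hc u, real_inner_smul_left, real_inner_self_eq_norm_sq] at h1
    rw [h1]
    congr 1
    funext t
    rw [sq]

end KS9aux

open KS9aux in
/-- KS9 -/
theorem kgb (h1 : Pool.Agent.R755.KF.S_GEO) : S_KGB := by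
  intro c0 N M G K hc0 hG hK hKG k P s hs hcov C v hv hv1
  have hV0 : 0 < (volume K).toReal := ENNReal.toReal_pos hK.pos.ne' (kfin hK)
  have hprob : IsProbabilityMeasure (bl K) := by
    unfold bl
    have := Pool.Agent.R754.KG.un_prob hK.pos.ne' (kfin hK)
    exact Measure.isProbabilityMeasure_map measurable_snd.aemeasurable
  obtain ⟨R, hR⟩ : ∃ R : ℝ, ∀ z ∈ K, ‖z.2‖ ≤ R := by
    obtain ⟨R, hR⟩ := hK.comp.isBounded.exists_norm_le
    exact ⟨R, fun z hz => (norm_snd_le z).trans (hR z hz)⟩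
  have hbd : ∀ᵐ t ∂(bl K), ‖t‖ ≤ R := by
    unfold bl
    rw [ae_map_iff measurable_snd.aemeasurable (measurableSet_le measurable_norm measurable_const)]
    unfold un
    apply Measure.ae_smul_measure
    rw [ae_restrict_iff' (KS9aux.meas hK)]
    exact Eventually.of_forall fun z hz => hR z hz
  obtain ⟨w, hwd⟩ : ∃ w : E M → ℝ, w = fun t => Rv K t / (volume K).toReal := ⟨_, rfl⟩
  have hsl : ∀ g ∈ G, ∀ t, sl K (g t) = sl K t := by
    intro g hg t
    ext x
    exact (hKG g hg x t).symm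
  have hwinv : ∀ g ∈ G, ∀ t, w (g t) = w t := by
    intro g hg t
    rw [hwd]
    show Rv K (g t) / _ = Rv K t / _
    unfold Rv
    rw [hsl g hg t]
  have hbl : bl K = volume.withDensity (fun t => ENNReal.ofReal (w t)) := by
    rw [bl_eq hK, hwd]
  have hwm : Measurable w := by
    rw [hwd]
    exact (R_meas hK).div_const _
  have hLCG : LCG G w := by
    refine ⟨hwm, fun t => ?_, fun x y t ht0 ht1 => ?_, ⟨R, fun t ht => ?_⟩, hwinv⟩
    · rw [hwd]
      have := Pool.Agent.R754.KG.R_nonneg (K := K) t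
      show 0 ≤ Rv K t / (volume K).toReal
      positivity
    · rw [hwd]
      show (Rv K x / (volume K).toReal) ^ (1 - t) * (Rv K y / (volume K).toReal) ^ t ≤
        Rv K ((1 - t) • x + t • y) / (volume K).toReal
      have hx := Pool.Agent.R754.KG.R_nonneg (K := K) x
      have hy := Pool.Agent.R754.KG.R_nonneg (K := K) y
      rw [Real.div_rpow hx hV0.le, Real.div_rpow hy hV0.le, div_mul_div_comm, ← Real.rpow_add hV0]
      have e : 1 - t + t = 1 := by ring
      rw [e, Real.rpow_one]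
      exact div_le_div_of_nonneg_right (h1 N M K hK x y t ht0 ht1) hV0.le
    · rw [hwd]
      show Rv K t / _ = 0
      have : sl K t = ∅ := by
        ext x
        constructor
        · intro hx
          have := hR (x, t) hx
          exact absurd ht (not_lt.2 this)
        · intro hx
          exact absurd hx (notMem_empty x)
      unfold Rv
      rw [this]
      simp
  have hinv : ∀ g ∈ G, Measure.map g (bl K) = bl K := by
    intro g hg
    rw [hbl]
    ext A hA
    rw [Measure.map_apply g.continuous.measurable hA, withDensity_apply _ (g.continuous.measurable hA),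
      withDensity_apply _ hA, ← lintegral_indicator (g.continuous.measurable hA), ← lintegral_indicator hA,
      ← (g.measurePreserving).lintegral_comp ((hwm.ennreal_ofReal).indicator hA)]
    apply lintegral_congr
    intro t
    by_cases ht : g t ∈ A
    · rw [indicator_of_mem (show t ∈ g ⁻¹' A from ht), indicator_of_mem ht, hwinv g hg]
    · rw [indicator_of_notMem (show t ∉ g ⁻¹' A from ht), indicator_of_notMem ht]
  obtain ⟨hm0, c, hc⟩ := mom hG (bl K) R hbd hinv
  -- the second moment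
  have hcM : ∀ u : E M, (∫ x, ‖x‖ ^ 2 ∂(bl K)) / M * ‖u‖ ^ 2 = c * ‖u‖ ^ 2 := by
    intro u
    have hint : ∀ i : Fin M, Integrable (fun t : E M => ⟪t, EuclideanSpace.single i (1 : ℝ)⟫_ℝ ^ 2) (bl K) := by
      intro i
      apply Integrable.of_bound (by fun_prop) (R ^ 2)
      filter_upwards [hbd] with x hx
      have h2 : ‖⟪x, EuclideanSpace.single i (1 : ℝ)⟫_ℝ‖ ≤ ‖x‖ * ‖EuclideanSpace.single i (1 : ℝ)‖ :=
        norm_inner_le_norm _ _
      rw [PiLp.norm_single, norm_one, mul_one] at h2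
      rw [norm_pow]
      exact pow_le_pow_left₀ (norm_nonneg _) (h2.trans hx) 2
    have h2 : ∫ x, ‖x‖ ^ 2 ∂(bl K) = M * c := by
      have h3 : ∀ x : E M, ‖x‖ ^ 2 = ∑ i, ⟪x, EuclideanSpace.single i (1 : ℝ)⟫_ℝ ^ 2 := by
        intro x
        rw [EuclideanSpace.norm_sq_eq]
        apply Finset.sum_congr rfl
        intro i _
        rw [EuclideanSpace.inner_single_right]
        simp
      simp only [h3]
      rw [integral_finsetSum _ (fun i _ => hint i)]
      simp only [hc, PiLp.norm_single, norm_one, one_pow, mul_one]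
      rw [Finset.sum_const, Finset.card_univ, Fintype.card_fin, nsmul_eq_mul]
    rcases Nat.eq_zero_or_pos M with hM | hM
    · subst hM
      have : u = 0 := Subsingleton.elim _ _
      rw [this]
      simp
    · have hMr : (0 : ℝ) < M := by exact_mod_cast hM
      rw [h2]
      field_simp
  obtain ⟨σ, hσ⟩ : ∃ σ : ℝ, σ = (∫ x, ‖x‖ ^ 2 ∂(bl K)) / M := ⟨_, rfl⟩
  have hσ0 : 0 ≤ σ := by
    rw [hσ]
    exact div_nonneg (integral_nonneg fun x => sq_nonneg _) (Nat.cast_nonneg M)
  rw [← hσ] at hcM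
  have hPθ : ∀ θ : E k, σ * ‖(LinearMap.adjoint P) θ‖ ^ 2 ≤ s * ‖θ‖ ^ 2 := by
    intro θ
    have h2 : ∀ θ : E k, ‖θ‖ = 1 → σ * ‖(LinearMap.adjoint P) θ‖ ^ 2 ≤ s := by
      intro θ hθ
      have h3 := hcov θ hθ
      have e : ∀ t, ⟪P t, θ⟫_ℝ = ⟪t, (LinearMap.adjoint P) θ⟫_ℝ := fun t =>
        (LinearMap.adjoint_inner_right P t θ).symm
      simp only [e] at h3
      rw [hm0, hc] at h3
      rw [hcM]
      linarith
    rcases eq_or_ne θ 0 with h0 | h0
    · rw [h0, map_zero]
      simp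
    · have hn : ‖θ‖ ≠ 0 := norm_ne_zero_iff.2 h0
      have h3 := h2 (‖θ‖⁻¹ • θ) (by
        rw [norm_smul, norm_inv, norm_norm, inv_mul_cancel₀ hn])
      rw [map_smul, norm_smul, mul_pow, norm_inv, norm_norm] at h3
      have h4 : 0 < ‖θ‖ ^ 2 := by positivity
      calc σ * ‖(LinearMap.adjoint P) θ‖ ^ 2 =
          (σ * (‖θ‖⁻¹ ^ 2 * ‖(LinearMap.adjoint P) θ‖ ^ 2)) * ‖θ‖ ^ 2 := by
            field_simp
        _ ≤ s * ‖θ‖ ^ 2 := mul_le_mul_of_nonneg_right h3 h4.le
  have hPc : Continuous P := P.continuous_of_finiteDimensional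
  have hfc : ContDiff ℝ 1 (fun t => v (P t)) :=
    hv.c1.comp (LinearMap.toContinuousLinearMap P).contDiff
  have hkls := hG.kls w hLCG (bl K) hbl hprob (fun t => v (P t)) hfc (fun t => hv1 (P t))
  have hvar : ProbabilityTheory.variance (fun t => v (P t)) (bl K) =
      (∫ t, v (P t) ^ 2 ∂(bl K)) - (∫ t, v (P t) ∂(bl K)) ^ 2 := by
    apply ProbabilityTheory.variance_eq_sub
    apply MemLp.of_bound hfc.continuous.aestronglyMeasurable 1
    exact Eventually.of_forall fun t => hv1 (P t)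
  rw [hvar, ← hσ] at hkls
  refine hkls.trans ?_
  have hfd : ∀ t, σ * ‖fderiv ℝ (fun t => v (P t)) t‖ ^ 2 ≤
      s * ‖fderiv ℝ v (P t)‖ ^ 2 := by
    intro t
    have h2 : fderiv ℝ (fun t => v (P t)) t = (fderiv ℝ v (P t)).comp (LinearMap.toContinuousLinearMap P) := by
      have h3 : HasFDerivAt v (fderiv ℝ v (P t)) (LinearMap.toContinuousLinearMap P t) :=
        ((hv.c1.differentiable (by norm_num)) (P t)).hasFDerivAt
      exact (h3.comp t (LinearMap.toContinuousLinearMap P).hasFDerivAt).fderiv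
    obtain ⟨θ, hθ⟩ : ∃ θ : E k, θ = (InnerProductSpace.toDual ℝ (E k)).symm (fderiv ℝ v (P t)) := ⟨_, rfl⟩
    have h4 : ∀ y, fderiv ℝ v (P t) y = ⟪θ, y⟫_ℝ := by
      intro y
      rw [hθ, InnerProductSpace.toDual_symm_apply]
    have h5 : ‖fderiv ℝ v (P t)‖ = ‖θ‖ := by
      rw [hθ, LinearIsometryEquiv.norm_map]
    have h6 : ‖(fderiv ℝ v (P t)).comp (LinearMap.toContinuousLinearMap P)‖ ≤ ‖(LinearMap.adjoint P) θ‖ := by
      apply ContinuousLinearMap.opNorm_le_bound _ (norm_nonneg _)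
      intro y
      show ‖fderiv ℝ v (P t) (P y)‖ ≤ _
      rw [h4, ← LinearMap.adjoint_inner_left]
      exact norm_inner_le_norm _ _
    have h7 : ‖(fderiv ℝ v (P t)).comp (LinearMap.toContinuousLinearMap P)‖ ^ 2 ≤ ‖(LinearMap.adjoint P) θ‖ ^ 2 :=
      pow_le_pow_left₀ (norm_nonneg _) h6 2
    rw [h2, h5]
    exact (mul_le_mul_of_nonneg_left h7 hσ0).trans (hPθ θ)
  have hcv : Continuous fun t => fderiv ℝ v (P t) := (hv.c1.continuous_fderiv (by norm_num)).comp hPc
  have i1 : Integrable (fun t => s * ‖fderiv ℝ v (P t)‖ ^ 2) (bl K) := by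
    apply Integrable.const_mul
    apply Integrable.of_bound (hcv.norm.pow 2).aestronglyMeasurable (C ^ 2)
    refine Eventually.of_forall fun t => ?_
    show ‖‖fderiv ℝ v (P t)‖ ^ 2‖ ≤ C ^ 2
    rw [norm_pow, norm_norm]
    exact pow_le_pow_left₀ (norm_nonneg _) (hv.gd (P t)) 2
  have hI : σ * ∫ t, ‖fderiv ℝ (fun t => v (P t)) t‖ ^ 2 ∂(bl K) ≤
      s * ∫ t, ‖fderiv ℝ v (P t)‖ ^ 2 ∂(bl K) := by
    rw [← integral_const_mul, ← integral_const_mul]
    exact integral_mono_of_nonneg (Eventually.of_forall fun t => mul_nonneg hσ0 (sq_nonneg _)) i1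
      (Eventually.of_forall hfd)
  calc c0 * σ * ∫ t, ‖fderiv ℝ (fun t => v (P t)) t‖ ^ 2 ∂(bl K) =
      c0 * (σ * ∫ t, ‖fderiv ℝ (fun t => v (P t)) t‖ ^ 2 ∂(bl K)) := by ring
    _ ≤ c0 * (s * ∫ t, ‖fderiv ℝ v (P t)‖ ^ 2 ∂(bl K)) := mul_le_mul_of_nonneg_left hI hc0.le
    _ = c0 * s * ∫ t, ‖fderiv ℝ v (P t)‖ ^ 2 ∂(bl K) := by ring

end Pool.Agent.R755.KS
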