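import Pool.Agent.R755.KS.Defs
import Pool.Agent.Results.MP_6d896a_gt.OneSymmetric

/-!
# Centred fibrations, piece KS-E1: the symmetries of the cube
-/

set_option autoImplicit false

namespace Pool.Agent.R755.KS

open MeasureTheory Set Filter Topology
open scoped ENNReal InnerProductSpace
open Pool.Agent.R754.KG (E un sl Rv)

namespace E1aux

/-- the signed permutation `x ↦ (ε i * x (σ i))` -/
noncomputable def sp {m : ℕ} (σ : Equiv.Perm (Fin m)) (ε : Fin m → ℝ)
    (hε : ∀ i, ε i = 1 ∨ ε i = -1) : E m ≃ₗᵢ[ℝ] E m where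
  toFun x := WithLp.toLp 2 fun i => ε i * x (σ i)
  invFun x := WithLp.toLp 2 fun i => ε (σ.symm i) * x (σ.symm i)
  map_add' x y := by ext i; simp [mul_add]
  map_smul' c x := by ext i; simp; ring
  left_inv x := by
    ext i
    simp only [Equiv.apply_symm_apply]
    rcases hε (σ.symm i) with h | h <;> rw [h] <;> ring
  right_inv x := by
    ext i
    simp only [Equiv.symm_apply_apply]
    rcases hε i with h | h <;> rw [h] <;> ring
  norm_map' x := by
    rw [EuclideanSpace.norm_eq, EuclideanSpace.norm_eq]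
    congr 1
    have h1 : ∀ i, ‖ε i * x (σ i)‖ ^ 2 = ‖x (σ i)‖ ^ 2 := by
      intro i
      rcases hε i with h | h <;> rw [h] <;> simp
    simp only [LinearEquiv.coe_mk, LinearMap.coe_mk, AddHom.coe_mk]
    rw [Finset.sum_congr rfl fun i _ => h1 i]
    exact Equiv.sum_comp σ (fun i => ‖x i‖ ^ 2)

theorem sp_apply {m : ℕ} (σ : Equiv.Perm (Fin m)) (ε : Fin m → ℝ) (hε : ∀ i, ε i = 1 ∨ ε i = -1)
    (x : E m) (i : Fin m) : sp σ ε hε x i = ε i * x (σ i) := rfl

/-- the group of the cube -/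
abbrev GG (m : ℕ) : Set (E m ≃ₗᵢ[ℝ] E m) := {g : E m ≃ₗᵢ[ℝ] E m | ∃ (σ : Equiv.Perm (Fin m))
  (ε : Fin m → ℝ), (∀ i, ε i = 1 ∨ ε i = -1) ∧ ∀ x i, g x i = ε i * x (σ i)}

theorem sp_mem {m : ℕ} (σ : Equiv.Perm (Fin m)) (ε : Fin m → ℝ) (hε : ∀ i, ε i = 1 ∨ ε i = -1) :
    sp σ ε hε ∈ GG m := ⟨σ, ε, hε, fun _ _ => rfl⟩

/-- the sign change of the coordinate `k` -/
noncomputable def fl {m : ℕ} (k : Fin m) : Fin m → ℝ := fun i => if i = k then -1 else 1

theorem fl_sign {m : ℕ} (k : Fin m) : ∀ i, fl k i = 1 ∨ fl k i = -1 := by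
  intro i; unfold fl; split_ifs <;> simp

theorem mean {m : ℕ} (v : E m) (h : ∀ g ∈ GG m, g v = v) : v = 0 := by
  ext k
  have h1 := h _ (sp_mem 1 (fl k) (fl_sign k))
  have h2 := congrArg (fun x : E m => x k) h1
  simp only [sp_apply, fl, if_true, Equiv.Perm.one_apply] at h2
  simp only [PiLp.zero_apply]
  linarith

theorem scal {m : ℕ} (A : E m →ₗ[ℝ] E m) (h : ∀ g ∈ GG m, ∀ x, g (A x) = A (g x)) :
    ∃ c : ℝ, ∀ x, A x = c • x := by
  rcases m with _ | m
  · exact ⟨0, fun x => Subsingleton.elim _ _⟩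
  -- `A e_i` is a multiple of `e_i`
  have hd : ∀ i k : Fin (m + 1), k ≠ i → A (EuclideanSpace.single i 1) k = 0 := by
    intro i k hk
    have h1 := h _ (sp_mem 1 (fl k) (fl_sign k)) (EuclideanSpace.single i 1)
    have h2 : sp 1 (fl k) (fl_sign k) (EuclideanSpace.single i (1:ℝ)) =
        EuclideanSpace.single i (1:ℝ) := by
      ext l
      rw [sp_apply]
      by_cases hl : l = i
      · subst hl
        simp [fl, hk.symm]
      · simp [hl]
    rw [h2] at h1
    have h3 := congrArg (fun x : E (m + 1) => x k) h1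
    simp only [sp_apply, fl, if_true, Equiv.Perm.one_apply] at h3
    linarith
  have hs : ∀ i j : Fin (m + 1), A (EuclideanSpace.single i 1) i = A (EuclideanSpace.single j 1) j := by
    intro i j
    have hε : ∀ l : Fin (m + 1), (fun _ => (1 : ℝ)) l = 1 ∨ (fun _ => (1 : ℝ)) l = -1 :=
      fun _ => Or.inl rfl
    have h1 := h _ (sp_mem (Equiv.swap i j) (fun _ => 1) hε) (EuclideanSpace.single i 1)
    have h2 : sp (Equiv.swap i j) (fun _ => 1) hε (EuclideanSpace.single i (1:ℝ)) =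
        EuclideanSpace.single j (1:ℝ) := by
      ext l
      rw [sp_apply, one_mul]
      by_cases hl : l = j
      · subst hl
        simp
      · have hne : Equiv.swap i j l ≠ i := by
          intro h0
          apply hl
          have := congrArg (Equiv.swap i j) h0
          simpa using this
        simp [hl, hne]
    rw [h2] at h1
    have h3 := congrArg (fun x : E (m + 1) => x j) h1
    simp only [sp_apply, one_mul, Equiv.swap_apply_right] at h3
    exact h3
  refine ⟨A (EuclideanSpace.single 0 1) 0, fun x => ?_⟩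
  have hx : x = ∑ i, x i • EuclideanSpace.single i (1:ℝ) := by
    ext l
    simp [Finset.sum_apply, Pi.single_apply]
  have hA : ∀ i : Fin (m + 1), A (EuclideanSpace.single i 1) =
      (A (EuclideanSpace.single 0 1) 0) • EuclideanSpace.single i (1:ℝ) := by
    intro i
    ext k
    by_cases hk : k = i
    · subst hk
      rw [hs 0 k]
      simp
    · rw [hd i k hk]
      simp [hk]
  conv_lhs => rw [hx]
  rw [map_sum]
  conv_rhs => rw [hx]
  rw [Finset.smul_sum]
  apply Finset.sum_congr rfl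
  intro i _
  rw [map_smul, hA i, smul_comm]

theorem bdd {m : ℕ} {w : E m → ℝ} (hw : Measurable w) (hs : ∃ R : ℝ, ∀ x, R < ‖x‖ → w x = 0) :
    ∃ R : ℝ, ∀ᵐ x ∂((volume : Measure (E m)).withDensity fun x => ENNReal.ofReal (w x)),
      ‖x‖ ≤ R := by
  obtain ⟨R, hR⟩ := hs
  refine ⟨R, ?_⟩
  rw [ae_withDensity_iff hw.ennreal_ofReal]
  refine ae_of_all _ fun x hx => ?_
  by_contra h
  apply hx
  rw [hR x (not_le.1 h), ENNReal.ofReal_zero]

theorem int_of_cont {m : ℕ} {μ : Measure (E m)} [IsFiniteMeasure μ] {R : ℝ}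
    (hR : ∀ᵐ x ∂μ, ‖x‖ ≤ R) {F : E m → ℝ} (hF : Continuous F) : Integrable F μ := by
  obtain ⟨C, hC⟩ := (isCompact_closedBall (0 : E m) R).exists_bound_of_continuousOn
    hF.continuousOn
  refine Integrable.of_bound hF.aestronglyMeasurable C ?_
  filter_upwards [hR] with x hx
  exact hC x (mem_closedBall_zero_iff.2 hx)

theorem norm_sq_pos {m : ℕ} (hm : 1 ≤ m) {w : E m → ℝ} (μ : Measure (E m))
    (hμ : μ = volume.withDensity fun x => ENNReal.ofReal (w x)) [IsProbabilityMeasure μ] {R : ℝ}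
    (hR : ∀ᵐ x ∂μ, ‖x‖ ≤ R) : 0 < ∫ x, ‖x‖ ^ 2 ∂μ := by
  have hne : Nonempty (Fin m) := ⟨⟨0, by omega⟩⟩
  have hint : Integrable (fun x : E m => ‖x‖ ^ 2) μ := int_of_cont hR (by fun_prop)
  have h0 : 0 ≤ ∫ x, ‖x‖ ^ 2 ∂μ := integral_nonneg fun _ => by positivity
  refine lt_of_le_of_ne h0 fun h => ?_
  have h1 := (integral_eq_zero_iff_of_nonneg (fun x : E m => by positivity) hint).1 h.symm
  have hac : μ ≪ volume := by rw [hμ]; exact withDensity_absolutelyContinuous _ _
  have h2' : ∀ᵐ x ∂(volume : Measure (E m)), x ≠ 0 := by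
    rw [ae_iff]
    simp
  have h2 : ∀ᵐ x ∂μ, x ≠ 0 := hac.ae_le h2'
  have h3 : ∀ᵐ x ∂μ, False := by
    filter_upwards [h1, h2] with x hx hx2
    apply hx2
    simpa using hx
  have h4 : μ univ = 0 := by
    have := h3
    rw [ae_iff] at this
    simp at this
  rw [measure_univ] at h4
  exact one_ne_zero h4

theorem var_sq_le {m : ℕ} (μ : Measure (E m)) [IsProbabilityMeasure μ] (f : E m → ℝ)
    (hf : Continuous f) (hf1 : ∀ x, |f x| ≤ 1) :
    ProbabilityTheory.variance f μ ^ 2 ≤ ProbabilityTheory.variance f μ := by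
  have h0 := ProbabilityTheory.variance_nonneg f μ
  have h1 : ProbabilityTheory.variance f μ ≤ 1 := by
    refine (ProbabilityTheory.variance_le_expectation_sq hf.aestronglyMeasurable).trans ?_
    have h2 : ∫ x, (f ^ 2) x ∂μ ≤ ∫ _, (1 : ℝ) ∂μ := by
      apply integral_mono_of_nonneg
      · exact ae_of_all _ fun x => by simp only [Pi.pow_apply, Pi.zero_apply]; positivity
      · exact integrable_const _
      · refine ae_of_all _ fun x => ?_
        have := hf1 x
        simp only [Pi.pow_apply]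
        rw [← sq_abs]
        nlinarith [abs_nonneg (f x)]
    simpa using h2
  nlinarith

/-- from the inequality in `ℝ≥0∞` to the inequality of `KG` -/
theorem finish {m : ℕ} {C S : ℝ} (hC : 0 < C) (hS : 0 < S) (μ : Measure (E m))
    [IsProbabilityMeasure μ] {R : ℝ} (hR : ∀ᵐ x ∂μ, ‖x‖ ≤ R) (f : E m → ℝ) (hf : ContDiff ℝ 1 f)
    (h : ENNReal.ofReal (ProbabilityTheory.variance f μ) ≤
      ENNReal.ofReal (C * S) * ∫⁻ x, ENNReal.ofReal (‖fderiv ℝ f x‖ ^ 2) ∂μ) :
    ProbabilityTheory.variance f μ ≤ C * S * ∫ x, ‖fderiv ℝ f x‖ ^ 2 ∂μ := by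
  have hc : Continuous fun x => ‖fderiv ℝ f x‖ ^ 2 :=
    ((hf.continuous_fderiv (by norm_num)).norm).pow 2
  rw [← ofReal_integral_eq_lintegral_ofReal (int_of_cont hR hc)
    (ae_of_all _ fun x => by positivity), ← ENNReal.ofReal_mul (by positivity)] at h
  refine (ENNReal.ofReal_le_ofReal_iff ?_).1 h
  have : 0 ≤ ∫ x, ‖fderiv ℝ f x‖ ^ 2 ∂μ := integral_nonneg fun _ => by positivity
  positivity

end E1aux

open E1aux in
theorem cube_kg : ∃ c0 : ℝ, 0 < c0 ∧ ∀ m : ℕ,
    KG c0 {g : E m ≃ₗᵢ[ℝ] E m | ∃ (σ : Equiv.Perm (Fin m)) (ε : Fin m → ℝ),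
      (∀ i, ε i = 1 ∨ ε i = -1) ∧ ∀ x i, g x i = ε i * x (σ i)} := by
  obtain ⟨C, hC, H⟩ := Pool.Agent.Results.MP_6d896a_gt.OneSymmetric.result
  refine ⟨C, hC, fun m => ⟨fun v hv => mean v hv, fun A _ hA => scal A hA, ?_⟩⟩
  intro w hw μ hμ hprob f hf hf1
  rcases Nat.eq_zero_or_pos m with rfl | hm
  · have hfc : f = fun _ => f 0 := funext fun x => congrArg f (Subsingleton.elim x 0)
    have hv : ProbabilityTheory.variance f μ = 0 := by
      rw [hfc, ProbabilityTheory.variance_eq_integral (by fun_prop)]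
      simp
    rw [hv]
    simp
  obtain ⟨R, hR'⟩ := bdd hw.meas hw.supp
  rw [← hμ] at hR'
  have hpos := norm_sq_pos hm μ hμ hR'
  have hmR : (0 : ℝ) < m := by exact_mod_cast hm
  set S : ℝ := (∫ x, ‖x‖ ^ 2 ∂μ) / m with hS
  have hS0 : 0 < S := div_pos hpos hmR
  -- the second moments of the coordinates are equal
  have hsym : ∀ i j : Fin m, ∫⁻ x, ENNReal.ofReal (x i ^ 2) ∂μ = ∫⁻ x, ENNReal.ofReal (x j ^ 2) ∂μ := by
    intro i j
    have hε : ∀ l : Fin m, (fun _ => (1 : ℝ)) l = 1 ∨ (fun _ => (1 : ℝ)) l = -1 :=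
      fun _ => Or.inl rfl
    set g := sp (Equiv.swap i j) (fun _ => 1) hε with hg
    have hgm : MeasurePreserving g volume volume := g.measurePreserving
    have hmi : ∀ i : Fin m, Measurable fun x : E m => ENNReal.ofReal (x i ^ 2) := by
      intro i; fun_prop
    rw [hμ, lintegral_withDensity_eq_lintegral_mul _ hw.meas.ennreal_ofReal (hmi i),
      lintegral_withDensity_eq_lintegral_mul _ hw.meas.ennreal_ofReal (hmi j),
      ← hgm.lintegral_comp (hw.meas.ennreal_ofReal.mul (hmi i))]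
    apply lintegral_congr
    intro x
    simp only [Pi.mul_apply]
    rw [hw.inv g (sp_mem _ _ hε) x, hg, sp_apply, one_mul, Equiv.swap_apply_left]
  have hnorm : ∫⁻ x, ENNReal.ofReal (‖x‖ ^ 2) ∂μ = ∑ i : Fin m, ∫⁻ x, ENNReal.ofReal (x i ^ 2) ∂μ := by
    rw [← lintegral_finsetSum _ (fun i _ => by fun_prop)]
    apply lintegral_congr
    intro x
    rw [EuclideanSpace.norm_sq_eq, ENNReal.ofReal_sum_of_nonneg (fun _ _ => by positivity)]
    simp
  have hmom : ∀ i : Fin m, ∫⁻ x, ENNReal.ofReal (x i ^ 2) ∂μ ≤ ENNReal.ofReal S := by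
    intro i
    rw [Finset.sum_congr rfl fun j _ => hsym j i, Finset.sum_const, Finset.card_univ,
      Fintype.card_fin, nsmul_eq_mul, ← ofReal_integral_eq_lintegral_ofReal
        (int_of_cont hR' (by fun_prop)) (ae_of_all _ fun x => by positivity)] at hnorm
    rw [hS, ENNReal.ofReal_div_of_pos hmR, hnorm, ENNReal.ofReal_natCast, mul_comm,
      ENNReal.mul_div_cancel_right (by simpa using hm.ne') (by simp)]
  have hsymd : Pool.Agent.Results.MP_6d896a_gt.OneSymmetric.SymDensity w := by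
    refine ⟨hw.nn, hw.meas, hw.logc, ?_⟩
    intro σ x y hxy
    have hε : ∀ i, (fun i => if y i = x (σ i) then (1 : ℝ) else -1) i = 1 ∨
        (fun i => if y i = x (σ i) then (1 : ℝ) else -1) i = -1 := by
      intro i; simp only; split_ifs <;> simp
    have e : y = sp σ (fun i => if y i = x (σ i) then (1 : ℝ) else -1) hε x := by
      ext i
      rw [sp_apply]
      split_ifs with h
      · rw [one_mul, h]
      · rcases abs_eq_abs.1 (hxy i) with h1 | h1
        · exact absurd h1 h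
        · rw [h1]; ring
    rw [e]
    exact hw.inv _ (sp_mem _ _ hε) x
  have hL : MemLp f 2 μ := MemLp.of_bound hf.continuous.aestronglyMeasurable 1
    (ae_of_all _ fun x => by rw [Real.norm_eq_abs]; exact hf1 x)
  have h1 := H m hm w hsymd μ hμ hprob S hS0 hmom f hf hL
  have h2 := finish hC hS0 μ hR' f hf h1
  exact (var_sq_le μ f hf.continuous hf1).trans h2

end Pool.Agent.R755.KS
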