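import Pool.Agent.R755.KS.Defs
import Pool.Agent.Results.MP_6d896a_gt.OrthogonalInvariant

/-!
# Rectangular matrices under `X ↦ O X S` are a KLS symmetry (task KS-E2)
-/

set_option autoImplicit false

namespace Pool.Agent.R755.KS

open MeasureTheory Set Filter Topology
open scoped ENNReal InnerProductSpace
open Pool.Agent.R754.KG (E)

namespace E2aux

/-- the group of the maps `X ↦ O X S`, `O` orthogonal, `S` a signed permutation matrix -/
def RG (a b : ℕ) (ψ : EuclideanSpace ℝ (Fin a × Fin b) ≃ₗᵢ[ℝ] E (a * b)) :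
    Set (E (a * b) ≃ₗᵢ[ℝ] E (a * b)) :=
  {g | ∃ O ∈ Matrix.orthogonalGroup (Fin a) ℝ, ∃ (σ : Equiv.Perm (Fin b))
    (ε : Fin b → ℝ), (∀ j, ε j = 1 ∨ ε j = -1) ∧ ∀ X i j, (ψ.symm (g (ψ X))) (i, j) =
    ∑ k, O i k * (ε j * X (k, σ j))}

theorem orth_sum {a : ℕ} (O : Matrix (Fin a) (Fin a) ℝ) (hO : O ∈ Matrix.orthogonalGroup (Fin a) ℝ)
    (y : Fin a → ℝ) : ∑ i, (∑ k, O i k * y k) ^ 2 = ∑ k, y k ^ 2 := by
  rw [Matrix.mem_orthogonalGroup_iff'] at hO
  have h1 : (O.mulVec y) ⬝ᵥ (O.mulVec y) = y ⬝ᵥ y := by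
    rw [Matrix.dotProduct_mulVec, ← Matrix.mulVec_transpose, Matrix.mulVec_mulVec, hO,
      Matrix.one_mulVec]
  simp only [dotProduct, Matrix.mulVec] at h1
  simp only [pow_two]
  exact h1

/-- the map `X ↦ O X S` -/
noncomputable def lin {a b : ℕ} (O : Matrix (Fin a) (Fin a) ℝ) (σ : Equiv.Perm (Fin b))
    (ε : Fin b → ℝ) :
    EuclideanSpace ℝ (Fin a × Fin b) →ₗ[ℝ] EuclideanSpace ℝ (Fin a × Fin b) where
  toFun X := WithLp.toLp 2 fun p => ∑ k, O p.1 k * (ε p.2 * X (k, σ p.2))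
  map_add' X Y := by
    ext p
    simp only [PiLp.add_apply, mul_add, Finset.sum_add_distrib]
  map_smul' c X := by
    ext p
    simp only [PiLp.smul_apply, smul_eq_mul, RingHom.id_apply, Finset.mul_sum]
    exact Finset.sum_congr rfl fun k _ => by ring

theorem lin_apply {a b : ℕ} (O : Matrix (Fin a) (Fin a) ℝ) (σ : Equiv.Perm (Fin b))
    (ε : Fin b → ℝ) (X : EuclideanSpace ℝ (Fin a × Fin b)) (i : Fin a) (j : Fin b) :
    lin O σ ε X (i, j) = ∑ k, O i k * (ε j * X (k, σ j)) := rfl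

theorem norm_lin {a b : ℕ} (O : Matrix (Fin a) (Fin a) ℝ)
    (hO : O ∈ Matrix.orthogonalGroup (Fin a) ℝ) (σ : Equiv.Perm (Fin b))
    (ε : Fin b → ℝ) (hε : ∀ j, ε j = 1 ∨ ε j = -1) (X : EuclideanSpace ℝ (Fin a × Fin b)) :
    ‖lin O σ ε X‖ = ‖X‖ := by
  have h1 : ‖lin O σ ε X‖ ^ 2 = ‖X‖ ^ 2 := by
    rw [EuclideanSpace.norm_sq_eq, EuclideanSpace.norm_sq_eq]
    simp only [Real.norm_eq_abs, sq_abs]
    rw [Fintype.sum_prod_type_right, Fintype.sum_prod_type_right]
    have h2 : ∀ j : Fin b, ∑ i : Fin a, (lin O σ ε X (i, j)) ^ 2 = ∑ i : Fin a, X (i, σ j) ^ 2 := by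
      intro j
      simp only [lin_apply]
      rw [orth_sum O hO]
      refine Finset.sum_congr rfl fun k _ => ?_
      rcases hε j with h | h
      · rw [h, one_mul]
      · rw [h]
        ring
    simp only [h2]
    exact Equiv.sum_comp σ (fun j => ∑ i : Fin a, X (i, j) ^ 2)
  exact (pow_left_inj₀ (norm_nonneg _) (norm_nonneg _) (by norm_num)).1 h1

theorem exists_g {a b : ℕ} (ψ : EuclideanSpace ℝ (Fin a × Fin b) ≃ₗᵢ[ℝ] E (a * b))
    (O : Matrix (Fin a) (Fin a) ℝ) (hO : O ∈ Matrix.orthogonalGroup (Fin a) ℝ)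
    (σ : Equiv.Perm (Fin b)) (ε : Fin b → ℝ) (hε : ∀ j, ε j = 1 ∨ ε j = -1) :
    ∃ g ∈ RG a b ψ, ∀ X, ψ.symm (g (ψ X)) = lin O σ ε X := by
  let L : EuclideanSpace ℝ (Fin a × Fin b) →ₗᵢ[ℝ] EuclideanSpace ℝ (Fin a × Fin b) :=
    ⟨lin O σ ε, norm_lin O hO σ ε hε⟩
  let L' : EuclideanSpace ℝ (Fin a × Fin b) ≃ₗᵢ[ℝ] EuclideanSpace ℝ (Fin a × Fin b) :=
    L.toLinearIsometryEquiv rfl
  have h1 : ∀ X, ψ.symm ((ψ.symm.trans (L'.trans ψ)) (ψ X)) = lin O σ ε X := by
    intro X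
    show ψ.symm (ψ (L' (ψ.symm (ψ X)))) = lin O σ ε X
    rw [ψ.symm_apply_apply, ψ.symm_apply_apply]
    rfl
  refine ⟨ψ.symm.trans (L'.trans ψ), ⟨O, hO, σ, ε, hε, fun X i j => ?_⟩, h1⟩
  rw [h1, lin_apply]

/-- signed permutations of the rows and of the columns -/
theorem exists_sp {a b : ℕ} (ψ : EuclideanSpace ℝ (Fin a × Fin b) ≃ₗᵢ[ℝ] E (a * b))
    (τ : Equiv.Perm (Fin a)) (d : Fin a → ℝ) (hd : ∀ j, d j = 1 ∨ d j = -1)
    (σ : Equiv.Perm (Fin b)) (ε : Fin b → ℝ) (hε : ∀ j, ε j = 1 ∨ ε j = -1) :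
    ∃ g ∈ RG a b ψ, ∀ X i j, (ψ.symm (g (ψ X))) (i, j) = d i * (ε j * X (τ i, σ j)) := by
  have hO : (Matrix.of fun i k => if τ i = k then d i else 0 : Matrix (Fin a) (Fin a) ℝ) ∈
      Matrix.orthogonalGroup (Fin a) ℝ := by
    rw [Matrix.mem_orthogonalGroup_iff]
    ext i i'
    rw [Matrix.mul_apply, Matrix.one_apply]
    simp only [Matrix.transpose_apply, Matrix.of_apply, ite_mul, zero_mul, Finset.sum_ite_eq,
      Finset.mem_univ, if_true]
    by_cases h : i = i'
    · subst h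
      rw [if_pos rfl, if_pos rfl]
      rcases hd i with h | h
      · rw [h, one_mul]
      · rw [h]
        norm_num
    · rw [if_neg (fun h' => h (τ.injective h'.symm)), if_neg h, mul_zero]
  obtain ⟨g, hg, h⟩ := exists_g ψ _ hO σ ε hε
  refine ⟨g, hg, fun X i j => ?_⟩
  rw [h, lin_apply]
  simp only [Matrix.of_apply, ite_mul, zero_mul, Finset.sum_ite_eq, Finset.mem_univ, if_true]

theorem scal_aux {a b : ℕ} (ψ : EuclideanSpace ℝ (Fin a × Fin b) ≃ₗᵢ[ℝ] E (a * b))
    (A : E (a * b) →ₗ[ℝ] E (a * b)) (hA : ∀ g ∈ RG a b ψ, ∀ x, g (A x) = A (g x)) :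
    ∃ c : ℝ, ∀ x, A x = c • x := by
  classical
  obtain ⟨A', hA'⟩ : ∃ A' : EuclideanSpace ℝ (Fin a × Fin b) →ₗ[ℝ]
      EuclideanSpace ℝ (Fin a × Fin b), ∀ X, A' X = ψ.symm (A (ψ X)) :=
    ⟨ψ.symm.toLinearEquiv.toLinearMap ∘ₗ A ∘ₗ ψ.toLinearEquiv.toLinearMap, fun X => rfl⟩
  have key : ∀ g ∈ RG a b ψ, ∀ X, A' (ψ.symm (g (ψ X))) = ψ.symm (g (ψ (A' X))) := by
    intro g hg X
    rw [hA', hA', ψ.apply_symm_apply, ψ.apply_symm_apply, hA g hg]
  obtain ⟨e, he⟩ : ∃ e : Fin a × Fin b → EuclideanSpace ℝ (Fin a × Fin b),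
      e = fun p => EuclideanSpace.single p (1 : ℝ) := ⟨_, rfl⟩
  have hep : ∀ p q, e p q = if q = p then 1 else 0 := by
    intro p q
    rw [he]
    simp [PiLp.single_apply]
  have hoff : ∀ p q : Fin a × Fin b, q ≠ p → (A' (e p)) q = 0 := by
    rintro ⟨i, j⟩ ⟨i', j'⟩ hne
    by_cases hi : i' = i
    · have hj : j' ≠ j := fun h => hne (by rw [hi, h])
      obtain ⟨g, hg, hgX⟩ := exists_sp ψ (Equiv.refl _) (fun _ => 1) (fun _ => Or.inl rfl)
        (Equiv.refl _) (fun y => if y = j' then (-1 : ℝ) else 1) (fun y => by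
          by_cases h : y = j'
          · exact Or.inr (if_pos h)
          · exact Or.inl (if_neg h))
      have h1 : ψ.symm (g (ψ (e (i, j)))) = e (i, j) := by
        ext ⟨x, y⟩
        rw [hgX]
        simp only [Equiv.refl_apply, one_mul, hep]
        by_cases h : ((x, y) : Fin a × Fin b) = (i, j)
        · rw [if_pos h]
          rw [Prod.mk.injEq] at h
          rw [if_neg (by rw [h.2]; exact hj.symm), one_mul]
        · rw [if_neg h, mul_zero]
      have h2 := key g hg (e (i, j))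
      rw [h1] at h2
      have h3 := congrArg (fun Y : EuclideanSpace ℝ (Fin a × Fin b) => Y (i', j')) h2
      simp only [hgX, Equiv.refl_apply, one_mul, if_true] at h3
      linarith
    · obtain ⟨g, hg, hgX⟩ := exists_sp ψ (Equiv.refl _) (fun x => if x = i' then (-1 : ℝ) else 1)
        (fun y => by
          by_cases h : y = i'
          · exact Or.inr (if_pos h)
          · exact Or.inl (if_neg h)) (Equiv.refl _) (fun _ => 1) (fun _ => Or.inl rfl)
      have h1 : ψ.symm (g (ψ (e (i, j)))) = e (i, j) := by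
        ext ⟨x, y⟩
        rw [hgX]
        simp only [Equiv.refl_apply, one_mul, hep]
        by_cases h : ((x, y) : Fin a × Fin b) = (i, j)
        · rw [if_pos h]
          rw [Prod.mk.injEq] at h
          rw [if_neg (by rw [h.1]; exact fun h' => hi h'.symm), one_mul]
        · rw [if_neg h, mul_zero]
      have h2 := key g hg (e (i, j))
      rw [h1] at h2
      have h3 := congrArg (fun Y : EuclideanSpace ℝ (Fin a × Fin b) => Y (i', j')) h2
      simp only [hgX, Equiv.refl_apply, one_mul, if_true] at h3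
      linarith
  have hdiag : ∀ p q : Fin a × Fin b, (A' (e q)) q = (A' (e p)) p := by
    rintro ⟨i, j⟩ ⟨i', j'⟩
    obtain ⟨g, hg, hgX⟩ := exists_sp ψ (Equiv.swap i i') (fun _ => 1) (fun _ => Or.inl rfl)
      (Equiv.swap j j') (fun _ => 1) (fun _ => Or.inl rfl)
    have h1 : ψ.symm (g (ψ (e (i, j)))) = e (i', j') := by
      ext ⟨x, y⟩
      rw [hgX, hep, hep, one_mul, one_mul]
      have h2 : ((Equiv.swap i i' x, Equiv.swap j j' y) = (i, j)) ↔ ((x, y) = (i', j')) := by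
        rw [Prod.mk.injEq, Prod.mk.injEq, Equiv.swap_apply_eq_iff, Equiv.swap_apply_eq_iff,
          Equiv.swap_apply_left, Equiv.swap_apply_left]
      by_cases h : (x, y) = (i', j')
      · rw [if_pos h, if_pos (h2.2 h)]
      · rw [if_neg h, if_neg (fun h' => h (h2.1 h'))]
    have h2 := key g hg (e (i, j))
    rw [h1] at h2
    rw [h2, hgX, one_mul, one_mul, Equiv.swap_apply_right, Equiv.swap_apply_right]
  obtain ⟨c, hc⟩ : ∃ c : ℝ, ∀ p, (A' (e p)) p = c := by
    rcases isEmpty_or_nonempty (Fin a × Fin b) with h | ⟨⟨p0⟩⟩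
    · exact ⟨0, fun p => h.elim p⟩
    · exact ⟨(A' (e p0)) p0, fun p => hdiag p0 p⟩
  have hA'e : ∀ p, A' (e p) = c • e p := by
    intro p
    ext q
    rw [PiLp.smul_apply, smul_eq_mul, hep]
    by_cases h : q = p
    · rw [if_pos h, h, hc, mul_one]
    · rw [if_neg h, hoff p q h, mul_zero]
  have hA'c : A' = c • LinearMap.id := by
    refine (EuclideanSpace.basisFun (Fin a × Fin b) ℝ).toBasis.ext fun p => ?_
    have h1 : (EuclideanSpace.basisFun (Fin a × Fin b) ℝ).toBasis p = e p := by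
      rw [he]
      simp
    rw [h1, hA'e]
    rfl
  refine ⟨c, fun x => ?_⟩
  have h1 := hA' (ψ.symm x)
  rw [ψ.apply_symm_apply, hA'c] at h1
  have h2 := congrArg ψ h1
  rw [ψ.apply_symm_apply] at h2
  rw [← h2]
  show ψ (c • ψ.symm x) = c • x
  rw [map_smul, ψ.apply_symm_apply]

/-! ### measures -/

/-- image of a measure with a density under an isometry -/
theorem map_dens {V W : Type} [NormedAddCommGroup V] [InnerProductSpace ℝ V]
    [FiniteDimensional ℝ V] [MeasurableSpace V] [BorelSpace V] [NormedAddCommGroup W]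
    [InnerProductSpace ℝ W] [FiniteDimensional ℝ W] [MeasurableSpace W] [BorelSpace W]
    (φ : V ≃ₗᵢ[ℝ] W) (w : W → ℝ) (hw : Measurable w) :
    Measure.map φ (volume.withDensity fun x => ENNReal.ofReal (w (φ x))) =
      volume.withDensity fun y => ENNReal.ofReal (w y) := by
  have hφ : Measurable φ := φ.continuous.measurable
  ext S hS
  rw [Measure.map_apply hφ hS, withDensity_apply _ (hφ hS), withDensity_apply _ hS]
  exact (LinearIsometryEquiv.measurePreserving φ).setLIntegral_comp_preimage hS hw.ennreal_ofReal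

theorem cov_gen {m : ℕ} (G : Set (E m ≃ₗᵢ[ℝ] E m))
    (hscal : ∀ A : E m →ₗ[ℝ] E m, (∀ g ∈ G, ∀ x, g (A x) = A (g x)) → ∃ c : ℝ, ∀ x, A x = c • x)
    (μ : Measure (E m)) [IsProbabilityMeasure μ] (R : ℝ) (hR : ∀ᵐ x ∂μ, ‖x‖ ≤ R)
    (hinv : ∀ g ∈ G, Measure.map g μ = μ) (hm : 0 < m) (θ : E m) :
    ∫ x, ⟪θ, x⟫_ℝ ^ 2 ∂μ = (∫ x, ‖x‖ ^ 2 ∂μ) / m * ‖θ‖ ^ 2 := by
  have hI : ∀ u : E m, Integrable (fun x => ⟪x, u⟫_ℝ • x) μ := by
    intro u
    refine Integrable.of_bound ?_ (R * ‖u‖ * R) ?_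
    · exact (by fun_prop : Continuous fun x : E m => ⟪x, u⟫_ℝ • x).aestronglyMeasurable
    · filter_upwards [hR] with x hx
      rw [norm_smul]
      have h1 : ‖⟪x, u⟫_ℝ‖ ≤ ‖x‖ * ‖u‖ := norm_inner_le_norm x u
      have h2 : ‖x‖ * ‖u‖ ≤ R * ‖u‖ := mul_le_mul_of_nonneg_right hx (norm_nonneg _)
      exact mul_le_mul (h1.trans h2) hx (norm_nonneg _) ((by positivity : 0 ≤ ‖x‖ * ‖u‖).trans h2)
  obtain ⟨A, hA⟩ : ∃ A : E m →ₗ[ℝ] E m, ∀ u, A u = ∫ x, ⟪x, u⟫_ℝ • x ∂μ := by
    refine ⟨{ toFun := fun u => ∫ x, ⟪x, u⟫_ℝ • x ∂μ, map_add' := ?_, map_smul' := ?_ },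
      fun u => rfl⟩
    · intro u v
      simp only [inner_add_right, add_smul]
      exact integral_add (hI u) (hI v)
    · intro c u
      simp only [inner_smul_right, mul_smul, RingHom.id_apply]
      exact integral_smul c _
  have hAi : ∀ u v : E m, ⟪v, A u⟫_ℝ = ∫ x, ⟪x, u⟫_ℝ * ⟪v, x⟫_ℝ ∂μ := by
    intro u v
    rw [hA, ← integral_inner (hI u) v]
    simp only [inner_smul_right]
  have hcomm : ∀ g ∈ G, ∀ u, g (A u) = A (g u) := by
    intro g hg u
    have h1 : g (A u) = ∫ x, g (⟪x, u⟫_ℝ • x) ∂μ := by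
      rw [hA]
      exact ((g : E m ≃L[ℝ] E m) : E m →L[ℝ] E m).integral_comp_comm (hI u) |>.symm
    have h2 : A (g u) = ∫ y, ⟪y, g u⟫_ℝ • y ∂(Measure.map g μ) := by
      rw [hA, hinv g hg]
    rw [h1, h2, integral_map g.continuous.measurable.aemeasurable
      (by fun_prop : Continuous fun y : E m => ⟪y, g u⟫_ℝ • y).aestronglyMeasurable]
    refine integral_congr_ae (Eventually.of_forall fun x => ?_)
    show g (⟪x, u⟫_ℝ • x) = ⟪g x, g u⟫_ℝ • g x
    rw [map_smul, LinearIsometryEquiv.inner_map_map]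
  obtain ⟨c, hc⟩ := hscal A hcomm
  have hq : ∀ θ : E m, ∫ x, ⟪θ, x⟫_ℝ ^ 2 ∂μ = c * ‖θ‖ ^ 2 := by
    intro θ
    have h1 := hAi θ θ
    rw [hc, inner_smul_right, real_inner_self_eq_norm_sq] at h1
    rw [h1]
    refine integral_congr_ae (Eventually.of_forall fun x => ?_)
    show ⟪θ, x⟫_ℝ ^ 2 = ⟪x, θ⟫_ℝ * ⟪θ, x⟫_ℝ
    rw [real_inner_comm θ x, pow_two]
  have htr : ∫ x, ‖x‖ ^ 2 ∂μ = m * c := by
    have h1 : ∀ x : E m, ‖x‖ ^ 2 = ∑ i, ⟪EuclideanSpace.basisFun (Fin m) ℝ i, x⟫_ℝ ^ 2 := by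
      intro x
      rw [← (EuclideanSpace.basisFun (Fin m) ℝ).sum_sq_norm_inner_right x]
      refine Finset.sum_congr rfl fun i _ => ?_
      rw [Real.norm_eq_abs, sq_abs]
    have hI2 : ∀ u : E m, Integrable (fun x => ⟪u, x⟫_ℝ ^ 2) μ := by
      intro u
      refine Integrable.of_bound ?_ ((‖u‖ * R) ^ 2) ?_
      · exact (by fun_prop : Continuous fun x : E m => ⟪u, x⟫_ℝ ^ 2).aestronglyMeasurable
      · filter_upwards [hR] with x hx
        rw [norm_pow]
        refine pow_le_pow_left₀ (norm_nonneg _) ?_ 2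
        exact (norm_inner_le_norm u x).trans (mul_le_mul_of_nonneg_left hx (norm_nonneg _))
    simp only [h1]
    rw [integral_finsetSum _ (fun i _ => hI2 _)]
    simp only [hq]
    have h2 : ∀ i : Fin m, c * ‖EuclideanSpace.basisFun (Fin m) ℝ i‖ ^ 2 = c := by
      intro i
      rw [(EuclideanSpace.basisFun (Fin m) ℝ).orthonormal.1 i, one_pow, mul_one]
    simp only [h2]
    rw [Finset.sum_const, Finset.card_univ, Fintype.card_fin, nsmul_eq_mul]
  have hmR : (m : ℝ) ≠ 0 := by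
    have : m ≠ 0 := hm.ne'
    exact_mod_cast this
  rw [hq, htr, mul_div_cancel_left₀ c hmR]

theorem pos_moment {m : ℕ} (hm : 0 < m) (w : E m → ℝ)
    (μ : Measure (E m)) (hμ : μ = volume.withDensity fun x => ENNReal.ofReal (w x))
    [IsProbabilityMeasure μ] (R : ℝ) (hR : ∀ᵐ x ∂μ, ‖x‖ ≤ R) : 0 < ∫ x, ‖x‖ ^ 2 ∂μ := by
  have hI : Integrable (fun x : E m => ‖x‖ ^ 2) μ := by
    refine Integrable.of_bound ?_ (R ^ 2) ?_
    · exact (by fun_prop : Continuous fun x : E m => ‖x‖ ^ 2).aestronglyMeasurable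
    · filter_upwards [hR] with x hx
      rw [norm_pow, norm_norm]
      exact pow_le_pow_left₀ (norm_nonneg _) hx 2
  have h0 : 0 ≤ ∫ x, ‖x‖ ^ 2 ∂μ := integral_nonneg fun x => by positivity
  refine lt_of_le_of_ne h0 fun h => ?_
  have h1 := (integral_eq_zero_iff_of_nonneg (fun x => by positivity) hI).1 h.symm
  have h2 : ∀ᵐ x ∂μ, x = 0 := by
    filter_upwards [h1] with x hx
    have h3 : ‖x‖ ^ 2 = 0 := hx
    exact norm_eq_zero.1 (pow_eq_zero_iff (two_ne_zero) |>.1 h3)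
  have : Nonempty (Fin m) := ⟨⟨0, hm⟩⟩
  have h3 : μ {(0 : E m)} = 0 := by
    have h4 : volume {(0 : E m)} = 0 := by simp
    rw [hμ]
    exact withDensity_absolutelyContinuous _ _ h4
  have h5 : μ ({(0 : E m)}ᶜ) = 0 := h2
  have h6 : μ univ = 0 := by
    have h7 : (univ : Set (E m)) = {(0 : E m)} ∪ {(0 : E m)}ᶜ := by simp
    rw [h7]
    exact measure_union_null h3 h5
  rw [measure_univ] at h6
  exact one_ne_zero h6

end E2aux

open E2aux in
theorem rect_kg : ∃ c0 : ℝ, 0 < c0 ∧ ∀ (a b : ℕ)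
    (ψ : EuclideanSpace ℝ (Fin a × Fin b) ≃ₗᵢ[ℝ] E (a * b)),
    3 ≤ a → b ≤ a → KG c0 {g | ∃ O ∈ Matrix.orthogonalGroup (Fin a) ℝ, ∃ (σ : Equiv.Perm (Fin b))
    (ε : Fin b → ℝ), (∀ j, ε j = 1 ∨ ε j = -1) ∧ ∀ X i j, (ψ.symm (g (ψ X))) (i, j) =
    ∑ k, O i k * (ε j * X (k, σ j))} := by
  obtain ⟨C, hC, H⟩ := Pool.Agent.Results.MP_6d896a_gt.OrthogonalInvariant.result
  refine ⟨C, hC, fun a b ψ ha hba => ?_⟩
  show KG C (RG a b ψ)
  refine ⟨?_, fun A _ hA => scal_aux ψ A hA, ?_⟩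
  · intro v hv
    obtain ⟨g, hg, hgX⟩ := exists_sp ψ (Equiv.refl _) (fun _ => 1) (fun _ => Or.inl rfl)
      (Equiv.refl _) (fun _ => -1) (fun _ => Or.inr rfl)
    have h1 := hv g hg
    have h2 : ψ.symm v = 0 := by
      ext ⟨i, j⟩
      have h3 := hgX (ψ.symm v) i j
      rw [ψ.apply_symm_apply, h1] at h3
      simp only [Equiv.refl_apply, one_mul] at h3
      show (ψ.symm v) (i, j) = 0
      linarith
    have h3 := congrArg ψ h2
    rwa [ψ.apply_symm_apply, map_zero] at h3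
  · intro w hw μ hμ hprob f hf hfb
    obtain ⟨hmeas, hnn, hlogc, ⟨R, hR⟩, hinv⟩ := hw
    rcases Nat.eq_zero_or_pos (a * b) with hm | hm
    · -- the space is a point
      have : Subsingleton (E (a * b)) := by
        rw [hm]
        infer_instance
      have h1 : f = fun _ => f 0 := by
        funext x
        rw [Subsingleton.elim x 0]
      have h2 : ProbabilityTheory.variance f μ = 0 := by
        rw [ProbabilityTheory.variance_eq_integral hf.continuous.measurable.aemeasurable, h1]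
        simp
      have h3 : (0 : ℝ) ^ 2 = 0 := by norm_num
      rw [h2, h3]
      have h4 : 0 ≤ ∫ x, ‖x‖ ^ 2 ∂μ := integral_nonneg fun x => by positivity
      have h5 : 0 ≤ ∫ x, ‖fderiv ℝ f x‖ ^ 2 ∂μ := integral_nonneg fun x => by positivity
      positivity
    have hRμ : ∀ᵐ x ∂μ, ‖x‖ ≤ R := by
      rw [hμ, ae_withDensity_iff hmeas.ennreal_ofReal]
      refine Eventually.of_forall fun x hx => ?_
      by_contra hcon
      apply hx
      rw [hR x (not_le.1 hcon), ENNReal.ofReal_zero]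
    have hinv' : ∀ g ∈ RG a b ψ, Measure.map g μ = μ := by
      intro g hg
      have h1 := map_dens g w hmeas
      simp only [hinv g hg] at h1
      rw [hμ]
      exact h1
    have hpos := pos_moment hm w μ hμ R hRμ
    have hmR : (0 : ℝ) < ((a * b : ℕ) : ℝ) := by exact_mod_cast hm
    obtain ⟨s, hs⟩ : ∃ s : ℝ, s = (∫ x, ‖x‖ ^ 2 ∂μ) / ((a * b : ℕ) : ℝ) := ⟨_, rfl⟩
    have hs0 : 0 < s := by
      rw [hs]
      positivity
    have hcov := cov_gen (RG a b ψ) (fun A hA => scal_aux ψ A hA) μ R hRμ hinv' hm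
    obtain ⟨μ', hμ'⟩ : ∃ μ' : Measure (EuclideanSpace ℝ (Fin a × Fin b)),
      μ' = volume.withDensity fun X => ENNReal.ofReal (w (ψ X)) := ⟨_, rfl⟩
    have hψm : Measurable ψ := ψ.continuous.measurable
    have hmap : Measure.map ψ μ' = μ := by
      rw [hμ', hμ]
      exact map_dens ψ w hmeas
    have hprob' : IsProbabilityMeasure μ' := by
      constructor
      have h1 : Measure.map ψ μ' univ = 1 := by
        rw [hmap]
        exact measure_univ
      rwa [Measure.map_apply hψm MeasurableSet.univ, preimage_univ] at h1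
    have hfψ : ContDiff ℝ 1 fun X => f (ψ X) := hf.comp ψ.contDiff
    have hL : MemLp (fun X => f (ψ X)) 2 μ' := by
      refine MemLp.of_bound hfψ.continuous.aestronglyMeasurable 1
        (Eventually.of_forall fun X => ?_)
      rw [Real.norm_eq_abs]
      exact hfb _
    have hI2 : ∀ u : E (a * b), Integrable (fun x => ⟪u, x⟫_ℝ ^ 2) μ := by
      intro u
      refine Integrable.of_bound ?_ ((‖u‖ * R) ^ 2) ?_
      · exact (by fun_prop : Continuous fun x : E (a * b) => ⟪u, x⟫_ℝ ^ 2).aestronglyMeasurable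
      · filter_upwards [hRμ] with x hx
        rw [norm_pow]
        refine pow_le_pow_left₀ (norm_nonneg _) ?_ 2
        exact (norm_inner_le_norm u x).trans (mul_le_mul_of_nonneg_left hx (norm_nonneg _))
    have key := H a b ha hba (fun X => w (ψ X)) (hmeas.comp hψm) (fun X => hnn _) ?_ ?_ μ' hμ'
      hprob' s hs0 ?_ (fun X => f (ψ X)) hfψ hL
    · -- conclusion
      have hvar : ProbabilityTheory.variance (fun X => f (ψ X)) μ' =
          ProbabilityTheory.variance f μ := by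
        rw [← hmap, ProbabilityTheory.variance_map hf.continuous.measurable.aemeasurable
          hψm.aemeasurable]
        rfl
      have hfd : Continuous fun x => ‖fderiv ℝ f x‖ ^ 2 :=
        ((hf.continuous_fderiv (by norm_num)).norm).pow 2
      have hIf : Integrable (fun x => ‖fderiv ℝ f x‖ ^ 2) μ := by
        obtain ⟨B, hB⟩ := (isCompact_closedBall (0 : E (a * b)) R).exists_bound_of_continuousOn
          hfd.continuousOn
        refine Integrable.of_bound hfd.aestronglyMeasurable B ?_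
        filter_upwards [hRμ] with x hx
        exact hB x (by rwa [mem_closedBall_zero_iff])
      have hgr : ∫⁻ X, ENNReal.ofReal (‖fderiv ℝ (fun X => f (ψ X)) X‖ ^ 2) ∂μ' ≤
          ENNReal.ofReal (∫ x, ‖fderiv ℝ f x‖ ^ 2 ∂μ) := by
        rw [ofReal_integral_eq_lintegral_ofReal hIf (Eventually.of_forall fun x => by positivity),
          ← hmap, lintegral_map hfd.measurable.ennreal_ofReal hψm]
        refine lintegral_mono fun X => ?_
        apply ENNReal.ofReal_le_ofReal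
        refine pow_le_pow_left₀ (norm_nonneg _) ?_ 2
        have h1 : fderiv ℝ (fun X => f (ψ X)) X =
            (fderiv ℝ f (ψ X)).comp ((ψ : EuclideanSpace ℝ (Fin a × Fin b) ≃L[ℝ] E (a * b)) :
              EuclideanSpace ℝ (Fin a × Fin b) →L[ℝ] E (a * b)) := by
          have h2 : DifferentiableAt ℝ f (ψ X) := hf.differentiable (by norm_num) _
          have h3 := h2.hasFDerivAt.comp X
            (((ψ : EuclideanSpace ℝ (Fin a × Fin b) ≃L[ℝ] E (a * b)) :
              EuclideanSpace ℝ (Fin a × Fin b) →L[ℝ] E (a * b)).hasFDerivAt)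
          exact h3.fderiv
        rw [h1]
        refine ContinuousLinearMap.opNorm_le_bound _ (norm_nonneg _) fun Y => ?_
        refine ((fderiv ℝ f (ψ X)).le_opNorm _).trans (le_of_eq ?_)
        congr 1
        exact ψ.norm_map Y
      have hG0 : 0 ≤ ∫ x, ‖fderiv ℝ f x‖ ^ 2 ∂μ := integral_nonneg fun x => by positivity
      have h1 : ENNReal.ofReal (ProbabilityTheory.variance f μ) ≤
          ENNReal.ofReal (C * s * ∫ x, ‖fderiv ℝ f x‖ ^ 2 ∂μ) := by
        rw [← hvar, ENNReal.ofReal_mul (by positivity)]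
        exact key.trans (mul_le_mul_right hgr _)
      have h2 : ProbabilityTheory.variance f μ ≤ C * s * ∫ x, ‖fderiv ℝ f x‖ ^ 2 ∂μ :=
        (ENNReal.ofReal_le_ofReal_iff (by positivity)).1 h1
      have h3 : ProbabilityTheory.variance f μ ≤ 1 := by
        refine (ProbabilityTheory.variance_le_expectation_sq
          hf.continuous.aestronglyMeasurable).trans ?_
        have h4 : ∫ x, (f ^ 2) x ∂μ ≤ ∫ _x, (1 : ℝ) ∂μ := by
          refine integral_mono_of_nonneg (Eventually.of_forall fun x => sq_nonneg (f x))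
            (integrable_const 1) (Eventually.of_forall fun x => ?_)
          show f x ^ 2 ≤ 1
          rw [← sq_abs]
          exact pow_le_one₀ (abs_nonneg _) (hfb x)
        refine h4.trans ?_
        simp
      have h4 := ProbabilityTheory.variance_nonneg f μ
      rw [← hs]
      nlinarith
    · intro X Y t h0 h1
      have h2 := hlogc (ψ X) (ψ Y) t h0 h1
      have h3 : ψ ((1 - t) • X + t • Y) = (1 - t) • ψ X + t • ψ Y := by
        rw [map_add, map_smul, map_smul]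
      show w (ψ X) ^ (1 - t) * w (ψ Y) ^ t ≤ w (ψ ((1 - t) • X + t • Y))
      rw [h3]
      exact h2
    · intro O hO X
      obtain ⟨g, hg, hgX⟩ := exists_g ψ O hO (Equiv.refl _) (fun _ => 1) (fun _ => Or.inl rfl)
      have h1 := hinv g hg (ψ X)
      have h2 : g (ψ X) = ψ (WithLp.toLp 2 fun p => ∑ k, O p.1 k * X (k, p.2)) := by
        have h3 := congrArg ψ (hgX X)
        rw [ψ.apply_symm_apply] at h3
        rw [h3]
        congr 1
        ext ⟨i, j⟩
        rw [lin_apply]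
        simp only [Equiv.refl_apply, one_mul]
      show w (ψ (WithLp.toLp 2 fun p => ∑ k, O p.1 k * X (k, p.2))) = w (ψ X)
      rw [← h2]
      exact h1
    · intro θ
      have h1 : ∫⁻ X, ENNReal.ofReal (⟪θ, X⟫_ℝ ^ 2) ∂μ' =
          ∫⁻ x, ENNReal.ofReal (⟪ψ θ, x⟫_ℝ ^ 2) ∂μ := by
        rw [← hmap, lintegral_map ?_ hψm]
        · refine lintegral_congr fun X => ?_
          rw [LinearIsometryEquiv.inner_map_map]
        · exact ((by fun_prop : Continuous fun x : E (a * b) =>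
            ⟪ψ θ, x⟫_ℝ ^ 2).measurable).ennreal_ofReal
      rw [h1, ← ofReal_integral_eq_lintegral_ofReal (hI2 _)
        (Eventually.of_forall fun x => by positivity), hcov, ← hs, ψ.norm_map]

end Pool.Agent.R755.KS
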