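import Pool.Agent.R755.KS.E1
import Pool.Agent.Results.MP_6d896a_gt.Exchangeable

/-!
# Centred fibrations, piece KS-E3: permutations of the sum-zero vectors
-/

set_option autoImplicit false

namespace Pool.Agent.R755.KS

open MeasureTheory Set Filter Topology
open scoped ENNReal InnerProductSpace
open Pool.Agent.R754.KG (E un sl Rv)

namespace E3aux

open E1aux

variable {n : ℕ}

/-- the vector `(1, …, 1)` -/
noncomputable def ones (n : ℕ) : E (n + 1) := WithLp.toLp 2 fun _ => 1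

/-- adjoint of `ι` -/
noncomputable def ad (ι : E n →ₗᵢ[ℝ] E (n + 1)) : E (n + 1) →L[ℝ] E n :=
  ContinuousLinearMap.adjoint ι.toContinuousLinearMap

theorem ad_inner (ι : E n →ₗᵢ[ℝ] E (n + 1)) (y : E (n + 1)) (x : E n) :
    ⟪ad ι y, x⟫_ℝ = ⟪y, ι x⟫_ℝ := by
  unfold ad
  rw [ContinuousLinearMap.adjoint_inner_left]
  rfl

theorem ad_iota (ι : E n →ₗᵢ[ℝ] E (n + 1)) (x : E n) : ad ι (ι x) = x := by
  refine ext_inner_right ℝ fun z => ?_
  rw [ad_inner, ι.inner_map_map]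

theorem inner_ones (y : E (n + 1)) : ⟪ones n, y⟫_ℝ = ∑ i, y i := by
  unfold ones
  simp [PiLp.inner_apply]

theorem sum_ones : ∑ i, ones n i = (n : ℝ) + 1 := by
  simp [ones]

theorem ad_ones (ι : E n →ₗᵢ[ℝ] E (n + 1)) (hι : ∀ x, ∑ i, ι x i = 0) : ad ι (ones n) = 0 := by
  refine ext_inner_right ℝ fun z => ?_
  rw [ad_inner, inner_ones, hι, inner_zero_left]

/-- the sum of the coordinates -/
noncomputable def sm (n : ℕ) : E (n + 1) →ₗ[ℝ] ℝ where
  toFun y := ∑ i, y i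
  map_add' x y := by simp [Finset.sum_add_distrib]
  map_smul' c x := by simp [Finset.mul_sum]

theorem surj (ι : E n →ₗᵢ[ℝ] E (n + 1)) (hι : ∀ x, ∑ i, ι x i = 0) (y : E (n + 1))
    (hy : ∑ i, y i = 0) : ∃ x, ι x = y := by
  have h1 : LinearMap.range ι.toLinearMap ≤ LinearMap.ker (sm n) := by
    rintro _ ⟨x, rfl⟩
    exact hι x
  have hsur : Function.Surjective (sm n) := by
    intro t
    refine ⟨EuclideanSpace.single 0 t, ?_⟩
    simp [sm]
  have h2 : Module.finrank ℝ (LinearMap.range ι.toLinearMap) = n := by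
    rw [LinearMap.finrank_range_of_inj ι.injective]
    simp
  have h3 : Module.finrank ℝ (LinearMap.ker (sm n)) = n := by
    have := LinearMap.finrank_range_add_finrank_ker (sm n)
    rw [LinearMap.range_eq_top.2 hsur, finrank_top, Module.finrank_self] at this
    have h4 : Module.finrank ℝ (E (n + 1)) = n + 1 := by simp
    omega
  have h5 := Submodule.eq_of_le_of_finrank_eq h1 (h2.trans h3.symm)
  have h6 : y ∈ LinearMap.ker (sm n) := hy
  rw [← h5] at h6
  exact h6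

theorem decomp (ι : E n →ₗᵢ[ℝ] E (n + 1)) (hι : ∀ x, ∑ i, ι x i = 0) (y : E (n + 1)) :
    ι (ad ι y) + ((∑ i, y i) / ((n : ℝ) + 1)) • ones n = y := by
  have hn : (n : ℝ) + 1 ≠ 0 := by positivity
  obtain ⟨z, hz⟩ := surj ι hι (y - ((∑ i, y i) / ((n : ℝ) + 1)) • ones n) (by
    simp only [PiLp.sub_apply, PiLp.smul_apply, smul_eq_mul]
    rw [Finset.sum_sub_distrib, ← Finset.mul_sum, sum_ones]
    field_simp
    ring)
  have h1 : y = ι z + ((∑ i, y i) / ((n : ℝ) + 1)) • ones n := by rw [hz]; abel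
  have h2 : ad ι y = z := by
    conv_lhs => rw [h1]
    rw [map_add, map_smul, ad_iota, ad_ones ι hι, smul_zero, add_zero]
  rw [h2]
  exact h1.symm

theorem one_sign {m : ℕ} : ∀ i : Fin m, (fun _ => (1 : ℝ)) i = 1 ∨ (fun _ => (1 : ℝ)) i = -1 :=
  fun _ => Or.inl rfl

/-- permutation of the coordinates -/
noncomputable def pm (σ : Equiv.Perm (Fin (n + 1))) : E (n + 1) ≃ₗᵢ[ℝ] E (n + 1) :=
  sp σ (fun _ => 1) one_sign

theorem pm_apply (σ : Equiv.Perm (Fin (n + 1))) (y : E (n + 1)) (i : Fin (n + 1)) :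
    pm σ y i = y (σ i) := by
  unfold pm; rw [sp_apply, one_mul]

theorem iota_ad_pm (ι : E n →ₗᵢ[ℝ] E (n + 1)) (hι : ∀ x, ∑ i, ι x i = 0)
    (σ : Equiv.Perm (Fin (n + 1))) (x : E n) : ι (ad ι (pm σ (ι x))) = pm σ (ι x) := by
  have h := decomp ι hι (pm σ (ι x))
  have h2 : ∑ i, pm σ (ι x) i = 0 := by
    simp only [pm_apply]
    rw [Equiv.sum_comp σ (fun i => ι x i), hι]
  rw [h2, zero_div, zero_smul, add_zero] at h
  exact h

/-- the isometry of `E n` which belongs to `σ` -/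
noncomputable def gg (ι : E n →ₗᵢ[ℝ] E (n + 1)) (hι : ∀ x, ∑ i, ι x i = 0)
    (σ : Equiv.Perm (Fin (n + 1))) : E n ≃ₗᵢ[ℝ] E n :=
  LinearIsometry.toLinearIsometryEquiv
    ⟨(ad ι).toLinearMap ∘ₗ (pm σ).toLinearEquiv.toLinearMap ∘ₗ ι.toLinearMap, fun x => by
      have h : ‖ι (ad ι (pm σ (ι x)))‖ = ‖x‖ := by
        rw [iota_ad_pm ι hι, LinearIsometryEquiv.norm_map, ι.norm_map]
      rw [ι.norm_map] at h
      exact h⟩ rfl

theorem gg_spec (ι : E n →ₗᵢ[ℝ] E (n + 1)) (hι : ∀ x, ∑ i, ι x i = 0)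
    (σ : Equiv.Perm (Fin (n + 1))) (x : E n) (i : Fin (n + 1)) :
    ι (gg ι hι σ x) i = ι x (σ i) := by
  have h : gg ι hι σ x = ad ι (pm σ (ι x)) := rfl
  rw [h, iota_ad_pm ι hι, pm_apply]

/-- the group -/
abbrev GP (ι : E n →ₗᵢ[ℝ] E (n + 1)) : Set (E n ≃ₗᵢ[ℝ] E n) :=
  {g : E n ≃ₗᵢ[ℝ] E n | ∃ σ : Equiv.Perm (Fin (n + 1)), ∀ x i, ι (g x) i = ι x (σ i)}

theorem gg_mem (ι : E n →ₗᵢ[ℝ] E (n + 1)) (hι : ∀ x, ∑ i, ι x i = 0)
    (σ : Equiv.Perm (Fin (n + 1))) : gg ι hι σ ∈ GP ι := ⟨σ, gg_spec ι hι σ⟩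

theorem mean (ι : E n →ₗᵢ[ℝ] E (n + 1)) (hι : ∀ x, ∑ i, ι x i = 0) (v : E n)
    (h : ∀ g ∈ GP ι, g v = v) : v = 0 := by
  have h1 : ∀ i, ι v i = ι v 0 := by
    intro i
    have h2 := h _ (gg_mem ι hι (Equiv.swap i 0))
    have h3 := gg_spec ι hι (Equiv.swap i 0) v i
    rw [h2, Equiv.swap_apply_left] at h3
    exact h3
  have h2 := hι v
  rw [Finset.sum_congr rfl fun i _ => h1 i, Finset.sum_const, Finset.card_univ,
    Fintype.card_fin, nsmul_eq_mul] at h2
  have h3 : ι v 0 = 0 := by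
    rcases mul_eq_zero.1 h2 with h | h
    · exfalso
      have : (0 : ℝ) < ((n + 1 : ℕ) : ℝ) := by positivity
      linarith
    · exact h
  apply ι.injective
  ext i
  rw [h1 i, h3, map_zero]
  rfl

/-- projection of the basis vector -/
noncomputable def uu (ι : E n →ₗᵢ[ℝ] E (n + 1)) (i : Fin (n + 1)) : E n :=
  ad ι (EuclideanSpace.single i 1)

theorem iota_uu (ι : E n →ₗᵢ[ℝ] E (n + 1)) (hι : ∀ x, ∑ i, ι x i = 0) (i k : Fin (n + 1)) :
    ι (uu ι i) k = (if k = i then 1 else 0) - 1 / ((n : ℝ) + 1) := by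
  have h := decomp ι hι (EuclideanSpace.single i 1)
  have h2 : ∑ j, (EuclideanSpace.single i (1 : ℝ) : E (n + 1)) j = 1 := by
    simp
  rw [h2] at h
  have h3 := congrArg (fun y : E (n + 1) => y k) h
  simp only [PiLp.add_apply, PiLp.smul_apply, smul_eq_mul] at h3
  have h4 : ones n k = 1 := rfl
  rw [h4] at h3
  unfold uu
  have h5 : (EuclideanSpace.single i (1 : ℝ) : E (n + 1)) k = if k = i then 1 else 0 := by
    simp
  rw [h5] at h3
  linarith

theorem gg_uu (ι : E n →ₗᵢ[ℝ] E (n + 1)) (hι : ∀ x, ∑ i, ι x i = 0)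
    (σ : Equiv.Perm (Fin (n + 1))) (i : Fin (n + 1)) : gg ι hι σ (uu ι i) = uu ι (σ.symm i) := by
  apply ι.injective
  ext k
  rw [gg_spec, iota_uu ι hι, iota_uu ι hι]
  congr 1
  by_cases h : σ k = i
  · rw [if_pos h, if_pos (by rw [← h]; simp)]
  · rw [if_neg h, if_neg (by intro h0; apply h; rw [h0]; simp)]

theorem scal (ι : E n →ₗᵢ[ℝ] E (n + 1)) (hι : ∀ x, ∑ i, ι x i = 0) (A : E n →ₗ[ℝ] E n)
    (h : ∀ g ∈ GP ι, ∀ x, g (A x) = A (g x)) : ∃ c : ℝ, ∀ x, A x = c • x := by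
  rcases n with _ | n
  · exact ⟨0, fun x => Subsingleton.elim _ _⟩
  set y := ι (A (uu ι 0)) with hy
  set b := y 1 with hb
  have h1 : ∀ j : Fin (n + 2), j ≠ 0 → y j = b := by
    intro j hj
    have h2 := h _ (gg_mem ι hι (Equiv.swap j 1)) (uu ι 0)
    have h10 : (1 : Fin (n + 2)) ≠ 0 := by simp
    rw [gg_uu ι hι, Equiv.symm_swap, Equiv.swap_apply_of_ne_of_ne hj.symm h10.symm] at h2
    have h3 := gg_spec ι hι (Equiv.swap j 1) (A (uu ι 0)) j
    rw [h2, Equiv.swap_apply_left] at h3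
    exact h3
  have h0 : y 0 = -((n : ℝ) + 1) * b := by
    have h2 : ∑ i, y i = 0 := hι _
    rw [Fin.sum_univ_succ] at h2
    rw [Finset.sum_congr rfl fun i _ => h1 (Fin.succ i) (Fin.succ_ne_zero i), Finset.sum_const,
      Finset.card_univ, Fintype.card_fin, nsmul_eq_mul] at h2
    push_cast at h2
    linarith
  set c : ℝ := -((n : ℝ) + 2) * b with hc
  have hA0 : A (uu ι 0) = c • uu ι 0 := by
    apply ι.injective
    rw [map_smul]
    ext k
    have hn : (n : ℝ) + 1 + 1 ≠ 0 := by positivity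
    rw [PiLp.smul_apply, iota_uu ι hι, smul_eq_mul]
    push_cast
    by_cases hk : k = 0
    · subst hk
      rw [if_pos rfl, ← hy, h0, hc]
      field_simp
      ring
    · rw [if_neg hk, ← hy, h1 k hk, hc]
      field_simp
      ring
  have hA : ∀ i, A (uu ι i) = c • uu ι i := by
    intro i
    have h2 : gg ι hι (Equiv.swap 0 i) (uu ι 0) = uu ι i := by
      rw [gg_uu ι hι, Equiv.symm_swap, Equiv.swap_apply_left]
    rw [← h2, ← h _ (gg_mem ι hι _), hA0, map_smul]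
  refine ⟨c, fun x => ?_⟩
  have hx : x = ∑ i, ι x i • uu ι i := by
    have e : ι x = ∑ i, ι x i • EuclideanSpace.single i (1 : ℝ) := by
      ext l
      simp [Pi.single_apply]
    calc x = ad ι (ι x) := (ad_iota ι x).symm
      _ = ad ι (∑ i, ι x i • EuclideanSpace.single i (1 : ℝ)) := by rw [← e]
      _ = ∑ i, ι x i • uu ι i := by
          rw [map_sum]
          apply Finset.sum_congr rfl
          intro i _
          rw [map_smul]; rfl
  conv_lhs => rw [hx]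
  rw [map_sum]
  conv_rhs => rw [hx]
  rw [Finset.smul_sum]
  apply Finset.sum_congr rfl
  intro i _
  rw [map_smul, hA i, smul_comm]

/-! ### second moments of invariant measures -/

theorem preserving {m : ℕ} {G : Set (E m ≃ₗᵢ[ℝ] E m)} {w : E m → ℝ} (hw : LCG G w)
    {μ : Measure (E m)} (hμ : μ = volume.withDensity fun x => ENNReal.ofReal (w x))
    {g : E m ≃ₗᵢ[ℝ] E m} (hg : g ∈ G) : MeasurePreserving g μ μ := by
  have hgm : MeasurePreserving g volume volume := g.measurePreserving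
  refine ⟨hgm.measurable, Measure.ext fun s hs => ?_⟩
  rw [Measure.map_apply hgm.measurable hs, hμ, withDensity_apply _ (hgm.measurable hs),
    withDensity_apply _ hs, ← hgm.setLIntegral_comp_preimage hs hw.meas.ennreal_ofReal]
  apply lintegral_congr
  intro x
  rw [hw.inv g hg]

theorem int_of_cont' {m : ℕ} {V : Type} [NormedAddCommGroup V] {μ : Measure (E m)}
    [IsFiniteMeasure μ] {R : ℝ} (hR : ∀ᵐ x ∂μ, ‖x‖ ≤ R) {F : E m → V} (hF : Continuous F) :
    Integrable F μ := by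
  obtain ⟨C, hC⟩ := (isCompact_closedBall (0 : E m) R).exists_bound_of_continuousOn
    hF.continuousOn
  refine Integrable.of_bound hF.aestronglyMeasurable C ?_
  filter_upwards [hR] with x hx
  exact hC x (mem_closedBall_zero_iff.2 hx)

theorem second {m : ℕ} (hm : 1 ≤ m) {G : Set (E m ≃ₗᵢ[ℝ] E m)}
    (hG : ∀ A : E m →ₗ[ℝ] E m, A.IsSymmetric → (∀ g ∈ G, ∀ x, g (A x) = A (g x)) →
      ∃ c : ℝ, ∀ x, A x = c • x) {w : E m → ℝ} (hw : LCG G w)
    {μ : Measure (E m)} (hμ : μ = volume.withDensity fun x => ENNReal.ofReal (w x))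
    [IsProbabilityMeasure μ] {R : ℝ} (hR : ∀ᵐ x ∂μ, ‖x‖ ≤ R) (v : E m) :
    ∫ x, ⟪v, x⟫_ℝ ^ 2 ∂μ = (∫ x, ‖x‖ ^ 2 ∂μ) / m * ‖v‖ ^ 2 := by
  have hint : ∀ v : E m, Integrable (fun x : E m => ⟪v, x⟫_ℝ • x) μ := fun v =>
    int_of_cont' hR (by fun_prop)
  let A : E m →ₗ[ℝ] E m :=
    { toFun := fun v => ∫ x, ⟪v, x⟫_ℝ • x ∂μ
      map_add' := fun v v' => by
        rw [← integral_add (hint v) (hint v')]
        apply integral_congr_ae
        refine ae_of_all _ fun x => ?_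
        simp only
        rw [inner_add_left, add_smul]
      map_smul' := fun c v => by
        rw [RingHom.id_apply, ← integral_smul]
        apply integral_congr_ae
        refine ae_of_all _ fun x => ?_
        simp only
        rw [real_inner_smul_left, mul_smul] }
  have hA : ∀ v, A v = ∫ x, ⟪v, x⟫_ℝ • x ∂μ := fun v => rfl
  have hAin : ∀ v v' : E m, ⟪v', A v⟫_ℝ = ∫ x, ⟪v, x⟫_ℝ * ⟪v', x⟫_ℝ ∂μ := by
    intro v v'
    rw [hA, ← integral_inner (hint v)]
    apply integral_congr_ae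
    refine ae_of_all _ fun x => ?_
    simp only
    rw [real_inner_smul_right]
  have hsym : A.IsSymmetric := by
    intro v v'
    rw [real_inner_comm, hAin, hAin]
    apply integral_congr_ae
    refine ae_of_all _ fun x => ?_
    simp only
    ring
  have hcomm : ∀ g ∈ G, ∀ x, g (A x) = A (g x) := by
    intro g hg v
    have hp := preserving hw hμ hg
    have e1 : g (A v) = ∫ x, g (⟪v, x⟫_ℝ • x) ∂μ := by
      rw [hA]
      exact (g.toContinuousLinearEquiv.integral_comp_comm (fun x : E m => ⟪v, x⟫_ℝ • x)).symm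
    have e2 : ∫ x, ⟪g v, x⟫_ℝ • x ∂μ = ∫ x, ⟪g v, g x⟫_ℝ • g x ∂μ :=
      (hp.integral_comp g.toHomeomorph.measurableEmbedding
        (fun x : E m => ⟪g v, x⟫_ℝ • x)).symm
    rw [e1, hA, e2]
    apply integral_congr_ae
    refine ae_of_all _ fun x => ?_
    simp only
    rw [map_smul, g.inner_map_map]
  obtain ⟨c, hc⟩ := hG A hsym hcomm
  have h1 : ∀ v : E m, ∫ x, ⟪v, x⟫_ℝ ^ 2 ∂μ = c * ‖v‖ ^ 2 := by
    intro v
    have h2 := hAin v v
    rw [hc, real_inner_smul_right, real_inner_self_eq_norm_sq] at h2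
    rw [h2]
    apply integral_congr_ae
    refine ae_of_all _ fun x => ?_
    simp only
    ring
  have h2 : ∫ x, ‖x‖ ^ 2 ∂μ = m * c := by
    have h3 : ∀ i : Fin m, ∫ x, (x i) ^ 2 ∂μ = c := by
      intro i
      have h4 := h1 (EuclideanSpace.single i 1)
      rw [PiLp.norm_single, norm_one, one_pow, mul_one] at h4
      rw [← h4]
      apply integral_congr_ae
      refine ae_of_all _ fun x => ?_
      simp only
      rw [EuclideanSpace.inner_single_left]
      simp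
    have h5 : ∫ x : E m, ‖x‖ ^ 2 ∂μ = ∫ x : E m, ∑ i, (x i) ^ 2 ∂μ := by
      apply integral_congr_ae
      refine ae_of_all _ fun x => ?_
      simp only
      rw [EuclideanSpace.norm_sq_eq]
      simp
    rw [h5, integral_finsetSum _ fun i _ => int_of_cont' hR (by fun_prop),
      Finset.sum_congr rfl fun i _ => h3 i, Finset.sum_const, Finset.card_univ, Fintype.card_fin,
      nsmul_eq_mul]
  have hmR : (0 : ℝ) < m := by exact_mod_cast hm
  rw [h1 v, h2]
  field_simp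

/-! ### the product with an interval -/

/-- the coordinates `(x, t) ↦ ι x + t (1, …, 1)` -/
noncomputable def Phi (ι : E n →ₗᵢ[ℝ] E (n + 1)) (hι : ∀ x, ∑ i, ι x i = 0) :
    (E n × ℝ) ≃L[ℝ] E (n + 1) :=
  LinearEquiv.toContinuousLinearEquiv
    { toFun := fun p => ι p.1 + p.2 • ones n
      map_add' := fun p q => by
        simp only [Prod.fst_add, Prod.snd_add, map_add, add_smul]; abel
      map_smul' := fun c p => by
        simp only [Prod.smul_fst, Prod.smul_snd, map_smul, RingHom.id_apply, smul_add, smul_smul,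
          smul_eq_mul]
      invFun := fun y => (ad ι y, (∑ i, y i) / ((n : ℝ) + 1))
      left_inv := fun p => by
        have hn : (n : ℝ) + 1 ≠ 0 := by positivity
        ext1
        · simp only [map_add, map_smul, ad_iota, ad_ones ι hι, smul_zero, add_zero]
        · simp only [PiLp.add_apply, PiLp.smul_apply, smul_eq_mul]
          rw [Finset.sum_add_distrib, hι, ← Finset.mul_sum, sum_ones]
          field_simp
          ring
      right_inv := fun y => decomp ι hι y }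

theorem Phi_apply (ι : E n →ₗᵢ[ℝ] E (n + 1)) (hι : ∀ x, ∑ i, ι x i = 0) (p : E n × ℝ) :
    Phi ι hι p = ι p.1 + p.2 • ones n := rfl

theorem change (ι : E n →ₗᵢ[ℝ] E (n + 1)) (hι : ∀ x, ∑ i, ι x i = 0) :
    ∃ c : ℝ≥0∞, c ≠ 0 ∧ c ≠ ⊤ ∧ ∀ F : E (n + 1) → ℝ≥0∞, Measurable F →
      ∫⁻ y, F y = c * ∫⁻ x : E n, ∫⁻ t : ℝ, F (ι x + t • ones n) := by
  set ν : Measure (E (n + 1)) := Measure.map (Phi ι hι)
    ((volume : Measure (E n)).prod (volume : Measure ℝ)) with hν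
  have hH : ν.IsAddHaarMeasure := ContinuousLinearEquiv.isAddHaarMeasure_map (Phi ι hι) _
  have hcν := Measure.isAddLeftInvariant_eq_smul (volume : Measure (E (n + 1))) ν
  have hpos := Measure.addHaarScalarFactor_pos_of_isAddHaarMeasure
    (volume : Measure (E (n + 1))) ν
  refine ⟨(Measure.addHaarScalarFactor (volume : Measure (E (n + 1))) ν : ℝ≥0∞),
    by simpa using hpos.ne', by simp, fun F hF => ?_⟩
  have hΦ : Measurable (Phi ι hι) := (Phi ι hι).continuous.measurable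
  conv_lhs => rw [hcν]
  rw [lintegral_smul_measure, ENNReal.smul_def, smul_eq_mul]
  congr 1
  rw [hν, lintegral_map hF hΦ]
  exact lintegral_prod _ (hF.comp hΦ).aemeasurable

/-! ### the measure on `ℝ^{n+1}` -/

/-- the density -/
noncomputable def rho (ι : E n →ₗᵢ[ℝ] E (n + 1)) (w : E n → ℝ) (κ a : ℝ) (y : E (n + 1)) : ℝ :=
  κ * (w (ad ι y) * if |(∑ i, y i) / ((n : ℝ) + 1)| ≤ a then 1 else 0)

theorem rho_exch (ι : E n →ₗᵢ[ℝ] E (n + 1)) (hι : ∀ x, ∑ i, ι x i = 0) {w : E n → ℝ}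
    (hw : LCG (GP ι) w) {κ : ℝ} (hκ : 0 < κ) (a : ℝ) :
    Pool.Agent.Results.MP_6d896a_gt.Exchangeable.ExchDensity (rho ι w κ a) where
  nonneg y := by
    unfold rho
    have h1 := hw.nn (ad ι y)
    split_ifs <;> positivity
  meas := by
    unfold rho
    have hm : Measurable fun y : E (n + 1) => |(∑ i, y i) / ((n : ℝ) + 1)| := by fun_prop
    exact (((hw.meas.comp (ad ι).continuous.measurable).mul
      (Measurable.ite (hm measurableSet_Iic) measurable_const measurable_const)).const_mul κ)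
  logc x y t ht0 ht1 := by
    unfold rho
    have hn : (0 : ℝ) < (n : ℝ) + 1 := by positivity
    have hz : (∑ i, ((1 - t) • x + t • y) i) / ((n : ℝ) + 1) =
        (1 - t) * ((∑ i, x i) / ((n : ℝ) + 1)) + t * ((∑ i, y i) / ((n : ℝ) + 1)) := by
      simp only [PiLp.add_apply, PiLp.smul_apply, smul_eq_mul]
      rw [Finset.sum_add_distrib, ← Finset.mul_sum, ← Finset.mul_sum]
      field_simp
    rw [hz, map_add, map_smul, map_smul]
    have hnn : 0 ≤ κ * (w ((1 - t) • ad ι x + t • ad ι y) *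
        if |(1 - t) * ((∑ i, x i) / ((n : ℝ) + 1)) + t * ((∑ i, y i) / ((n : ℝ) + 1))| ≤ a
        then 1 else 0) := by
      have h1 := hw.nn ((1 - t) • ad ι x + t • ad ι y)
      split_ifs <;> positivity
    by_cases hx : |(∑ i, x i) / ((n : ℝ) + 1)| ≤ a
    · by_cases hy : |(∑ i, y i) / ((n : ℝ) + 1)| ≤ a
      · have hxy : |(1 - t) * ((∑ i, x i) / ((n : ℝ) + 1)) +
            t * ((∑ i, y i) / ((n : ℝ) + 1))| ≤ a := by
          rw [abs_le] at hx hy ⊢
          constructor <;> nlinarith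
        rw [if_pos hx, if_pos hy, if_pos hxy, mul_one, mul_one, mul_one,
          Real.mul_rpow hκ.le (hw.nn _), Real.mul_rpow hκ.le (hw.nn _)]
        have h2 := hw.logc (ad ι x) (ad ι y) t ht0 ht1
        have h3 : κ ^ (1 - t) * κ ^ t = κ := by
          rw [← Real.rpow_add hκ]; simp
        calc κ ^ (1 - t) * w (ad ι x) ^ (1 - t) * (κ ^ t * w (ad ι y) ^ t)
            = (κ ^ (1 - t) * κ ^ t) * (w (ad ι x) ^ (1 - t) * w (ad ι y) ^ t) := by ring
          _ ≤ κ * w ((1 - t) • ad ι x + t • ad ι y) := by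
              rw [h3]
              exact mul_le_mul_of_nonneg_left h2 hκ.le
      · rw [if_neg hy]
        simp only [mul_zero]
        rw [Real.zero_rpow ht0.ne', mul_zero]
        exact hnn
    · rw [if_neg hx]
      simp only [mul_zero]
      rw [Real.zero_rpow (by linarith), zero_mul]
      exact hnn
  inv σ x y h := by
    have hy : y = pm σ x := by
      ext i
      rw [pm_apply, h i]
    have hs : ∑ i, y i = ∑ i, x i := by
      rw [hy]
      simp only [pm_apply]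
      exact Equiv.sum_comp σ (fun i => x i)
    have ho : pm σ (ones n) = ones n := by
      ext i
      rw [pm_apply]
      rfl
    have ha : ad ι y = gg ι hι σ (ad ι x) := by
      have h1 : gg ι hι σ (ad ι x) = ad ι (pm σ (ι (ad ι x))) := rfl
      rw [h1, hy]
      conv_lhs => rw [← decomp ι hι x]
      rw [map_add, map_smul, ho, map_add, map_smul, ad_ones ι hι, smul_zero, add_zero]
    unfold rho
    rw [hs, ha, hw.inv _ (gg_mem ι hι σ)]

theorem sum_line (ι : E n →ₗᵢ[ℝ] E (n + 1)) (hι : ∀ x, ∑ i, ι x i = 0) (x : E n) (t : ℝ) :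
    (∑ i, (ι x + t • ones n) i) / ((n : ℝ) + 1) = t := by
  have hn : (n : ℝ) + 1 ≠ 0 := by positivity
  simp only [PiLp.add_apply, PiLp.smul_apply, smul_eq_mul]
  rw [Finset.sum_add_distrib, hι, ← Finset.mul_sum, sum_ones]
  field_simp
  ring

theorem ad_line (ι : E n →ₗᵢ[ℝ] E (n + 1)) (hι : ∀ x, ∑ i, ι x i = 0) (x : E n) (t : ℝ) :
    ad ι (ι x + t • ones n) = x := by
  rw [map_add, map_smul, ad_iota, ad_ones ι hι, smul_zero, add_zero]

theorem rho_line (ι : E n →ₗᵢ[ℝ] E (n + 1)) (hι : ∀ x, ∑ i, ι x i = 0) {w : E n → ℝ}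
    (κ a : ℝ) (x : E n) (t : ℝ) :
    rho ι w κ a (ι x + t • ones n) = κ * (w x * if |t| ≤ a then 1 else 0) := by
  unfold rho
  rw [sum_line ι hι, ad_line ι hι]

theorem inner_int (ι : E n →ₗᵢ[ℝ] E (n + 1)) (hι : ∀ x, ∑ i, ι x i = 0) {w : E n → ℝ}
    {κ a : ℝ} (hκ : 0 < κ) (x : E n) :
    ∫⁻ t : ℝ, ENNReal.ofReal (rho ι w κ a (ι x + t • ones n)) =
      ENNReal.ofReal κ * ENNReal.ofReal (2 * a) * ENNReal.ofReal (w x) := by
  have h1 : ∀ t : ℝ, ENNReal.ofReal (rho ι w κ a (ι x + t • ones n)) =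
      (ENNReal.ofReal κ * ENNReal.ofReal (w x)) * (Icc (-a) a).indicator 1 t := by
    intro t
    rw [rho_line ι hι]
    by_cases h : |t| ≤ a
    · have hm : t ∈ Icc (-a) a := abs_le.1 h
      rw [if_pos h, indicator_of_mem hm, mul_one, ENNReal.ofReal_mul hκ.le,
        Pi.one_apply, mul_one]
    · have hm : t ∉ Icc (-a) a := fun h0 => h (abs_le.2 h0)
      rw [if_neg h, indicator_of_notMem hm]
      simp
  rw [lintegral_congr h1, lintegral_const_mul _ (measurable_one.indicator measurableSet_Icc),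
    lintegral_indicator_one measurableSet_Icc, Real.volume_Icc]
  have h2 : a - -a = 2 * a := by ring
  rw [h2]
  ring

theorem nu_eq (ι : E n →ₗᵢ[ℝ] E (n + 1)) (hι : ∀ x, ∑ i, ι x i = 0) {w : E n → ℝ}
    (hw : LCG (GP ι) w) {μ : Measure (E n)}
    (hμ : μ = volume.withDensity fun x => ENNReal.ofReal (w x)) {c : ℝ≥0∞} {κ a : ℝ}
    (hκ : 0 < κ) (hc : c * (ENNReal.ofReal κ * ENNReal.ofReal (2 * a)) = 1)
    (H : E n → ℝ≥0∞) (hH : Measurable H) :
    c * ∫⁻ x : E n, ∫⁻ t : ℝ, ENNReal.ofReal (rho ι w κ a (ι x + t • ones n)) * H x =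
      ∫⁻ x, H x ∂μ := by
  have hρ := (rho_exch ι hι hw hκ a).meas
  have h1 : ∀ x : E n, ∫⁻ t : ℝ, ENNReal.ofReal (rho ι w κ a (ι x + t • ones n)) * H x =
      ENNReal.ofReal κ * ENNReal.ofReal (2 * a) * (ENNReal.ofReal (w x) * H x) := by
    intro x
    have hm : Measurable fun t : ℝ => ENNReal.ofReal (rho ι w κ a (ι x + t • ones n)) := by
      have : Measurable fun t : ℝ => ι x + t • ones n := by fun_prop
      exact (hρ.comp this).ennreal_ofReal
    rw [lintegral_mul_const _ hm, inner_int ι hι hκ, mul_assoc]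
  have hm : Measurable fun x => ENNReal.ofReal (w x) * H x := hw.meas.ennreal_ofReal.mul hH
  rw [lintegral_congr h1, lintegral_const_mul _ hm, ← mul_assoc,
    hc, one_mul, hμ, lintegral_withDensity_eq_lintegral_mul _ hw.meas.ennreal_ofReal hH]
  rfl

theorem nu_le (ι : E n →ₗᵢ[ℝ] E (n + 1)) (hι : ∀ x, ∑ i, ι x i = 0) {w : E n → ℝ}
    (hw : LCG (GP ι) w) {μ : Measure (E n)}
    (hμ : μ = volume.withDensity fun x => ENNReal.ofReal (w x)) {c : ℝ≥0∞} {κ a : ℝ}
    (hκ : 0 < κ) (hc : c * (ENNReal.ofReal κ * ENNReal.ofReal (2 * a)) = 1)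
    (hcc : ∀ F : E (n + 1) → ℝ≥0∞, Measurable F →
      ∫⁻ y, F y = c * ∫⁻ x : E n, ∫⁻ t : ℝ, F (ι x + t • ones n))
    (F : E (n + 1) → ℝ≥0∞) (hF : Measurable F)
    (H : E n → ℝ≥0∞) (hH : Measurable H) (h : ∀ x t, |t| ≤ a → F (ι x + t • ones n) ≤ H x) :
    ∫⁻ y, F y ∂((volume : Measure (E (n + 1))).withDensity
      fun x => ENNReal.ofReal (rho ι w κ a x)) ≤ ∫⁻ x, H x ∂μ := by
  have hρ := (rho_exch ι hι hw hκ a).meas
  rw [← nu_eq ι hι hw hμ hκ hc H hH,
    lintegral_withDensity_eq_lintegral_mul _ hρ.ennreal_ofReal hF,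
    hcc _ (hρ.ennreal_ofReal.mul hF)]
  gcongr with x t
  simp only [Pi.mul_apply]
  by_cases ht : |t| ≤ a
  · gcongr
    exact h x t ht
  · rw [rho_line ι hι, if_neg ht]
    simp

theorem nu_map (ι : E n →ₗᵢ[ℝ] E (n + 1)) (hι : ∀ x, ∑ i, ι x i = 0) {w : E n → ℝ}
    (hw : LCG (GP ι) w) {μ : Measure (E n)}
    (hμ : μ = volume.withDensity fun x => ENNReal.ofReal (w x)) {c : ℝ≥0∞} {κ a : ℝ}
    (hκ : 0 < κ) (hc : c * (ENNReal.ofReal κ * ENNReal.ofReal (2 * a)) = 1)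
    (hcc : ∀ F : E (n + 1) → ℝ≥0∞, Measurable F →
      ∫⁻ y, F y = c * ∫⁻ x : E n, ∫⁻ t : ℝ, F (ι x + t • ones n)) :
    ((volume : Measure (E (n + 1))).withDensity
      fun x => ENNReal.ofReal (rho ι w κ a x)).map (ad ι) = μ := by
  have hρ := (rho_exch ι hι hw hκ a).meas
  have hadm : Measurable (ad ι) := (ad ι).continuous.measurable
  ext s hs
  have hm : Measurable (s.indicator (1 : E n → ℝ≥0∞)) := measurable_one.indicator hs
  rw [Measure.map_apply hadm hs, ← lintegral_indicator_one (hadm hs),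
    ← lintegral_indicator_one hs, ← nu_eq ι hι hw hμ hκ hc _ hm,
    lintegral_withDensity_eq_lintegral_mul _ hρ.ennreal_ofReal
      (measurable_one.indicator (hadm hs)),
    hcc _ (hρ.ennreal_ofReal.mul (measurable_one.indicator (hadm hs)))]
  congr 1
  apply lintegral_congr
  intro x
  apply lintegral_congr
  intro t
  simp only [Pi.mul_apply]
  congr 1
  by_cases hx : x ∈ s
  · have h2 : ι x + t • ones n ∈ (ad ι) ⁻¹' s := by
      rw [mem_preimage, ad_line ι hι]; exact hx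
    rw [indicator_of_mem hx, indicator_of_mem h2]
    rfl
  · have h2 : ι x + t • ones n ∉ (ad ι) ⁻¹' s := by
      rw [mem_preimage, ad_line ι hι]; exact hx
    rw [indicator_of_notMem hx, indicator_of_notMem h2]

/-- the norms on the two sides of the decomposition -/
theorem norm_sq_decomp (ι : E n →ₗᵢ[ℝ] E (n + 1)) (hι : ∀ x, ∑ i, ι x i = 0) (y : E (n + 1)) :
    ‖y‖ ^ 2 = ‖ad ι y‖ ^ 2 + (∑ i, y i) ^ 2 / ((n : ℝ) + 1) := by
  have hn : (n : ℝ) + 1 ≠ 0 := by positivity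
  have h0 : ‖ones n‖ ^ 2 = (n : ℝ) + 1 := by
    rw [← real_inner_self_eq_norm_sq, inner_ones, sum_ones]
  have h1 : ⟪ι (ad ι y), ((∑ i, y i) / ((n : ℝ) + 1)) • ones n⟫_ℝ = 0 := by
    rw [real_inner_smul_right, real_inner_comm, inner_ones, hι, mul_zero]
  conv_lhs => rw [← decomp ι hι y]
  rw [norm_add_sq_real, h1, ι.norm_map, norm_smul, mul_pow, h0, Real.norm_eq_abs, sq_abs]
  field_simp
  ring

theorem inner_line (ι : E n →ₗᵢ[ℝ] E (n + 1)) (θ : E (n + 1)) (x : E n) (t : ℝ) :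
    ⟪θ, ι x + t • ones n⟫_ℝ = ⟪ad ι θ, x⟫_ℝ + t * ∑ i, θ i := by
  rw [inner_add_right, real_inner_smul_right, ad_inner, real_inner_comm (ones n) θ, inner_ones]

theorem norm_ad_le (ι : E n →ₗᵢ[ℝ] E (n + 1)) : ‖ad ι‖ ≤ 1 := by
  unfold ad
  rw [LinearIsometryEquiv.norm_map]
  exact ι.norm_toContinuousLinearMap_le

theorem nu_prob (ι : E n →ₗᵢ[ℝ] E (n + 1)) {μ : Measure (E n)} [IsProbabilityMeasure μ]
    {ν : Measure (E (n + 1))} (h : ν.map (ad ι) = μ) : IsProbabilityMeasure ν := by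
  constructor
  have hadm : Measurable (ad ι) := (ad ι).continuous.measurable
  have h1 : ν.map (ad ι) univ = 1 := by rw [h, measure_univ]
  rw [Measure.map_apply hadm MeasurableSet.univ, preimage_univ] at h1
  exact h1

theorem nu_bdd {μ : Measure (E n)} {ν : Measure (E (n + 1))} {a R : ℝ}
    (ι : E n →ₗᵢ[ℝ] E (n + 1))
    (hle : ∀ F : E (n + 1) → ℝ≥0∞, Measurable F → ∀ H : E n → ℝ≥0∞, Measurable H →
      (∀ x t, |t| ≤ a → F (ι x + t • ones n) ≤ H x) → ∫⁻ y, F y ∂ν ≤ ∫⁻ x, H x ∂μ)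
    (hR : ∀ᵐ x ∂μ, ‖x‖ ≤ R) : ∀ᵐ y ∂ν, ‖y‖ ≤ R + a * ‖ones n‖ := by
  have hs1 : MeasurableSet {y : E (n + 1) | ‖y‖ ≤ R + a * ‖ones n‖}ᶜ :=
    (measurableSet_le measurable_norm measurable_const).compl
  have hs2 : MeasurableSet {x : E n | ‖x‖ ≤ R}ᶜ :=
    (measurableSet_le measurable_norm measurable_const).compl
  have h := hle _ (measurable_one.indicator hs1) _ (measurable_one.indicator hs2) (by
    intro x t ht
    by_cases hx : ‖x‖ ≤ R
    · have h2 : ι x + t • ones n ∉ {y : E (n + 1) | ‖y‖ ≤ R + a * ‖ones n‖}ᶜ := by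
        rw [mem_compl_iff, not_not, mem_ofPred_eq]
        refine (norm_add_le _ _).trans ?_
        rw [ι.norm_map, norm_smul, Real.norm_eq_abs]
        exact add_le_add hx (mul_le_mul_of_nonneg_right ht (norm_nonneg _))
      rw [indicator_of_notMem h2]
      exact zero_le
    · have h2 : x ∈ {x : E n | ‖x‖ ≤ R}ᶜ := hx
      rw [indicator_of_mem h2]
      refine (indicator_le_self' (fun _ _ => zero_le) _).trans ?_
      exact le_rfl)
  rw [lintegral_indicator_one hs1, lintegral_indicator_one hs2] at h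
  have h3 : μ {x : E n | ‖x‖ ≤ R}ᶜ = 0 := hR
  rw [h3] at h
  exact le_antisymm h zero_le

theorem nu_cov {μ : Measure (E n)} [IsProbabilityMeasure μ] {ν : Measure (E (n + 1))}
    [IsProbabilityMeasure ν] {a R R' S : ℝ}
    (haS : a ^ 2 * ((n : ℝ) + 1) ≤ S)
    (ι : E n →ₗᵢ[ℝ] E (n + 1)) (hι : ∀ x, ∑ i, ι x i = 0)
    (hle : ∀ F : E (n + 1) → ℝ≥0∞, Measurable F → ∀ H : E n → ℝ≥0∞, Measurable H →
      (∀ x t, |t| ≤ a → F (ι x + t • ones n) ≤ H x) → ∫⁻ y, F y ∂ν ≤ ∫⁻ x, H x ∂μ)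
    (hR : ∀ᵐ x ∂μ, ‖x‖ ≤ R) (hR' : ∀ᵐ y ∂ν, ‖y‖ ≤ R')
    (hsec : ∀ v : E n, ∫ x, ⟪v, x⟫_ℝ ^ 2 ∂μ = S * ‖v‖ ^ 2) :
    Pool.Agent.Results.MP_6d896a_gt.Exchangeable.CovLe ν (2 * S) := by
  intro θ
  have hL : MemLp (fun y : E (n + 1) => ⟪θ, y⟫_ℝ) 2 ν := by
    refine MemLp.of_bound (by fun_prop) (‖θ‖ * R') ?_
    filter_upwards [hR'] with y hy
    exact (norm_inner_le_norm θ y).trans (mul_le_mul_of_nonneg_left hy (norm_nonneg _))
  rw [← ProbabilityTheory.ofReal_variance hL]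
  apply ENNReal.ofReal_le_ofReal
  have h1 : ProbabilityTheory.variance (fun y : E (n + 1) => ⟪θ, y⟫_ℝ) ν ≤
      ∫ y, ⟪θ, y⟫_ℝ ^ 2 ∂ν := by
    refine (ProbabilityTheory.variance_le_expectation_sq (by fun_prop)).trans ?_
    exact le_rfl
  refine h1.trans ?_
  have hn : (0 : ℝ) < (n : ℝ) + 1 := by positivity
  have hH : Continuous fun x : E n => 2 * ⟪ad ι θ, x⟫_ℝ ^ 2 + 2 * (a ^ 2 * (∑ i, θ i) ^ 2) := by
    fun_prop
  have h2 := hle (fun y => ENNReal.ofReal (⟪θ, y⟫_ℝ ^ 2)) (by fun_prop)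
    (fun x => ENNReal.ofReal (2 * ⟪ad ι θ, x⟫_ℝ ^ 2 + 2 * (a ^ 2 * (∑ i, θ i) ^ 2)))
    hH.measurable.ennreal_ofReal (by
      intro x t ht
      apply ENNReal.ofReal_le_ofReal
      rw [inner_line ι]
      have h3 : t ^ 2 ≤ a ^ 2 := by
        rw [← sq_abs]
        exact pow_le_pow_left₀ (abs_nonneg t) ht 2
      have h4 : t ^ 2 * (∑ i, θ i) ^ 2 ≤ a ^ 2 * (∑ i, θ i) ^ 2 :=
        mul_le_mul_of_nonneg_right h3 (sq_nonneg _)
      nlinarith [sq_nonneg (⟪ad ι θ, x⟫_ℝ - t * ∑ i, θ i)])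
  rw [← ofReal_integral_eq_lintegral_ofReal (int_of_cont hR' (by fun_prop))
      (ae_of_all _ fun x => by positivity),
    ← ofReal_integral_eq_lintegral_ofReal (int_of_cont hR hH)
      (ae_of_all _ fun x => by positivity)] at h2
  have h5 : 0 ≤ ∫ x, (2 * ⟪ad ι θ, x⟫_ℝ ^ 2 + 2 * (a ^ 2 * (∑ i, θ i) ^ 2)) ∂μ :=
    integral_nonneg fun _ => by positivity
  have h6 := (ENNReal.ofReal_le_ofReal_iff h5).1 h2
  refine h6.trans ?_
  rw [integral_add (int_of_cont hR (by fun_prop)) (integrable_const _), integral_const_mul,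
    hsec, integral_const, norm_sq_decomp ι hι θ]
  rw [probReal_univ, one_smul]
  have h7 : a ^ 2 * (∑ i, θ i) ^ 2 ≤ S * ((∑ i, θ i) ^ 2 / ((n : ℝ) + 1)) := by
    have h8 : a ^ 2 ≤ S / ((n : ℝ) + 1) := by
      rw [le_div_iff₀ hn]; exact haS
    calc a ^ 2 * (∑ i, θ i) ^ 2 ≤ S / ((n : ℝ) + 1) * (∑ i, θ i) ^ 2 :=
          mul_le_mul_of_nonneg_right h8 (sq_nonneg _)
      _ = S * ((∑ i, θ i) ^ 2 / ((n : ℝ) + 1)) := by ring
  linarith

theorem fderiv_le (ι : E n →ₗᵢ[ℝ] E (n + 1)) {f : E n → ℝ} (hf : ContDiff ℝ 1 f)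
    (y : E (n + 1)) : ‖fderiv ℝ (fun y => f (ad ι y)) y‖ ≤ ‖fderiv ℝ f (ad ι y)‖ := by
  have h1 : HasFDerivAt (fun y => f (ad ι y)) ((fderiv ℝ f (ad ι y)).comp (ad ι)) y :=
    ((hf.differentiable (by norm_num)) (ad ι y)).hasFDerivAt.comp y (ad ι).hasFDerivAt
  rw [h1.fderiv]
  refine (ContinuousLinearMap.opNorm_comp_le _ _).trans ?_
  exact mul_le_of_le_one_right (norm_nonneg _) (norm_ad_le ι)

end E3aux

open E1aux E3aux in
theorem perm_kg : ∃ c0 : ℝ, 0 < c0 ∧ ∀ (n : ℕ) (ι : E n →ₗᵢ[ℝ] E (n + 1)),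
    (∀ x, ∑ i, ι x i = 0) → KG c0 {g : E n ≃ₗᵢ[ℝ] E n |
      ∃ σ : Equiv.Perm (Fin (n + 1)), ∀ x i, ι (g x) i = ι x (σ i)} := by
  obtain ⟨C, hC, H⟩ := Pool.Agent.Results.MP_6d896a_gt.Exchangeable.result
  refine ⟨2 * C, by positivity, fun n ι hι => ⟨fun v hv => E3aux.mean ι hι v hv,
    fun A _ hA => E3aux.scal ι hι A hA, ?_⟩⟩
  intro w hw μ hμ hprob f hf hf1
  rcases Nat.eq_zero_or_pos n with rfl | hn
  · have hfc : f = fun _ => f 0 := funext fun x => congrArg f (Subsingleton.elim x 0)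
    have hv : ProbabilityTheory.variance f μ = 0 := by
      rw [hfc, ProbabilityTheory.variance_eq_integral (by fun_prop)]
      simp
    rw [hv]
    simp
  obtain ⟨R, hR⟩ := bdd hw.meas hw.supp
  rw [← hμ] at hR
  have hpos := norm_sq_pos hn μ hμ hR
  have hnR : (0 : ℝ) < n := by exact_mod_cast hn
  set S : ℝ := (∫ x, ‖x‖ ^ 2 ∂μ) / n with hS
  have hS0 : 0 < S := div_pos hpos hnR
  have hn1 : (0 : ℝ) < (n : ℝ) + 1 := by positivity
  set a : ℝ := Real.sqrt (S / ((n : ℝ) + 1)) with ha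
  have ha0 : 0 < a := Real.sqrt_pos.2 (div_pos hS0 hn1)
  have haS : a ^ 2 * ((n : ℝ) + 1) ≤ S := by
    rw [ha, Real.sq_sqrt (div_pos hS0 hn1).le]
    field_simp
    exact le_rfl
  obtain ⟨c, hc0, hc, hcc⟩ := change ι hι
  have hcr : 0 < c.toReal := ENNReal.toReal_pos hc0 hc
  set κ : ℝ := (c.toReal * (2 * a))⁻¹ with hκ
  have hκ0 : 0 < κ := by positivity
  have hcκ : c * (ENNReal.ofReal κ * ENNReal.ofReal (2 * a)) = 1 := by
    have e1 : c = ENNReal.ofReal c.toReal := (ENNReal.ofReal_toReal hc).symm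
    have e2 : c.toReal * (κ * (2 * a)) = 1 := by
      rw [hκ]
      field_simp
    calc c * (ENNReal.ofReal κ * ENNReal.ofReal (2 * a))
        = ENNReal.ofReal c.toReal * (ENNReal.ofReal κ * ENNReal.ofReal (2 * a)) := by rw [← e1]
      _ = 1 := by
          rw [← ENNReal.ofReal_mul hκ0.le, ← ENNReal.ofReal_mul hcr.le, e2, ENNReal.ofReal_one]
  set ν : Measure (E (n + 1)) := (volume : Measure (E (n + 1))).withDensity
    (fun x => ENNReal.ofReal (rho ι w κ a x)) with hν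
  have hmap : ν.map (ad ι) = μ := nu_map ι hι hw hμ hκ0 hcκ hcc
  have hνp : IsProbabilityMeasure ν := nu_prob ι hmap
  have hle : ∀ F : E (n + 1) → ℝ≥0∞, Measurable F → ∀ H : E n → ℝ≥0∞, Measurable H →
      (∀ x t, |t| ≤ a → F (ι x + t • ones n) ≤ H x) → ∫⁻ y, F y ∂ν ≤ ∫⁻ x, H x ∂μ :=
    nu_le ι hι hw hμ hκ0 hcκ hcc
  have hR' := nu_bdd ι hle hR
  have hsec : ∀ v : E n, ∫ x, ⟪v, x⟫_ℝ ^ 2 ∂μ = S * ‖v‖ ^ 2 := fun v =>
    second hn (fun A _ hA => E3aux.scal ι hι A hA) hw hμ hR v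
  have hcov := nu_cov haS ι hι hle hR hR' hsec
  have hF : ContDiff ℝ 1 fun y => f (ad ι y) := hf.comp (ad ι).contDiff
  have h1 := (H (n + 1) (by omega) (rho ι w κ a) (rho_exch ι hι hw hκ0 a) ν hν hνp (2 * S)
    (by positivity) hcov (fun y => f (ad ι y)) hF).2 (fun y => hf1 _)
  have hvar : ProbabilityTheory.variance (fun y => f (ad ι y)) ν =
      ProbabilityTheory.variance f μ := by
    rw [← hmap, ProbabilityTheory.variance_map hf.continuous.measurable.aemeasurable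
      (ad ι).continuous.measurable.aemeasurable]
    rfl
  rw [hvar] at h1
  have hc1 : Continuous fun x => ‖fderiv ℝ f x‖ ^ 2 :=
    ((hf.continuous_fderiv (by norm_num)).norm).pow 2
  have hc2 : Continuous fun x => ‖fderiv ℝ (fun y => f (ad ι y)) x‖ ^ 2 :=
    ((hF.continuous_fderiv (by norm_num)).norm).pow 2
  have h2 := hle (fun y => ENNReal.ofReal (‖fderiv ℝ (fun y => f (ad ι y)) y‖ ^ 2))
    hc2.measurable.ennreal_ofReal (fun x => ENNReal.ofReal (‖fderiv ℝ f x‖ ^ 2))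
    hc1.measurable.ennreal_ofReal (by
      intro x t _
      apply ENNReal.ofReal_le_ofReal
      apply pow_le_pow_left₀ (norm_nonneg _)
      have h3 := fderiv_le ι hf (ι x + t • ones n)
      rw [ad_line ι hι] at h3
      exact h3)
  have h4 := h1.trans (mul_le_mul_right h2 _)
  rw [← ofReal_integral_eq_lintegral_ofReal (int_of_cont hR hc1)
    (ae_of_all _ fun x => by positivity), ← ENNReal.ofReal_mul (by positivity)] at h4
  have h5 : 0 ≤ ∫ x, ‖fderiv ℝ f x‖ ^ 2 ∂μ := integral_nonneg fun _ => by positivity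
  have h6 := (ENNReal.ofReal_le_ofReal_iff (by positivity)).1 h4
  calc ProbabilityTheory.variance f μ ^ 2 ≤ C * (2 * S) * ∫ x, ‖fderiv ℝ f x‖ ^ 2 ∂μ := h6
    _ = 2 * C * S * ∫ x, ‖fderiv ℝ f x‖ ^ 2 ∂μ := by ring

end Pool.Agent.R755.KS
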