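import Pool.Agent.R755.KS.Defs
import Pool.Agent.Results.MP_6d896a_gt.TensorTuples

/-!
# E4: symmetric traceless matrices under conjugation by rotations are a KLS symmetry
-/

set_option autoImplicit false

namespace Pool.Agent.R755.KS

open MeasureTheory Set Filter Topology
open scoped ENNReal InnerProductSpace
open Pool.Agent.R754.KG (E un sl Rv)

namespace E4aux

/-- invariance of the measure -/
theorem mp {m : ℕ} {G : Set (E m ≃ₗᵢ[ℝ] E m)} {w : E m → ℝ} (hw : LCG G w) (g : E m ≃ₗᵢ[ℝ] E m)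
    (hg : g ∈ G) : MeasurePreserving g (volume.withDensity fun x => ENNReal.ofReal (w x))
      (volume.withDensity fun x => ENNReal.ofReal (w x)) := by
  refine ⟨g.continuous.measurable, ?_⟩
  have hm : Measurable fun x => ENNReal.ofReal (w x) := hw.meas.ennreal_ofReal
  ext s hs
  rw [Measure.map_apply g.continuous.measurable hs,
    withDensity_apply _ (g.continuous.measurable hs), withDensity_apply _ hs]
  rw [← g.measurePreserving.setLIntegral_comp_preimage hs hm]
  apply lintegral_congr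
  intro x
  rw [hw.inv g hg x]

/-- moments of invariant measures -/
theorem cov {m : ℕ} {G : Set (E m ≃ₗᵢ[ℝ] E m)} (hmean : ∀ v : E m, (∀ g ∈ G, g v = v) → v = 0)
    (hscal : ∀ A : E m →ₗ[ℝ] E m, A.IsSymmetric → (∀ g ∈ G, ∀ x, g (A x) = A (g x)) →
      ∃ c : ℝ, ∀ x, A x = c • x) {w : E m → ℝ} (hw : LCG G w) (μ : Measure (E m))
    (hμ : μ = volume.withDensity (fun x => ENNReal.ofReal (w x))) (hp : IsProbabilityMeasure μ) :
    (∃ R : ℝ, ∀ᵐ x ∂μ, ‖x‖ ≤ R) ∧ (∀ θ : E m, ∫ x, ⟪θ, x⟫_ℝ ∂μ = 0) ∧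
      ∀ θ : E m, ∫ x, ⟪θ, x⟫_ℝ ^ 2 ∂μ = (∫ x, ‖x‖ ^ 2 ∂μ) / m * ‖θ‖ ^ 2 := by
  obtain ⟨R, hR⟩ := hw.supp
  have hm : Measurable fun x => ENNReal.ofReal (w x) := hw.meas.ennreal_ofReal
  have hbd : ∀ᵐ x ∂μ, ‖x‖ ≤ R := by
    rw [hμ, ae_withDensity_iff hm]
    filter_upwards with x hx
    by_contra h
    push Not at h
    exact hx (by rw [hR x h, ENNReal.ofReal_zero])
  have hmpg : ∀ g ∈ G, MeasurePreserving g μ μ := by
    intro g hg
    rw [hμ]
    exact mp hw g hg
  have hR0 : 0 ≤ R := by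
    obtain ⟨x, hx⟩ := hbd.exists
    exact (norm_nonneg x).trans hx
  have hx1 : Integrable (fun x : E m => x) μ :=
    Integrable.of_bound (C := R) aestronglyMeasurable_id hbd
  have hx2 : ∀ u : E m, Integrable (fun x : E m => ⟪x, u⟫_ℝ • x) μ := by
    intro u
    apply Integrable.of_bound (C := R * ‖u‖ * R)
    · exact (Continuous.aestronglyMeasurable (by fun_prop))
    · filter_upwards [hbd] with x hx
      rw [norm_smul]
      have h1 := norm_inner_le_norm (𝕜 := ℝ) x u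
      have h2 : ‖x‖ * ‖u‖ ≤ R * ‖u‖ := mul_le_mul_of_nonneg_right hx (norm_nonneg _)
      exact mul_le_mul (h1.trans h2) hx (norm_nonneg _) (by positivity)
  have hx3 : ∀ u : E m, Integrable (fun x : E m => ⟪x, u⟫_ℝ ^ 2) μ := by
    intro u
    have hcont : Continuous (fun x : E m => ⟪x, u⟫_ℝ ^ 2) := by fun_prop
    refine Integrable.of_bound hcont.aestronglyMeasurable ((R * ‖u‖) ^ 2) ?_
    · filter_upwards [hbd] with x hx
      rw [norm_pow]
      have h1 := norm_inner_le_norm (𝕜 := ℝ) x u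
      have h2 : ‖x‖ * ‖u‖ ≤ R * ‖u‖ := mul_le_mul_of_nonneg_right hx (norm_nonneg _)
      exact pow_le_pow_left₀ (norm_nonneg _) (h1.trans h2) 2
  refine ⟨⟨R, hbd⟩, ?_, ?_⟩
  · intro θ
    rw [integral_inner hx1 θ]
    have hv : (∫ x : E m, x ∂μ) = 0 := by
      apply hmean
      intro g hg
      have h1 : (g.toContinuousLinearEquiv : E m →L[ℝ] E m) (∫ x : E m, x ∂μ) = ∫ x, g x ∂μ := by
        rw [← ContinuousLinearMap.integral_comp_comm _ hx1]
        rfl
      have h2 : ∫ x, g x ∂μ = ∫ x : E m, x ∂μ :=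
        (hmpg g hg).integral_comp g.toHomeomorph.measurableEmbedding (fun x => x)
      exact h1.trans h2
    rw [hv, inner_zero_right]
  · -- the covariance operator
    let A : E m →ₗ[ℝ] E m :=
      { toFun := fun u => ∫ x, ⟪x, u⟫_ℝ • x ∂μ
        map_add' := by
          intro u v
          rw [← integral_add (hx2 u) (hx2 v)]
          apply integral_congr_ae
          filter_upwards with x
          rw [inner_add_right, add_smul]
        map_smul' := by
          intro c u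
          rw [RingHom.id_apply, ← integral_smul]
          apply integral_congr_ae
          filter_upwards with x
          rw [inner_smul_right, mul_smul] }
    have hA : ∀ u v, ⟪v, A u⟫_ℝ = ∫ x, ⟪x, u⟫_ℝ * ⟪x, v⟫_ℝ ∂μ := by
      intro u v
      change ⟪v, ∫ x, ⟪x, u⟫_ℝ • x ∂μ⟫_ℝ = _
      rw [← integral_inner (hx2 u) v]
      apply integral_congr_ae
      filter_upwards with x
      rw [inner_smul_right, real_inner_comm v x]
    obtain ⟨c, hc⟩ := hscal A (by
      intro u v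
      rw [real_inner_comm, hA u v, hA v u]
      apply integral_congr_ae
      filter_upwards with x
      ring) (by
      intro g hg u
      have h1 : (g.toContinuousLinearEquiv : E m →L[ℝ] E m) (A u) = ∫ x, g (⟪x, u⟫_ℝ • x) ∂μ := by
        change (g.toContinuousLinearEquiv : E m →L[ℝ] E m) (∫ x, ⟪x, u⟫_ℝ • x ∂μ) = _
        rw [← ContinuousLinearMap.integral_comp_comm _ (hx2 u)]
        rfl
      have h2 : ∫ x, g (⟪x, u⟫_ℝ • x) ∂μ = ∫ x, ⟪g x, g u⟫_ℝ • g x ∂μ := by
        apply integral_congr_ae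
        filter_upwards with x
        rw [map_smul, g.inner_map_map]
      have h3 : ∫ x, ⟪g x, g u⟫_ℝ • g x ∂μ = ∫ x, ⟪x, g u⟫_ℝ • x ∂μ :=
        (hmpg g hg).integral_comp g.toHomeomorph.measurableEmbedding (fun x => ⟪x, g u⟫_ℝ • x)
      exact h1.trans (h2.trans h3))
    have hc2 : ∀ u : E m, ∫ x, ⟪x, u⟫_ℝ ^ 2 ∂μ = c * ‖u‖ ^ 2 := by
      intro u
      have h1 := hA u u
      rw [hc u, inner_smul_right, real_inner_self_eq_norm_sq] at h1
      rw [h1]
      apply integral_congr_ae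
      filter_upwards with x
      ring
    have htr : ∫ x, ‖x‖ ^ 2 ∂μ = m * c := by
      have h1 : ∀ x : E m, ‖x‖ ^ 2 = ∑ i, ⟪x, EuclideanSpace.basisFun (Fin m) ℝ i⟫_ℝ ^ 2 := by
        intro x
        rw [← (EuclideanSpace.basisFun (Fin m) ℝ).sum_sq_norm_inner_left x]
        apply Finset.sum_congr rfl
        intro i _
        rw [Real.norm_eq_abs, sq_abs]
      simp_rw [h1]
      rw [integral_finsetSum _ (fun i _ => hx3 _)]
      have h2 : ∀ i, ∫ x, ⟪x, EuclideanSpace.basisFun (Fin m) ℝ i⟫_ℝ ^ 2 ∂μ = c := by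
        intro i
        rw [hc2, (EuclideanSpace.basisFun (Fin m) ℝ).norm_eq_one i]
        ring
      rw [Finset.sum_congr rfl (fun i _ => h2 i)]
      simp
    intro θ
    have h3 : ∫ x, ⟪θ, x⟫_ℝ ^ 2 ∂μ = c * ‖θ‖ ^ 2 := by
      rw [← hc2 θ]
      apply integral_congr_ae
      filter_upwards with x
      rw [real_inner_comm]
    rw [h3, htr]
    rcases Nat.eq_zero_or_pos m with h0 | h0
    · subst h0
      have : θ = 0 := Subsingleton.elim _ _
      rw [this]
      simp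
    · have : (m : ℝ) ≠ 0 := by positivity
      field_simp

open Matrix

/-- the matrix of a vector -/
def mt {N : ℕ} (X : EuclideanSpace ℝ (Fin N × Fin N)) : Matrix (Fin N) (Fin N) ℝ :=
  Matrix.of fun a b => X (a, b)

/-- the vector of a matrix -/
def em {N : ℕ} (M : Matrix (Fin N) (Fin N) ℝ) : EuclideanSpace ℝ (Fin N × Fin N) :=
  WithLp.toLp 2 (fun p => M p.1 p.2)

theorem mt_em {N : ℕ} (M : Matrix (Fin N) (Fin N) ℝ) : mt (em M) = M := rfl

theorem em_mt {N : ℕ} (X : EuclideanSpace ℝ (Fin N × Fin N)) : em (mt X) = X := by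
  ext p; rfl

theorem mt_add {N : ℕ} (X Y : EuclideanSpace ℝ (Fin N × Fin N)) : mt (X + Y) = mt X + mt Y := rfl

theorem mt_smul {N : ℕ} (c : ℝ) (X : EuclideanSpace ℝ (Fin N × Fin N)) :
    mt (c • X) = c • mt X := rfl

theorem em_add {N : ℕ} (X Y : Matrix (Fin N) (Fin N) ℝ) : em (X + Y) = em X + em Y := rfl

theorem em_smul {N : ℕ} (c : ℝ) (X : Matrix (Fin N) (Fin N) ℝ) : em (c • X) = c • em X := rfl

theorem norm_em {N : ℕ} (M : Matrix (Fin N) (Fin N) ℝ) : ‖em M‖ ^ 2 = (M * Mᵀ).trace := by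
  rw [EuclideanSpace.norm_sq_eq, Fintype.sum_prod_type, Matrix.trace]
  apply Finset.sum_congr rfl
  intro a _
  rw [Matrix.diag_apply, Matrix.mul_apply]
  apply Finset.sum_congr rfl
  intro b _
  rw [Matrix.transpose_apply, Real.norm_eq_abs, sq_abs, sq]
  rfl

theorem norm_conj {N : ℕ} (R M : Matrix (Fin N) (Fin N) ℝ) (hR : R * Rᵀ = 1) :
    ‖em (R * M * Rᵀ)‖ = ‖em M‖ := by
  have hR' : Rᵀ * R = 1 := mul_eq_one_comm.1 hR
  have h : ‖em (R * M * Rᵀ)‖ ^ 2 = ‖em M‖ ^ 2 := by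
    rw [norm_em, norm_em, Matrix.transpose_mul, Matrix.transpose_mul, Matrix.transpose_transpose]
    have e : R * M * Rᵀ * (R * (Mᵀ * Rᵀ)) = R * (M * Mᵀ * Rᵀ) := by
      calc R * M * Rᵀ * (R * (Mᵀ * Rᵀ)) = R * M * (Rᵀ * R) * (Mᵀ * Rᵀ) := by
            simp only [Matrix.mul_assoc]
        _ = R * (M * Mᵀ * Rᵀ) := by rw [hR', Matrix.mul_one]; simp only [Matrix.mul_assoc]
    rw [e, Matrix.trace_mul_comm, Matrix.mul_assoc, hR', Matrix.mul_one]
  exact (pow_left_inj₀ (norm_nonneg _) (norm_nonneg _) two_ne_zero).1 h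

section

variable {N k : ℕ} (ι : E k →ₗᵢ[ℝ] EuclideanSpace ℝ (Fin N × Fin N))
  (hι : ∀ X, (∃ x, ι x = X) ↔ (∀ i j, X (i, j) = X (j, i)) ∧ ∑ i, X (i, i) = 0)

include hι in
theorem range_iff (M : Matrix (Fin N) (Fin N) ℝ) :
    (∃ x, ι x = em M) ↔ Mᵀ = M ∧ M.trace = 0 := by
  rw [hι (em M)]
  constructor
  · rintro ⟨h1, h2⟩
    refine ⟨?_, h2⟩
    ext i j
    exact (h1 i j).symm
  · rintro ⟨h1, h2⟩
    refine ⟨?_, h2⟩
    intro i j
    have := congrFun (congrFun h1 i) j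
    exact this.symm

include hι in
/-- conjugation with an orthogonal matrix -/
theorem exist_g (R : Matrix (Fin N) (Fin N) ℝ) (hR : R * Rᵀ = 1) :
    ∃ g : E k ≃ₗᵢ[ℝ] E k, ∀ x, mt (ι (g x)) = R * mt (ι x) * Rᵀ := by
  have hR' : Rᵀ * R = 1 := mul_eq_one_comm.1 hR
  have hex : ∀ x, ∃ y, ι y = em (R * mt (ι x) * Rᵀ) := by
    intro x
    rw [range_iff ι hι]
    have hx := (range_iff ι hι (mt (ι x))).1 ⟨x, (em_mt _).symm⟩
    constructor
    · rw [Matrix.transpose_mul, Matrix.transpose_mul, Matrix.transpose_transpose, hx.1,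
        Matrix.mul_assoc]
    · rw [Matrix.trace_mul_comm, ← Matrix.mul_assoc, hR', Matrix.one_mul]
      exact hx.2
  choose F hF using hex
  have hinj := ι.injective
  let L : E k →ₗᵢ[ℝ] E k :=
    { toFun := F
      map_add' := by
        intro x y
        apply hinj
        rw [map_add, hF, hF, hF, ← em_add, map_add, mt_add, Matrix.mul_add, Matrix.add_mul]
      map_smul' := by
        intro c x
        apply hinj
        rw [RingHom.id_apply, map_smul, hF, hF, ← em_smul, map_smul, mt_smul, Matrix.mul_smul,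
          Matrix.smul_mul]
      norm_map' := by
        intro x
        change ‖F x‖ = ‖x‖
        rw [← ι.norm_map (F x), hF, norm_conj R _ hR, em_mt, ι.norm_map] }
  refine ⟨L.toLinearIsometryEquiv rfl, ?_⟩
  intro x
  have : (L.toLinearIsometryEquiv rfl) x = F x := rfl
  rw [this, hF, mt_em]

end

/-- signed permutation matrices -/
noncomputable def sp {N : ℕ} (ε : Fin N → ℝ) (σ : Equiv.Perm (Fin N)) :
    Matrix (Fin N) (Fin N) ℝ := Matrix.diagonal ε * σ.permMatrix ℝ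

theorem sp_apply {N : ℕ} (ε : Fin N → ℝ) (σ : Equiv.Perm (Fin N)) (a b : Fin N) :
    sp ε σ a b = if σ a = b then ε a else 0 := by
  unfold sp
  rw [Matrix.diagonal_mul, Equiv.Perm.permMatrix, PEquiv.toMatrix_apply]
  simp [Equiv.toPEquiv_apply]

theorem sp_conj {N : ℕ} (ε : Fin N → ℝ) (σ : Equiv.Perm (Fin N)) (X : Matrix (Fin N) (Fin N) ℝ)
    (a b : Fin N) : (sp ε σ * X * (sp ε σ)ᵀ) a b = ε a * ε b * X (σ a) (σ b) := by
  rw [Matrix.mul_apply]
  simp only [Matrix.transpose_apply, sp_apply, Matrix.mul_apply, ite_mul, zero_mul,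
    Finset.sum_ite_eq, Finset.mem_univ, if_true, mul_ite, mul_zero]
  ring

theorem sp_orth {N : ℕ} (ε : Fin N → ℝ) (σ : Equiv.Perm (Fin N)) (hε : ∀ a, ε a * ε a = 1) :
    sp ε σ * (sp ε σ)ᵀ = 1 := by
  ext a b
  have := sp_conj ε σ 1 a b
  rw [Matrix.mul_one] at this
  rw [this, Matrix.one_apply, Matrix.one_apply]
  by_cases h : a = b
  · subst h
    simp [hε]
  · simp [h]

theorem sp_det {N : ℕ} (ε : Fin N → ℝ) (σ : Equiv.Perm (Fin N)) :
    (sp ε σ).det = (∏ a, ε a) * (Equiv.Perm.sign σ : ℤ) := by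
  unfold sp
  rw [Matrix.det_mul, Matrix.det_diagonal, Matrix.det_permutation]

/-- the third index -/
theorem third {N : ℕ} (hN : 3 ≤ N) (a b : Fin N) : ∃ l : Fin N, l ≠ a ∧ l ≠ b := by
  by_contra h
  push Not at h
  have h1 : (Finset.univ : Finset (Fin N)) ⊆ {a, b} := by
    intro l _
    rw [Finset.mem_insert, Finset.mem_singleton]
    by_cases hl : l = a
    · exact Or.inl hl
    · exact Or.inr (h l hl)
  have h2 := Finset.card_le_card h1
  rw [Finset.card_univ, Fintype.card_fin] at h2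
  have h3 : ({a, b} : Finset (Fin N)).card ≤ 2 := Finset.card_le_two
  omega

/-- every permutation has a sign vector such that the determinant is one -/
theorem sign_vec {N : ℕ} (hN : 3 ≤ N) (σ : Equiv.Perm (Fin N)) :
    ∃ ε : Fin N → ℝ, (∀ a, ε a * ε a = 1) ∧ (sp ε σ).det = 1 := by
  have hs : ((Equiv.Perm.sign σ : ℤ) : ℝ) * ((Equiv.Perm.sign σ : ℤ) : ℝ) = 1 := by
    rcases Int.units_eq_one_or (Equiv.Perm.sign σ) with h | h
    · rw [h]; simp
    · rw [h]; simp
  refine ⟨fun a => if a = ⟨0, by omega⟩ then ((Equiv.Perm.sign σ : ℤ) : ℝ) else 1, ?_, ?_⟩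
  · intro a
    by_cases h : a = ⟨0, by omega⟩
    · simp only [h, if_true]
      exact hs
    · simp [h]
  · rw [sp_det, Finset.prod_ite_eq']
    simp only [Finset.mem_univ, if_true]
    exact hs

/-- spectral theorem with a rotation -/
theorem spec {N : ℕ} (hN : 3 ≤ N) (X : Matrix (Fin N) (Fin N) ℝ) (hX : Xᵀ = X) :
    ∃ (R : Matrix (Fin N) (Fin N) ℝ) (lam : Fin N → ℝ), R * Rᵀ = 1 ∧ R.det = 1 ∧
      X = R * Matrix.diagonal lam * Rᵀ := by
  have hH : X.IsHermitian := by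
    rw [Matrix.IsHermitian, Matrix.conjTranspose_eq_transpose_of_trivial]
    exact hX
  have h1 := hH.spectral_theorem
  rw [Unitary.conjStarAlgAut_apply] at h1
  set U : Matrix (Fin N) (Fin N) ℝ := (hH.eigenvectorUnitary : Matrix (Fin N) (Fin N) ℝ) with hU
  have hstar : star U = Uᵀ := by
    rw [Matrix.star_eq_conjTranspose, Matrix.conjTranspose_eq_transpose_of_trivial]
  have hUU : U * Uᵀ = 1 := by
    rw [← hstar]
    exact Unitary.mul_star_self_of_mem (hH.eigenvectorUnitary).2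
  have hlam : (RCLike.ofReal ∘ hH.eigenvalues : Fin N → ℝ) = hH.eigenvalues := by
    funext i; simp
  rw [hstar, hlam] at h1
  have hdet : U.det * U.det = 1 := by
    have := congrArg Matrix.det hUU
    rw [Matrix.det_mul, Matrix.det_transpose, Matrix.det_one] at this
    exact this
  rcases mul_self_eq_one_iff.1 hdet with hd | hd
  · exact ⟨U, hH.eigenvalues, hUU, hd, h1⟩
  · set ε : Fin N → ℝ := fun a => if a = ⟨0, by omega⟩ then -1 else 1 with hε
    have hε2 : ∀ a, ε a * ε a = 1 := by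
      intro a
      rw [hε]
      by_cases h : a = ⟨0, by omega⟩
      · simp [h]
      · simp [h]
    refine ⟨U * Matrix.diagonal ε, hH.eigenvalues, ?_, ?_, ?_⟩
    · rw [Matrix.transpose_mul, Matrix.diagonal_transpose]
      calc U * Matrix.diagonal ε * (Matrix.diagonal ε * Uᵀ) =
          U * (Matrix.diagonal ε * Matrix.diagonal ε) * Uᵀ := by simp only [Matrix.mul_assoc]
        _ = 1 := by
          rw [Matrix.diagonal_mul_diagonal]
          have : (fun i => ε i * ε i) = fun _ => (1 : ℝ) := funext hε2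
          rw [this, Matrix.diagonal_one, Matrix.mul_one, hUU]
    · rw [Matrix.det_mul, hd, Matrix.det_diagonal, hε, Finset.prod_ite_eq']
      simp
    · rw [Matrix.transpose_mul, Matrix.diagonal_transpose]
      calc X = U * Matrix.diagonal hH.eigenvalues * Uᵀ := h1
        _ = U * (Matrix.diagonal ε * (Matrix.diagonal hH.eigenvalues * Matrix.diagonal ε)) * Uᵀ := by
          rw [Matrix.diagonal_mul_diagonal, Matrix.diagonal_mul_diagonal]
          congr 3
          funext i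
          rw [mul_comm (hH.eigenvalues i), ← mul_assoc, hε2, one_mul]
        _ = _ := by simp only [Matrix.mul_assoc]


/-- the group -/
def GG {N k : ℕ} (ι : E k →ₗᵢ[ℝ] EuclideanSpace ℝ (Fin N × Fin N)) : Set (E k ≃ₗᵢ[ℝ] E k) :=
  {g | ∃ R : Matrix (Fin N) (Fin N) ℝ, R * Rᵀ = 1 ∧ R.det = 1 ∧
    ∀ x i j, ι (g x) (i, j) = (R * (Matrix.of fun a b => ι x (a, b)) * Rᵀ) i j}

section

variable {N k : ℕ} (ι : E k →ₗᵢ[ℝ] EuclideanSpace ℝ (Fin N × Fin N)) (hN : 3 ≤ N)
  (hι : ∀ X, (∃ x, ι x = X) ↔ (∀ i j, X (i, j) = X (j, i)) ∧ ∑ i, X (i, i) = 0)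

include hι in
theorem exist_G (R : Matrix (Fin N) (Fin N) ℝ) (hR : R * Rᵀ = 1) (hd : R.det = 1) :
    ∃ g ∈ GG ι, ∀ x, mt (ι (g x)) = R * mt (ι x) * Rᵀ := by
  obtain ⟨g, hg⟩ := exist_g ι hι R hR
  refine ⟨g, ⟨R, hR, hd, ?_⟩, hg⟩
  intro x i j
  exact congrFun (congrFun (hg x) i) j

include hN hι in
theorem mean (v : E k) (hv : ∀ g ∈ GG ι, g v = v) : v = 0 := by
  have h : ∀ (ε : Fin N → ℝ) (σ : Equiv.Perm (Fin N)), (∀ a, ε a * ε a = 1) →
      (sp ε σ).det = 1 → ∀ a b, mt (ι v) a b = ε a * ε b * mt (ι v) (σ a) (σ b) := by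
    intro ε σ hε hd a b
    obtain ⟨g, hg, hgx⟩ := exist_G ι hι (sp ε σ) (sp_orth ε σ hε) hd
    rw [← sp_conj, ← hgx, hv g hg]
  have hoff : ∀ a b, a ≠ b → mt (ι v) a b = 0 := by
    intro a b hab
    obtain ⟨l, hla, hlb⟩ := third hN a b
    have h1 := h (fun c => (if c = a then -1 else 1) * (if c = l then -1 else 1)) 1
      (by intro c; split_ifs <;> norm_num) (by
        rw [sp_det, Finset.prod_mul_distrib, Finset.prod_ite_eq', Finset.prod_ite_eq']
        simp) a b
    simp only [Equiv.Perm.one_apply, if_true] at h1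
    rw [if_neg (Ne.symm hla), if_neg (Ne.symm hab), if_neg (Ne.symm hlb)] at h1
    linarith
  have hdiag : ∀ a b, mt (ι v) a a = mt (ι v) b b := by
    intro a b
    obtain ⟨ε, hε, hd⟩ := sign_vec hN (Equiv.swap a b)
    have h1 := h ε _ hε hd a a
    rw [Equiv.swap_apply_left, hε, one_mul] at h1
    exact h1
  have htr := ((range_iff ι hι (mt (ι v))).1 ⟨v, (em_mt _).symm⟩).2
  have hz : ∀ a, mt (ι v) a a = 0 := by
    intro a
    have e : ∀ b ∈ (Finset.univ : Finset (Fin N)), (mt (ι v)).diag b = mt (ι v) a a :=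
      fun b _ => hdiag b a
    rw [Matrix.trace, Finset.sum_congr rfl e] at htr
    simp only [Finset.sum_const, Finset.card_univ, Fintype.card_fin, nsmul_eq_mul,
      mul_eq_zero, Nat.cast_eq_zero] at htr
    rcases htr with h0 | h0
    · omega
    · exact h0
  have h0 : mt (ι v) = 0 := by
    ext a b
    by_cases hab : a = b
    · subst hab; exact hz a
    · exact hoff a b hab
  have h1 : ι v = 0 := by
    rw [← em_mt (ι v), h0]
    rfl
  exact ι.injective (by rw [h1, map_zero])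

/-- the linear map of diagonal matrices -/
def emL (N : ℕ) : (Fin N → ℝ) →ₗ[ℝ] EuclideanSpace ℝ (Fin N × Fin N) where
  toFun := fun l => em (Matrix.diagonal l)
  map_add' := by
    intro x y
    rw [← em_add, Matrix.diagonal_add]
    rfl
  map_smul' := by
    intro c x
    rw [RingHom.id_apply, ← em_smul, Matrix.diagonal_smul]

theorem emL_apply (l : Fin N → ℝ) : emL N l = em (Matrix.diagonal l) := rfl

theorem two_trans {N : ℕ} (i0 i1 i j : Fin N) (h0 : i0 ≠ i1) (h : i ≠ j) :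
    ∃ τ : Equiv.Perm (Fin N), τ i0 = i ∧ τ i1 = j := by
  refine ⟨Equiv.swap (Equiv.swap i0 i i1) j * Equiv.swap i0 i, ?_, ?_⟩
  · rw [Equiv.Perm.mul_apply, Equiv.swap_apply_left, Equiv.swap_apply_of_ne_of_ne _ h]
    intro he
    have : Equiv.swap i0 i i0 = Equiv.swap i0 i i1 := by rw [Equiv.swap_apply_left]; exact he
    exact h0 ((Equiv.swap i0 i).injective this)
  · rw [Equiv.Perm.mul_apply, Equiv.swap_apply_left]

include hN hι in
theorem scal (A : E k →ₗ[ℝ] E k) (hA : A.IsSymmetric)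
    (hG : ∀ g ∈ GG ι, ∀ x, g (A x) = A (g x)) : ∃ c : ℝ, ∀ x, A x = c • x := by
  have hex : ∀ i j : Fin N, ∃ x, ι x = emL N (Pi.single i 1 - Pi.single j 1) := by
    intro i j
    rw [emL_apply, range_iff ι hι]
    refine ⟨Matrix.diagonal_transpose _, ?_⟩
    rw [Matrix.trace_diagonal]
    simp
  choose u hu using hex
  set i0 : Fin N := ⟨0, by omega⟩ with hi0
  set i1 : Fin N := ⟨1, by omega⟩ with hi1
  have hne : i0 ≠ i1 := by
    intro h
    have := congrArg Fin.val h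
    simp [hi0, hi1] at this
  set c : ℝ := ⟪A (u i0 i1), u i0 i1⟫_ℝ / ‖u i0 i1‖ ^ 2 with hc
  set A' : E k →ₗ[ℝ] E k := A - c • LinearMap.id with hA'
  have hA'x : ∀ x, A' x = A x - c • x := fun x => rfl
  have hsym : A'.IsSymmetric := by
    intro x y
    rw [hA'x, hA'x, inner_sub_left, inner_sub_right, hA x y, inner_smul_left, inner_smul_right]
    rfl
  have hG' : ∀ g ∈ GG ι, ∀ x, ⟪A' (g x), g x⟫_ℝ = ⟪A' x, x⟫_ℝ := by
    intro g hg x
    have : A' (g x) = g (A' x) := by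
      rw [hA'x, hA'x, map_sub, hG g hg, map_smul]
    rw [this, g.inner_map_map]
  have hperm : ∀ τ : Equiv.Perm (Fin N), ∃ g ∈ GG ι, ∀ i j, g (u i j) = u (τ i) (τ j) := by
    intro τ
    obtain ⟨ε, hε, hd⟩ := sign_vec hN τ⁻¹
    obtain ⟨g, hg, hgx⟩ := exist_G ι hι (sp ε τ⁻¹) (sp_orth ε _ hε) hd
    refine ⟨g, hg, ?_⟩
    intro i j
    apply ι.injective
    rw [hu, emL_apply, ← em_mt (ι (g (u i j))), hgx, hu, emL_apply, mt_em]
    congr 1
    ext a b
    rw [sp_conj]
    by_cases hab : a = b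
    · subst hab
      rw [hε, one_mul, Matrix.diagonal_apply_eq, Matrix.diagonal_apply_eq, Pi.sub_apply,
        Pi.sub_apply, Pi.single_apply, Pi.single_apply, Pi.single_apply, Pi.single_apply]
      have e : ∀ i, (τ⁻¹ a = i) = (a = τ i) := fun i => by
        rw [Equiv.Perm.inv_eq_iff_eq]
      simp only [e]
    · rw [Matrix.diagonal_apply_ne _ hab, Matrix.diagonal_apply_ne, mul_zero]
      intro h
      exact hab (τ⁻¹.injective h)
  have hQ0 : ⟪A' (u i0 i1), u i0 i1⟫_ℝ = 0 := by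
    rw [hA'x, inner_sub_left, inner_smul_left, real_inner_self_eq_norm_sq]
    by_cases h : ‖u i0 i1‖ = 0
    · rw [norm_eq_zero] at h
      rw [h]; simp
    · have h2 : ‖u i0 i1‖ ^ 2 ≠ 0 := pow_ne_zero 2 h
      change _ - c * _ = 0
      rw [hc, div_mul_cancel₀ _ h2, sub_self]
  have hQ : ∀ i j, ⟪A' (u i j), u i j⟫_ℝ = 0 := by
    intro i j
    by_cases h : i = j
    · subst h
      have : u i i = 0 := by
        apply ι.injective
        rw [hu, sub_self, map_zero, map_zero]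
      rw [this]; simp
    · obtain ⟨τ, h1, h2⟩ := two_trans i0 i1 i j hne h
      obtain ⟨g, hg, hgu⟩ := hperm τ
      have := hG' g hg (u i0 i1)
      rw [hgu, h1, h2, hQ0] at this
      exact this
  have hpol : ∀ i l j, ⟪A' (u i j), u l j⟫_ℝ = 0 := by
    intro i l j
    have h1 : u i l = u i j - u l j := by
      apply ι.injective
      rw [map_sub, hu, hu, hu, ← map_sub]
      congr 1
      abel
    have h2 := hQ i l
    rw [h1, map_sub, inner_sub_left, inner_sub_right, inner_sub_right, hQ, hQ] at h2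
    have h3 : ⟪A' (u l j), u i j⟫_ℝ = ⟪A' (u i j), u l j⟫_ℝ := by
      rw [hsym, real_inner_comm]
    rw [h3] at h2
    linarith
  have hd : ∀ (lam : Fin N → ℝ) (d : E k), ∑ i, lam i = 0 → ι d = emL N lam →
      ⟪A' d, d⟫_ℝ = 0 := by
    intro lam d hs hdl
    have h1 : d = ∑ i, lam i • u i i0 := by
      apply ι.injective
      rw [hdl, map_sum]
      have h2 : ∀ i, ι (lam i • u i i0) = emL N (lam i • (Pi.single i 1 - Pi.single i0 1)) := by
        intro i
        rw [map_smul, map_smul, hu]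
      rw [Finset.sum_congr rfl (fun i _ => h2 i), ← map_sum]
      congr 1
      funext a
      rw [Finset.sum_apply]
      have h3 : ∀ i, (lam i • ((Pi.single i 1 : Fin N → ℝ) - Pi.single i0 1) : Fin N → ℝ) a =
          (if a = i then lam i else 0) - lam i * (if a = i0 then 1 else 0) := by
        intro i
        rw [Pi.smul_apply, Pi.sub_apply, Pi.single_apply, Pi.single_apply, smul_eq_mul]
        split_ifs <;> ring
      rw [Finset.sum_congr rfl (fun i _ => h3 i), Finset.sum_sub_distrib, ← Finset.sum_mul, hs,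
        Finset.sum_ite_eq]
      simp
    rw [h1, map_sum, sum_inner]
    apply Finset.sum_eq_zero
    intro i _
    rw [inner_sum]
    apply Finset.sum_eq_zero
    intro l _
    rw [map_smul, inner_smul_left, inner_smul_right, hpol, mul_zero, mul_zero]
  have hall : ∀ x, ⟪A' x, x⟫_ℝ = 0 := by
    intro x
    have hx := (range_iff ι hι (mt (ι x))).1 ⟨x, (em_mt _).symm⟩
    obtain ⟨R, lam, hR, hdet, hX⟩ := spec hN (mt (ι x)) hx.1
    obtain ⟨g, hg, hgx⟩ := exist_G ι hι R hR hdet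
    have hR' : Rᵀ * R = 1 := mul_eq_one_comm.1 hR
    have htr : ∑ i, lam i = 0 := by
      have h1 := hx.2
      rw [hX, Matrix.trace_mul_comm, ← Matrix.mul_assoc, hR', Matrix.one_mul,
        Matrix.trace_diagonal] at h1
      exact h1
    obtain ⟨d, hdd⟩ : ∃ d, ι d = emL N lam := by
      rw [emL_apply, range_iff ι hι]
      refine ⟨Matrix.diagonal_transpose _, ?_⟩
      rw [Matrix.trace_diagonal]
      exact htr
    have h2 : g d = x := by
      apply ι.injective
      rw [← em_mt (ι (g d)), hgx, hdd, emL_apply, mt_em, ← hX, em_mt]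
    rw [← h2, hG' g hg]
    exact hd lam d htr hdd
  have hz := hsym.inner_map_self_eq_zero.1 hall
  refine ⟨c, fun x => ?_⟩
  have : A' x = 0 := by rw [hz]; rfl
  rw [hA'x, sub_eq_zero] at this
  exact this

end


open Pool.Agent.Results.MP_6d896a_gt.TensorTuples (Tup mat vec Rotation Rotated InvSubspace
  InvDensity CovLe PoincareLe)

/-- reindexing -/
def ee (N : ℕ) : Fin N × Fin N ≃ (Fin 1 × (Fin N × Fin N)) ⊕ (Fin 0 × Fin N) :=
  (Equiv.uniqueProd (Fin N × Fin N) (Fin 1)).symm.trans (Equiv.sumEmpty _ _).symm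

/-- the embedding into the space of tuples -/
noncomputable def io {N k : ℕ} (ι : E k →ₗᵢ[ℝ] EuclideanSpace ℝ (Fin N × Fin N)) :
    EuclideanSpace ℝ (Fin k) →ₗᵢ[ℝ] Tup 1 0 N :=
  (LinearIsometryEquiv.piLpCongrLeft 2 ℝ ℝ (ee N)).toLinearIsometry.comp ι

theorem mat_io {N k : ℕ} (ι : E k →ₗᵢ[ℝ] EuclideanSpace ℝ (Fin N × Fin N)) (j : Fin 1) (x : E k) :
    mat j (io ι x) = mt (ι x) := by
  ext a b
  have hj : j = 0 := Subsingleton.elim _ _
  subst hj
  rfl

theorem rot_io {N k : ℕ} (ι : E k →ₗᵢ[ℝ] EuclideanSpace ℝ (Fin N × Fin N))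
    (g : Matrix (Fin N) (Fin N) ℝ) (x y : E k) :
    Rotated g (io ι x) (io ι y) ↔ mt (ι y) = g * mt (ι x) * gᵀ := by
  constructor
  · rintro ⟨h1, _⟩
    have := h1 0
    rwa [mat_io, mat_io] at this
  · intro h
    refine ⟨fun j => ?_, fun i => i.elim0⟩
    rw [mat_io, mat_io, h]

theorem kls_aux {N k : ℕ} (hN : 3 ≤ N) (ι : E k →ₗᵢ[ℝ] EuclideanSpace ℝ (Fin N × Fin N))
    (hι : ∀ X, (∃ x, ι x = X) ↔ (∀ i j, X (i, j) = X (j, i)) ∧ ∑ i, X (i, i) = 0) (C : ℝ)
    (hC : 0 < C) (hres : ∀ (κ : Type) [Fintype κ]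
    (ι : EuclideanSpace ℝ κ →ₗᵢ[ℝ] Tup 1 0 N), InvSubspace ι →
    ∀ ρ : EuclideanSpace ℝ κ → ℝ, InvDensity ι ρ →
    ∀ μ : Measure (EuclideanSpace ℝ κ), μ = volume.withDensity (fun x => ENNReal.ofReal (ρ x)) →
    IsProbabilityMeasure μ → ∀ s : ℝ, 0 < s → CovLe μ s →
    PoincareLe μ (C * s)) (w : E k → ℝ) (hw : LCG (GG ι) w) (μ : Measure (E k))
    (hμ : μ = volume.withDensity (fun x => ENNReal.ofReal (w x))) (hp : IsProbabilityMeasure μ)
    (f : E k → ℝ) (hf : ContDiff ℝ 1 f) (hf1 : ∀ x, |f x| ≤ 1) :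
    ProbabilityTheory.variance f μ ^ 2 ≤
      C * ((∫ x, ‖x‖ ^ 2 ∂μ) / k) * ∫ x, ‖fderiv ℝ f x‖ ^ 2 ∂μ := by
  obtain ⟨⟨R, hbd⟩, hm1, hm2⟩ := cov (mean ι hN hι) (scal ι hN hι) hw μ hμ hp
  set s0 : ℝ := (∫ x, ‖x‖ ^ 2 ∂μ) / k with hs0
  have hs0n : 0 ≤ s0 := div_nonneg (integral_nonneg fun x => by positivity) (Nat.cast_nonneg k)
  have hR0 : 0 ≤ R := by
    obtain ⟨x, hx⟩ := hbd.exists
    exact (norm_nonneg x).trans hx
  have hsub : InvSubspace (io ι) := by
    intro g hg x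
    obtain ⟨h, hh, hhx⟩ := exist_G ι hι g hg.1 hg.2
    exact ⟨h x, (rot_io ι g x (h x)).2 (hhx x)⟩
  have hden : InvDensity (io ι) w := by
    refine ⟨hw.meas, hw.nn, hw.logc, ?_⟩
    intro g hg x y hxy
    obtain ⟨h, hh, hhx⟩ := exist_G ι hι g hg.1 hg.2
    have h1 := (rot_io ι g x y).1 hxy
    have h2 : y = h x := by
      apply ι.injective
      rw [← em_mt (ι y), ← em_mt (ι (h x)), h1, hhx]
    rw [h2]
    exact hw.inv h hh x
  -- covariance
  have hcov : ∀ s : ℝ, s0 ≤ s → CovLe μ s := by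
    intro s hs θ
    have hcont : Continuous (fun x : E k => ⟪θ, x⟫_ℝ) := by fun_prop
    have hL : MemLp (fun x : E k => ⟪θ, x⟫_ℝ) 2 μ := by
      refine MemLp.of_bound hcont.aestronglyMeasurable (‖θ‖ * R) ?_
      filter_upwards [hbd] with x hx
      exact (norm_inner_le_norm (𝕜 := ℝ) θ x).trans
        (mul_le_mul_of_nonneg_left hx (norm_nonneg _))
    rw [← hL.ofReal_variance_eq, ProbabilityTheory.variance_eq_sub hL]
    apply ENNReal.ofReal_le_ofReal
    have h1 : (∫ x, ((fun x : E k => ⟪θ, x⟫_ℝ) ^ 2) x ∂μ) = s0 * ‖θ‖ ^ 2 := hm2 θ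
    rw [h1, hm1 θ]
    have := mul_le_mul_of_nonneg_right hs (sq_nonneg ‖θ‖)
    linarith
  -- the integral of the gradient
  have hfd : Continuous (fun x => ‖fderiv ℝ f x‖ ^ 2) :=
    ((hf.continuous_fderiv (by norm_num)).norm).pow 2
  obtain ⟨B, hB⟩ := (isCompact_closedBall (0 : E k) R).exists_bound_of_continuousOn
    hfd.continuousOn
  have hIint : Integrable (fun x => ‖fderiv ℝ f x‖ ^ 2) μ := by
    refine Integrable.of_bound hfd.aestronglyMeasurable B ?_
    filter_upwards [hbd] with x hx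
    exact hB x (by rw [mem_closedBall_zero_iff]; exact hx)
  set I : ℝ := ∫ x, ‖fderiv ℝ f x‖ ^ 2 ∂μ with hI
  have hI0 : 0 ≤ I := integral_nonneg fun x => by positivity
  have hfL : MemLp f 2 μ := by
    refine MemLp.of_bound hf.continuous.aestronglyMeasurable 1 ?_
    filter_upwards with x
    exact hf1 x
  have hvar : ∀ s : ℝ, 0 < s → s0 ≤ s → ProbabilityTheory.variance f μ ≤ C * s * I := by
    intro s hs hs'
    have h1 := hres (Fin k) (io ι) hsub w hden μ hμ hp s hs (hcov s hs') f hf hfL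
    have h2 : ∫⁻ x, ENNReal.ofReal (‖fderiv ℝ f x‖ ^ 2) ∂μ = ENNReal.ofReal I :=
      (ofReal_integral_eq_lintegral_ofReal hIint
        (Filter.Eventually.of_forall fun x => by positivity)).symm
    rw [h2, ← ENNReal.ofReal_mul (by positivity)] at h1
    exact (ENNReal.ofReal_le_ofReal_iff (by positivity)).1 h1
  have hvar0 : ProbabilityTheory.variance f μ ≤ C * s0 * I := by
    apply le_of_forall_pos_le_add
    intro δ hδ
    have hpos : 0 < C * I + 1 := by positivity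
    have h1 := hvar (s0 + δ / (C * I + 1)) (by positivity) (by
      have : 0 < δ / (C * I + 1) := by positivity
      linarith)
    have h2 : C * (δ / (C * I + 1)) * I ≤ δ := by
      have e : C * (δ / (C * I + 1)) * I = δ * (C * I / (C * I + 1)) := by ring
      rw [e]
      have h3 : C * I / (C * I + 1) ≤ 1 := by
        rw [div_le_one hpos]; linarith
      nlinarith
    calc ProbabilityTheory.variance f μ ≤ C * (s0 + δ / (C * I + 1)) * I := h1
      _ = C * s0 * I + C * (δ / (C * I + 1)) * I := by ring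
      _ ≤ C * s0 * I + δ := by linarith
  have hv0 : 0 ≤ ProbabilityTheory.variance f μ := ProbabilityTheory.variance_nonneg _ _
  have hv1 : ProbabilityTheory.variance f μ ≤ 1 := by
    refine (ProbabilityTheory.variance_le_expectation_sq
      hf.continuous.aestronglyMeasurable).trans ?_
    have h1 : (∫ x, (f ^ 2) x ∂μ) ≤ ∫ _x, (1 : ℝ) ∂μ := by
      apply integral_mono_of_nonneg
      · filter_upwards with x
        change 0 ≤ (f x) ^ 2
        positivity
      · exact integrable_const _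
      · filter_upwards with x
        change (f x) ^ 2 ≤ 1
        rw [← sq_abs]
        exact pow_le_one₀ (abs_nonneg _) (hf1 x)
    simpa using h1
  nlinarith

end E4aux

open E4aux Matrix in
/-- **E4**: the KLS symmetry of symmetric traceless matrices under conjugation by rotations -/
theorem sym_kg : ∃ c0 : ℝ, 0 < c0 ∧ ∀ (N k : ℕ)
    (ι : E k →ₗᵢ[ℝ] EuclideanSpace ℝ (Fin N × Fin N)), 3 ≤ N →
    (∀ X, (∃ x, ι x = X) ↔ (∀ i j, X (i, j) = X (j, i)) ∧ ∑ i, X (i, i) = 0) →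
    KG c0 {g : E k ≃ₗᵢ[ℝ] E k | ∃ R : Matrix (Fin N) (Fin N) ℝ, R * Rᵀ = 1 ∧ R.det = 1 ∧
      ∀ x i j, ι (g x) (i, j) = (R * (Matrix.of fun a b => ι x (a, b)) * Rᵀ) i j} := by
  obtain ⟨C, hC, hres⟩ := Pool.Agent.Results.MP_6d896a_gt.TensorTuples.result
  refine ⟨8 * C, by positivity, ?_⟩
  intro N k ι hN hι
  refine ⟨mean ι hN hι, scal ι hN hι, ?_⟩
  intro w hw μ hμ hp f hf hf1
  have hfac : ((((1 : ℕ) : ℝ) + 1) ^ 2 * (1 + (((1 : ℕ) : ℝ) + ((0 : ℕ) : ℝ)) / (N : ℝ)) ^ 2) ≤ 8 := by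
    have hN' : (3 : ℝ) ≤ N := by exact_mod_cast hN
    have h1 : (1 : ℝ) / N ≤ 1 / 3 := by
      apply one_div_le_one_div_of_le (by norm_num) hN'
    have h2 : (0 : ℝ) ≤ 1 / N := by positivity
    push_cast
    rw [add_zero]
    nlinarith
  refine kls_aux hN ι hι (8 * C) (by positivity) ?_ w hw μ hμ hp f hf hf1
  intro κ _ ι' hι' ρ hρ μ' hμ' hp' s hs hcov f' hf' hfL'
  refine (hres 1 0 N hN κ ι' hι' ρ hρ μ' hμ' hp' s hs hcov f' hf' hfL').trans
    (mul_le_mul' (ENNReal.ofReal_le_ofReal ?_) le_rfl)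
  refine mul_le_mul_of_nonneg_right ?_ hs.le
  calc C * ((((1 : ℕ) : ℝ) + 1) ^ 2 * (1 + (((1 : ℕ) : ℝ) + ((0 : ℕ) : ℝ)) / (N : ℝ)) ^ 2) ≤
      C * 8 := mul_le_mul_of_nonneg_left hfac hC.le
    _ = 8 * C := by ring

end Pool.Agent.R755.KS
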