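import Pool.Agent.R755.KS.Defs

/-!
# KS1: from exponential moments to the variance
-/

set_option autoImplicit false

namespace Pool.Agent.R755.KS

open MeasureTheory Set Filter Topology
open scoped ENNReal InnerProductSpace

namespace KS1aux

theorem exp_low {x : ℝ} (hx : |x| ≤ 1) : 1 + x + x ^ 2 / 2 - 2 / 9 * |x| ^ 3 ≤ Real.exp x := by
  have h := Real.exp_bound hx (n := 3) (by norm_num)
  have h2 := (abs_le.mp h).1
  simp only [Finset.sum_range_succ, Finset.sum_range_zero, Nat.factorial] at h2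
  norm_num at h2
  nlinarith [h2]

theorem exp_up {x : ℝ} (h0 : 0 ≤ x) (hx : x ≤ 1) : Real.exp x ≤ 1 + x + x ^ 2 := by
  have h := Real.abs_exp_sub_one_sub_id_le (x := x) (by rw [abs_of_nonneg h0]; exact hx)
  have h2 := (abs_le.mp h).2
  linarith

/-- lower bound of a truncated exponential moment -/
theorem low {Ω : Type*} [MeasurableSpace Ω] (ρ : Measure Ω) [IsProbabilityMeasure ρ] (g : Ω → ℝ)
    (B : Set Ω) (r : ℝ) (hg : Measurable g) (hb : ∀ t, |g t| ≤ 1) (hB : MeasurableSet B)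
    (hr : 0 < r) (hr2 : r ≤ 1 / 4) :
    1 + r * (∫ t, g t ∂ρ) + r ^ 2 / 2 * (∫ t, g t ^ 2 ∂ρ) - 2 / 9 * r ^ 3 -
      4 / 3 * ρ.real B ≤ ∫ t in Bᶜ, Real.exp (r * g t) ∂ρ := by
  have hrg : ∀ t, |r * g t| ≤ r := by
    intro t
    rw [abs_mul, abs_of_pos hr]
    calc r * |g t| ≤ r * 1 := mul_le_mul_of_nonneg_left (hb t) hr.le
      _ = r := mul_one r
  have er : Real.exp r ≤ 4 / 3 := by
    have := exp_up hr.le (by linarith)
    nlinarith
  have hexp : ∀ t, Real.exp (r * g t) ≤ 4 / 3 := fun t =>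
    (Real.exp_le_exp.mpr ((le_abs_self _).trans (hrg t))).trans er
  have ig : Integrable g ρ := by
    refine Integrable.mono' (integrable_const (1 : ℝ)) hg.aestronglyMeasurable ?_
    exact Eventually.of_forall fun t => by rw [Real.norm_eq_abs]; exact hb t
  have ig2 : Integrable (fun t => g t ^ 2) ρ := by
    refine Integrable.mono' (integrable_const (1 : ℝ)) (hg.pow_const 2).aestronglyMeasurable ?_
    exact Eventually.of_forall fun t => by
      rw [Real.norm_eq_abs, abs_pow]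
      exact pow_le_one₀ (abs_nonneg _) (hb t)
  have ie : Integrable (fun t => Real.exp (r * g t)) ρ := by
    refine Integrable.mono' (integrable_const (4 / 3 : ℝ))
      (Real.measurable_exp.comp (hg.const_mul r)).aestronglyMeasurable ?_
    exact Eventually.of_forall fun t => by
      rw [Real.norm_eq_abs, abs_of_pos (Real.exp_pos _)]; exact hexp t
  have h1 : ∫ t in B, Real.exp (r * g t) ∂ρ ≤ 4 / 3 * ρ.real B := by
    calc ∫ t in B, Real.exp (r * g t) ∂ρ ≤ ∫ t in B, (4 / 3 : ℝ) ∂ρ :=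
          integral_mono ie.integrableOn (integrable_const _) hexp
      _ = 4 / 3 * ρ.real B := by
          rw [setIntegral_const, smul_eq_mul, mul_comm]
  have h2 : (∫ t in B, Real.exp (r * g t) ∂ρ) + ∫ t in Bᶜ, Real.exp (r * g t) ∂ρ =
      ∫ t, Real.exp (r * g t) ∂ρ := integral_add_compl hB ie
  have h3 : 1 + r * (∫ t, g t ∂ρ) + r ^ 2 / 2 * (∫ t, g t ^ 2 ∂ρ) - 2 / 9 * r ^ 3 ≤
      ∫ t, Real.exp (r * g t) ∂ρ := by
    have e : ∫ t, ((1 - 2 / 9 * r ^ 3) + (r * g t + r ^ 2 / 2 * g t ^ 2)) ∂ρ =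
        (1 - 2 / 9 * r ^ 3) + (r * (∫ t, g t ∂ρ) + r ^ 2 / 2 * (∫ t, g t ^ 2 ∂ρ)) := by
      have i1 : Integrable (fun t => r * g t) ρ := ig.const_mul r
      have i2 : Integrable (fun t => r ^ 2 / 2 * g t ^ 2) ρ := ig2.const_mul _
      have i3 : Integrable (fun t => r * g t + r ^ 2 / 2 * g t ^ 2) ρ := i1.add i2
      rw [integral_add (integrable_const _) i3,
        integral_add i1 i2, integral_const_mul, integral_const_mul]
      simp
    have h4 : ∫ t, ((1 - 2 / 9 * r ^ 3) + (r * g t + r ^ 2 / 2 * g t ^ 2)) ∂ρ ≤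
        ∫ t, Real.exp (r * g t) ∂ρ := by
      refine integral_mono ((integrable_const _).add ((ig.const_mul r).add (ig2.const_mul _))) ie ?_
      intro t
      have h5 := exp_low (x := r * g t) ((hrg t).trans (by linarith))
      have h6 : |r * g t| ^ 3 ≤ r ^ 3 := pow_le_pow_left₀ (abs_nonneg _) (hrg t) 3
      show (1 - 2 / 9 * r ^ 3) + (r * g t + r ^ 2 / 2 * g t ^ 2) ≤ Real.exp (r * g t)
      nlinarith
    rw [e] at h4
    linarith
  linarith

theorem alg {r τ m q p A1 A2 : ℝ} (hr : 0 < r) (hr2 : r ≤ 1 / 4) (hτ : 0 ≤ τ) (hrτ : r * τ ≤ 1)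
    (hm : |m| ≤ 1) (hq : 0 ≤ q) (hp0 : 0 ≤ p) (hp : p ≤ 1 / 2)
    (h1 : 1 + r * m + r ^ 2 / 2 * q - 2 / 9 * r ^ 3 - 4 / 3 * p ≤ A1)
    (h2 : 1 - r * m + r ^ 2 / 2 * q - 2 / 9 * r ^ 3 - 4 / 3 * p ≤ A2)
    (h : A1 * A2 ≤ Real.exp (r * τ)) : q - m ^ 2 ≤ 2 * τ / r + r + 8 / r ^ 2 * p := by
  have hrτ0 : 0 ≤ r * τ := by positivity
  have he : Real.exp (r * τ) ≤ 1 + 2 * (r * τ) := by
    have := exp_up hrτ0 hrτ
    nlinarith
  obtain ⟨w, hw⟩ : ∃ w, w = r ^ 2 / 2 * q - 2 / 9 * r ^ 3 - 4 / 3 * p := ⟨_, rfl⟩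
  have hrm : |r * m| ≤ 1 / 4 := by
    rw [abs_mul, abs_of_pos hr]
    nlinarith [abs_nonneg m]
  have hr3 : r ^ 3 ≤ 1 / 64 := by
    calc r ^ 3 ≤ (1 / 4) ^ 3 := pow_le_pow_left₀ hr.le hr2 3
      _ = 1 / 64 := by norm_num
  have hwl : -(2 / 3) - 1 / 288 ≤ w := by
    have : 0 ≤ r ^ 2 / 2 * q := by positivity
    rw [hw]; linarith
  have hA1 : 1 + w + r * m ≤ A1 := by rw [hw]; linarith
  have hA2 : 1 + w - r * m ≤ A2 := by rw [hw]; linarith
  have hm1 := abs_le.mp hrm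
  have hpos1 : 0 ≤ 1 + w + r * m := by linarith [hm1.1]
  have hpos2 : 0 ≤ 1 + w - r * m := by linarith [hm1.2]
  have hprod : (1 + w + r * m) * (1 + w - r * m) ≤ A1 * A2 :=
    mul_le_mul hA1 hA2 hpos2 (hpos1.trans hA1)
  have h3 : r ^ 2 * (q - m ^ 2) ≤ 2 * (r * τ) + r ^ 3 + 8 * p := by
    have h4 : (1 + w + r * m) * (1 + w - r * m) = 1 + 2 * w + w ^ 2 - (r * m) ^ 2 := by ring
    have h5 : 0 ≤ w ^ 2 := sq_nonneg w
    have h6 : 1 + 2 * w - (r * m) ^ 2 ≤ 1 + 2 * (r * τ) := by linarith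
    have h7 : 0 ≤ r ^ 3 := by positivity
    have h8 : r ^ 2 * (q - m ^ 2) = 2 * w - (r * m) ^ 2 + 4 / 9 * r ^ 3 + 8 / 3 * p := by
      rw [hw]; ring
    linarith
  have hr0 : r ≠ 0 := hr.ne'
  have h9 : 2 * τ / r + r + 8 / r ^ 2 * p = (2 * (r * τ) + r ^ 3 + 8 * p) / r ^ 2 := by
    field_simp
  rw [h9, le_div_iff₀ (by positivity)]
  linarith

end KS1aux

open KS1aux in
theorem rl : S_RL := by
  intro M ρ g B r τ hρ hg hb hB hr hr2 hτ hrτ h
  have ig2 : Integrable (fun t => g t ^ 2) ρ := by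
    refine Integrable.mono' (integrable_const (1 : ℝ)) (hg.pow_const 2).aestronglyMeasurable ?_
    exact Eventually.of_forall fun t => by
      rw [Real.norm_eq_abs, abs_pow]
      exact pow_le_one₀ (abs_nonneg _) (hb t)
  have ig : Integrable g ρ := by
    refine Integrable.mono' (integrable_const (1 : ℝ)) hg.aestronglyMeasurable ?_
    exact Eventually.of_forall fun t => by rw [Real.norm_eq_abs]; exact hb t
  have hq1 : ∫ t, g t ^ 2 ∂ρ ≤ 1 := by
    have : ∫ t, g t ^ 2 ∂ρ ≤ ∫ _t, (1 : ℝ) ∂ρ := by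
      refine integral_mono ig2 (integrable_const _) fun t => ?_
      have := abs_le.mp (hb t)
      show g t ^ 2 ≤ 1
      nlinarith [this.1, this.2]
    simpa using this
  have hq0 : 0 ≤ ∫ t, g t ^ 2 ∂ρ := integral_nonneg fun t => sq_nonneg _
  have hm : |∫ t, g t ∂ρ| ≤ 1 := by
    have : ‖∫ t, g t ∂ρ‖ ≤ 1 * ρ.real univ :=
      norm_integral_le_of_norm_le_const (Eventually.of_forall fun t => by
        rw [Real.norm_eq_abs]; exact hb t)
    simpa using this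
  have hp0 : 0 ≤ ρ.real B := measureReal_nonneg
  by_cases hp : ρ.real B ≤ 1 / 2
  · have h1 := low ρ g B r hg hb hB hr hr2
    have h2 := low ρ (fun t => -g t) B r hg.neg (fun t => by rw [abs_neg]; exact hb t) hB hr hr2
    have e1 : ∫ t, -g t ∂ρ = -∫ t, g t ∂ρ := integral_neg _
    have e2 : ∫ t, (-g t) ^ 2 ∂ρ = ∫ t, g t ^ 2 ∂ρ := by simp only [neg_sq]
    have e3 : ∫ t in Bᶜ, Real.exp (r * -g t) ∂ρ = ∫ t in Bᶜ, Real.exp (-(r * g t)) ∂ρ := by
      simp only [mul_neg]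
    rw [e1, e2, e3] at h2
    exact alg hr hr2 hτ hrτ hm hq0 hp0 hp h1 (by linarith) h
  · push Not at hp
    have h1 : 1 ≤ 8 / r ^ 2 * ρ.real B := by
      have h2 : 1 ≤ 8 / r ^ 2 * (1 / 2) := by
        rw [div_mul_div_comm, le_div_iff₀ (by positivity)]
        nlinarith
      have h3 : 8 / r ^ 2 * (1 / 2) ≤ 8 / r ^ 2 * ρ.real B :=
        mul_le_mul_of_nonneg_left hp.le (by positivity)
      linarith
    have h4 : 0 ≤ 2 * τ / r := by positivity
    nlinarith [sq_nonneg (∫ t, g t ∂ρ)]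

end Pool.Agent.R755.KS
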