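import Pool.Agent.R755.KS.Defs
import Pool.Agent.PZ871.Pl

/-!
# KS2: the Prékopa–Leindler inequality in the base, with a Gaussian weight
-/

set_option autoImplicit false

namespace Pool.Agent.R755.KS

open MeasureTheory Set Filter Topology
open scoped ENNReal InnerProductSpace
open Pool.Agent.H888R2.KT (gs gc)
open Pool.Agent.R754.KG (E un sl Rv)
open Pool.Agent.R755.KF (BL PB KW CB lw ey)

namespace KS2aux

variable {N M k : ℕ} {K : Set (E N × E M)}

theorem sl_meas (h : CB K) (t : E M) : MeasurableSet (sl K t) :=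
  measurable_prodMk_right h.comp.measurableSet

theorem sl_fin (h : CB K) (t : E M) : volume (sl K t) ≠ ⊤ := by
  have hb : Bornology.IsBounded (sl K t) :=
    h.comp.isBounded.image_fst.subset fun x hx => ⟨(x, t), hx, rfl⟩
  exact hb.measure_lt_top.ne

theorem R_nn (t : E M) : 0 ≤ Rv K t := by
  unfold Rv
  positivity

theorem R_vol (h : CB K) (t : E M) : volume (sl K t) = ENNReal.ofReal (Rv K t) := by
  unfold Rv
  rw [ENNReal.ofReal_toReal (sl_fin h t)]

theorem vol_meas (h : CB K) : Measurable fun t => volume (sl K t) := by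
  have h1 : Measurable fun t : E M => ∫⁻ x, K.indicator (fun _ => (1 : ℝ≥0∞)) (x, t) := by
    exact (measurable_const.indicator h.comp.measurableSet).lintegral_prod_left'
  convert h1 using 2 with t
  have e : (fun x => K.indicator (fun _ => (1 : ℝ≥0∞)) (x, t)) =
      (sl K t).indicator (fun _ => 1) := rfl
  rw [e, lintegral_indicator (sl_meas h t), lintegral_const, Measure.restrict_apply_univ, one_mul]

theorem lint_bl (h : CB K) (u : E M → ℝ≥0∞) (hu : Measurable u) :
    ∫⁻ t, u t ∂(bl K) = (volume K)⁻¹ * ∫⁻ t, u t * volume (sl K t) := by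
  rw [bl, lintegral_map hu measurable_snd, un, lintegral_smul_measure, smul_eq_mul]
  congr 1
  have hm : Measurable (K.indicator (fun z : E N × E M => u z.2)) :=
    (hu.comp measurable_snd).indicator h.comp.measurableSet
  rw [← lintegral_indicator h.comp.measurableSet, Measure.volume_eq_prod,
    lintegral_prod_symm' _ hm]
  refine lintegral_congr fun t => ?_
  have e : (fun x => K.indicator (fun z : E N × E M => u z.2) (x, t)) =
      (sl K t).indicator (fun _ => u t) := rfl
  calc ∫⁻ x, K.indicator (fun z : E N × E M => u z.2) (x, t) =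
        ∫⁻ x, (sl K t).indicator (fun _ => u t) x := by rw [e]
    _ = u t * volume (sl K t) := by
        rw [lintegral_indicator (sl_meas h t), lintegral_const, Measure.restrict_apply_univ]

theorem prob (h : CB K) : IsProbabilityMeasure (bl K) := by
  have := Pool.Agent.R754.KG.un_prob h.pos.ne' h.comp.measure_lt_top.ne
  unfold bl
  exact Measure.isProbabilityMeasure_map measurable_snd.aemeasurable

/-- the weights of two points -/
theorem gw_mul {h : ℝ} (P : E M →ₗ[ℝ] E k) (y : E k) (a b : E M) :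
    gw h P y a * gw h P y b =
      gw h P y ((1 / 2 : ℝ) • (a + b)) ^ 2 * Real.exp (-(‖P (a - b)‖ ^ 2 / (4 * h))) := by
  unfold gw
  rw [← Real.exp_add, ← Real.exp_nat_mul, ← Real.exp_add]
  congr 1
  have h1 := parallelogram_law_with_norm ℝ (P a - y) (P b - y)
  have h2 : P ((1 / 2 : ℝ) • (a + b)) - y = (1 / 2 : ℝ) • ((P a - y) + (P b - y)) := by
    rw [map_smul, map_add]
    have : y = (1 / 2 : ℝ) • (y + y) := by
      rw [← two_smul ℝ y, smul_smul]; norm_num
    nth_rewrite 1 [this]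
    rw [← smul_sub]
    congr 1
    abel
  have h3 : P (a - b) = (P a - y) - (P b - y) := by rw [map_sub]; abel
  rw [h2, h3, norm_smul, mul_pow]
  have h4 : ‖(1 / 2 : ℝ)‖ ^ 2 = 1 / 4 := by norm_num
  rw [h4]
  set A := ‖P a - y‖ ^ 2
  set C := ‖P b - y‖ ^ 2
  set S := ‖P a - y + (P b - y)‖ ^ 2 with hS
  set T := ‖P a - y - (P b - y)‖ ^ 2 with hT
  have h5 : S + T = 2 * (A + C) := by
    simp only [hS, hT, A, C, sq]
    linarith [h1]
  have h6 : T = 2 * (A + C) - S := by linarith
  rw [h6]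
  push_cast
  by_cases hh : h = 0
  · subst hh; simp
  · field_simp
    ring

theorem gw_pos {h : ℝ} (P : E M →ₗ[ℝ] E k) (y : E k) (t : E M) : 0 < gw h P y t := Real.exp_pos _

theorem gw_le {h : ℝ} (hh : 0 < h) (P : E M →ₗ[ℝ] E k) (y : E k) (t : E M) : gw h P y t ≤ 1 := by
  unfold gw
  rw [Real.exp_le_one_iff]
  have : 0 ≤ ‖P t - y‖ ^ 2 / (2 * h) := by positivity
  linarith

theorem gw_meas {h : ℝ} (P : E M →ₗ[ℝ] E k) (y : E k) : Measurable (gw h P y) := by
  have hP : Continuous P := P.continuous_of_finiteDimensional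
  unfold gw
  exact (by fun_prop : Continuous fun t => Real.exp (-(‖P t - y‖ ^ 2 / (2 * h)))).measurable

theorem mid_ge (h1 : Pool.Agent.R755.KF.S_GEO) (hK : CB K) (a b : E M) :
    Real.sqrt (Rv K a * Rv K b) ≤ Rv K ((1 / 2 : ℝ) • (a + b)) := by
  have h := h1 N M K hK a b (1 / 2) (by norm_num) (by norm_num)
  have e : (1 - (1 / 2 : ℝ)) = 1 / 2 := by norm_num
  rw [e, ← smul_add, ← Real.sqrt_eq_rpow, ← Real.sqrt_eq_rpow, ← Real.sqrt_mul (R_nn a)] at h
  exact h

/-- the pointwise inequality -/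
theorem pt (h1 : Pool.Agent.R755.KF.S_GEO) (hK : CB K) (P : E M →ₗ[ℝ] E k) (y : E k)
    (h r τ η D : ℝ) (g : E M → ℝ) (B : Set (E M)) (hh : 0 < h) (hr : 0 < r) (hτ : 0 ≤ τ)
    (hη : 0 < η) (hD : 0 < D) (hrη : Real.exp r ≤ 1 + η) (hrD : 8 * r * h ≤ D ^ 2)
    (hg : ∀ t, |g t| ≤ 1)
    (hloc : ∀ a b, a ∉ B → b ∉ B → 0 < Rv K a → 0 < Rv K b →
      Rv K ((1 / 2 : ℝ) • (a + b)) ≤ (1 + η) * Real.sqrt (Rv K a * Rv K b) → ‖P (a - b)‖ ≤ D →
      |g a - g b| ≤ τ) (a b : E M) (ha : a ∉ B) (hb : b ∉ B) :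
    (Real.exp (r * g a) * gw h P y a * Rv K a) * (Real.exp (-(r * g b)) * gw h P y b * Rv K b) ≤
      (Real.exp (r * τ / 2) * gw h P y ((1 / 2 : ℝ) • (a + b)) *
        Rv K ((1 / 2 : ℝ) • (a + b))) ^ 2 := by
  set m : E M := (1 / 2 : ℝ) • (a + b) with hm
  set Ra := Rv K a with hRa
  set Rb := Rv K b with hRb
  set Rm := Rv K m with hRm
  have ha0 : 0 ≤ Ra := R_nn a
  have hb0 : 0 ≤ Rb := R_nn b
  have hm0 : 0 ≤ Rm := R_nn m
  set e0 : ℝ := Real.exp (-(‖P (a - b)‖ ^ 2 / (4 * h))) with he0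
  have he00 : 0 < e0 := Real.exp_pos _
  have he01 : e0 ≤ 1 := by
    rw [he0, Real.exp_le_one_iff]
    have : 0 ≤ ‖P (a - b)‖ ^ 2 / (4 * h) := by positivity
    linarith
  have hw := gw_mul (h := h) P y a b
  rw [← hm, ← he0] at hw
  have hwm : 0 < gw h P y m := gw_pos P y m
  have hgd : g a - g b ≤ 2 := by
    have h2 := (abs_le.1 (hg a)).2
    have h3 := (abs_le.1 (hg b)).1
    linarith
  have hmid := mid_ge h1 hK a b
  rw [← hm, ← hRa, ← hRb, ← hRm] at hmid
  have hRR : Ra * Rb ≤ Rm ^ 2 := by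
    calc Ra * Rb = Real.sqrt (Ra * Rb) ^ 2 := (Real.sq_sqrt (by positivity)).symm
      _ ≤ Rm ^ 2 := by gcongr
  -- the key inequality
  have key : Real.exp (r * (g a - g b)) * e0 * (Ra * Rb) ≤ Real.exp (r * τ) * Rm ^ 2 := by
    have hτ1 : 1 ≤ Real.exp (r * τ) := Real.one_le_exp (by positivity)
    have hE : Real.exp (r * (g a - g b)) ≤ Real.exp (2 * r) := by
      rw [Real.exp_le_exp]; nlinarith
    rcases ha0.eq_or_lt with ha1 | ha1
    · rw [← ha1, zero_mul, mul_zero]; positivity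
    rcases hb0.eq_or_lt with hb1 | hb1
    · rw [← hb1, mul_zero, mul_zero]; positivity
    by_cases hc1 : Rm ≤ (1 + η) * Real.sqrt (Ra * Rb)
    · by_cases hc2 : ‖P (a - b)‖ ≤ D
      · have h2 := hloc a b ha hb ha1 hb1 hc1 hc2
        have h3 : Real.exp (r * (g a - g b)) ≤ Real.exp (r * τ) := by
          rw [Real.exp_le_exp]
          exact mul_le_mul_of_nonneg_left (le_trans (le_abs_self _) h2) hr.le
        calc Real.exp (r * (g a - g b)) * e0 * (Ra * Rb) ≤ Real.exp (r * τ) * 1 * Rm ^ 2 := by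
              gcongr
          _ = _ := by ring
      · push Not at hc2
        have h3 : e0 ≤ Real.exp (-(2 * r)) := by
          rw [he0, Real.exp_le_exp, neg_le_neg_iff, le_div_iff₀ (by positivity)]
          have : D ^ 2 ≤ ‖P (a - b)‖ ^ 2 := by gcongr
          nlinarith
        calc Real.exp (r * (g a - g b)) * e0 * (Ra * Rb)
            ≤ Real.exp (2 * r) * Real.exp (-(2 * r)) * Rm ^ 2 := by gcongr
          _ = Rm ^ 2 := by rw [← Real.exp_add, add_neg_cancel, Real.exp_zero, one_mul]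
          _ ≤ Real.exp (r * τ) * Rm ^ 2 := le_mul_of_one_le_left (by positivity) hτ1
    · push Not at hc1
      have h3 : (1 + η) ^ 2 * (Ra * Rb) ≤ Rm ^ 2 := by
        calc (1 + η) ^ 2 * (Ra * Rb) = ((1 + η) * Real.sqrt (Ra * Rb)) ^ 2 := by
              rw [mul_pow, Real.sq_sqrt (by positivity)]
          _ ≤ Rm ^ 2 := by gcongr
      have h4 : Real.exp (2 * r) ≤ (1 + η) ^ 2 := by
        have : Real.exp (2 * r) = Real.exp r ^ 2 := by rw [← Real.exp_nat_mul]; norm_num
        rw [this]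
        gcongr
      calc Real.exp (r * (g a - g b)) * e0 * (Ra * Rb)
          ≤ (1 + η) ^ 2 * 1 * (Ra * Rb) := by
            gcongr
            exact hE.trans h4
        _ = (1 + η) ^ 2 * (Ra * Rb) := by ring
        _ ≤ Rm ^ 2 := h3
        _ ≤ Real.exp (r * τ) * Rm ^ 2 := le_mul_of_one_le_left (by positivity) hτ1
  have e1 : Real.exp (r * g a) * Real.exp (-(r * g b)) = Real.exp (r * (g a - g b)) := by
    rw [← Real.exp_add]; congr 1; ring
  have e2 : Real.exp (r * τ / 2) ^ 2 = Real.exp (r * τ) := by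
    rw [← Real.exp_nat_mul]; congr 1; push_cast; ring
  calc (Real.exp (r * g a) * gw h P y a * Ra) * (Real.exp (-(r * g b)) * gw h P y b * Rb)
      = (Real.exp (r * g a) * Real.exp (-(r * g b))) * (gw h P y a * gw h P y b) * (Ra * Rb) := by
        ring
    _ = gw h P y m ^ 2 * (Real.exp (r * (g a - g b)) * e0 * (Ra * Rb)) := by
        rw [e1, hw]; ring
    _ ≤ gw h P y m ^ 2 * (Real.exp (r * τ) * Rm ^ 2) :=
        mul_le_mul_of_nonneg_left key (by positivity)
    _ = (Real.exp (r * τ / 2) * gw h P y m * Rm) ^ 2 := by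
        rw [← e2]; ring

/-- bounded nonnegative functions: integral and lower integral -/
theorem int_lint {ρ : Measure (E M)} [IsProbabilityMeasure ρ] (u : E M → ℝ) (hu : Measurable u)
    (h0 : ∀ t, 0 ≤ u t) (C : ℝ) (hC : ∀ t, u t ≤ C) :
    ∫⁻ t, ENNReal.ofReal (u t) ∂ρ = ENNReal.ofReal (∫ t, u t ∂ρ) := by
  have hi : Integrable u ρ := by
    refine Integrable.of_bound hu.aestronglyMeasurable C (Eventually.of_forall fun t => ?_)
    rw [Real.norm_eq_abs, abs_of_nonneg (h0 t)]
    exact hC t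
  exact (ofReal_integral_eq_lintegral_ofReal hi (Eventually.of_forall h0)).symm

end KS2aux

open KS2aux in
/-- KS2 -/
theorem bpl (h1 : Pool.Agent.R755.KF.S_GEO) : S_BPL := by
  intro N M k K P y h r τ η D g B hK hh hr hτ hη hD hrη hrD hgm hg hB hloc
  have := prob hK
  have hwm := gw_meas (h := h) P y
  set F : E M → ℝ := Bᶜ.indicator (fun t => Real.exp (r * g t) * gw h P y t) with hF
  set G : E M → ℝ := Bᶜ.indicator (fun t => Real.exp (-(r * g t)) * gw h P y t) with hG
  set H : E M → ℝ := fun t => Real.exp (r * τ / 2) * gw h P y t with hH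
  have hFm : Measurable F :=
    (((hgm.const_mul r).exp).mul hwm).indicator hB.compl
  have hGm : Measurable G :=
    (((hgm.const_mul r).neg.exp).mul hwm).indicator hB.compl
  have hHm : Measurable H := hwm.const_mul _
  have hF0 : ∀ t, 0 ≤ F t := fun t => indicator_nonneg (fun t _ => by
    have := gw_pos (h := h) P y t; positivity) t
  have hG0 : ∀ t, 0 ≤ G t := fun t => indicator_nonneg (fun t _ => by
    have := gw_pos (h := h) P y t; positivity) t
  have hH0 : ∀ t, 0 ≤ H t := fun t => by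
    have := gw_pos (h := h) P y t
    simp only [hH]; positivity
  have hexp : ∀ t, Real.exp (r * g t) ≤ Real.exp r ∧ Real.exp (-(r * g t)) ≤ Real.exp r := by
    intro t
    obtain ⟨h2, h3⟩ := abs_le.1 (hg t)
    constructor
    · rw [Real.exp_le_exp]; nlinarith
    · rw [Real.exp_le_exp]; nlinarith
  have hFb : ∀ t, F t ≤ Real.exp r := fun t => by
    refine indicator_le' (g := fun _ => Real.exp r) (fun t _ => ?_) (fun t _ => (Real.exp_pos r).le) t
    calc Real.exp (r * g t) * gw h P y t ≤ Real.exp r * 1 :=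
          mul_le_mul (hexp t).1 (gw_le hh P y t) (gw_pos P y t).le (Real.exp_pos r).le
      _ = Real.exp r := mul_one _
  have hGb : ∀ t, G t ≤ Real.exp r := fun t => by
    refine indicator_le' (g := fun _ => Real.exp r) (fun t _ => ?_) (fun t _ => (Real.exp_pos r).le) t
    calc Real.exp (-(r * g t)) * gw h P y t ≤ Real.exp r * 1 :=
          mul_le_mul (hexp t).2 (gw_le hh P y t) (gw_pos P y t).le (Real.exp_pos r).le
      _ = Real.exp r := mul_one _
  have hHb : ∀ t, H t ≤ Real.exp (r * τ / 2) := fun t => by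
    calc H t ≤ Real.exp (r * τ / 2) * 1 := mul_le_mul_of_nonneg_left (gw_le hh P y t) (Real.exp_pos _).le
      _ = _ := mul_one _
  -- Prékopa–Leindler
  have hpl := Pool.Agent.PZ871.M_pl.pl M (fun t => ENNReal.ofReal (F t) * volume (sl K t))
    (fun t => ENNReal.ofReal (G t) * volume (sl K t))
    (fun t => ENNReal.ofReal (H t) * volume (sl K t))
    (hFm.ennreal_ofReal.mul (vol_meas hK)) (hGm.ennreal_ofReal.mul (vol_meas hK))
    (hHm.ennreal_ofReal.mul (vol_meas hK)) (by
      intro a b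
      by_cases ha : a ∈ B
      · have : F a = 0 := indicator_of_notMem (fun hc : a ∈ Bᶜ => hc ha) _
        rw [this, ENNReal.ofReal_zero, zero_mul, zero_mul]
        exact zero_le
      by_cases hb : b ∈ B
      · have : G b = 0 := indicator_of_notMem (fun hc : b ∈ Bᶜ => hc hb) _
        rw [this, ENNReal.ofReal_zero, zero_mul, mul_zero]
        exact zero_le
      have eF : F a = Real.exp (r * g a) * gw h P y a := indicator_of_mem ha _
      have eG : G b = Real.exp (-(r * g b)) * gw h P y b := indicator_of_mem hb _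
      have hp := pt h1 hK P y h r τ η D g B hh hr hτ hη hD hrη hrD hg hloc a b ha hb
      rw [R_vol hK a, R_vol hK b, R_vol hK, ← ENNReal.ofReal_mul (hF0 a),
        ← ENNReal.ofReal_mul (hG0 b), ← ENNReal.ofReal_mul (hH0 _),
        ← ENNReal.ofReal_mul (mul_nonneg (hF0 a) (R_nn a)),
        ← ENNReal.ofReal_pow (mul_nonneg (hH0 _) (R_nn _))]
      refine ENNReal.ofReal_le_ofReal ?_
      rw [eF, eG]
      exact hp)
  have hL : (∫⁻ t, ENNReal.ofReal (F t) ∂(bl K)) * (∫⁻ t, ENNReal.ofReal (G t) ∂(bl K)) ≤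
      (∫⁻ t, ENNReal.ofReal (H t) ∂(bl K)) ^ 2 := by
    rw [lint_bl hK _ hFm.ennreal_ofReal, lint_bl hK _ hGm.ennreal_ofReal,
      lint_bl hK _ hHm.ennreal_ofReal]
    calc (volume K)⁻¹ * (∫⁻ t, ENNReal.ofReal (F t) * volume (sl K t)) *
          ((volume K)⁻¹ * ∫⁻ t, ENNReal.ofReal (G t) * volume (sl K t))
        = (volume K)⁻¹ ^ 2 * ((∫⁻ t, ENNReal.ofReal (F t) * volume (sl K t)) *
          ∫⁻ t, ENNReal.ofReal (G t) * volume (sl K t)) := by ring
      _ ≤ (volume K)⁻¹ ^ 2 * (∫⁻ t, ENNReal.ofReal (H t) * volume (sl K t)) ^ 2 := by gcongr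
      _ = _ := by ring
  rw [int_lint F hFm hF0 _ hFb, int_lint G hGm hG0 _ hGb, int_lint H hHm hH0 _ hHb,
    ← ENNReal.ofReal_mul (integral_nonneg hF0), ← ENNReal.ofReal_pow (integral_nonneg hH0),
    ENNReal.ofReal_le_ofReal_iff (by positivity)] at hL
  have e1 : ∫ t, F t ∂(bl K) = ∫ t in Bᶜ, Real.exp (r * g t) * gw h P y t ∂(bl K) :=
    integral_indicator hB.compl
  have e2 : ∫ t, G t ∂(bl K) = ∫ t in Bᶜ, Real.exp (-(r * g t)) * gw h P y t ∂(bl K) :=
    integral_indicator hB.compl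
  have e3 : ∫ t, H t ∂(bl K) = Real.exp (r * τ / 2) * ∫ t, gw h P y t ∂(bl K) :=
    integral_const_mul _ _
  have e4 : Real.exp (r * τ / 2) ^ 2 = Real.exp (r * τ) := by
    rw [← Real.exp_nat_mul]; congr 1; push_cast; ring
  rw [e1, e2, e3, mul_pow, e4] at hL
  exact hL

end Pool.Agent.R755.KS
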