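import Pool.Agent.R755.KS.Defs
import Pool.Agent.H888R2.KT.N0

/-!
# KS3: the Gaussian channel
-/

set_option autoImplicit false

namespace Pool.Agent.R755.KS

open MeasureTheory Set Filter Topology
open scoped ENNReal InnerProductSpace
open Pool.Agent.H888R2.KT (gs gc gc_pos)
open Pool.Agent.R754.KG (E un sl Rv)
open Pool.Agent.R755.KF (BL PB KW CB lw ey)

namespace KS3aux

variable {M k : ℕ}

theorem pc (P : E M →ₗ[ℝ] E k) : Continuous P := LinearMap.continuous_of_finiteDimensional P

theorem gw_pos {h : ℝ} (P : E M →ₗ[ℝ] E k) (y : E k) (t : E M) : 0 < gw h P y t :=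
  Real.exp_pos _

theorem gw_le {h : ℝ} (hh : 0 < h) (P : E M →ₗ[ℝ] E k) (y : E k) (t : E M) : gw h P y t ≤ 1 := by
  unfold gw
  rw [Real.exp_le_one_iff]
  have : 0 ≤ ‖P t - y‖ ^ 2 / (2 * h) := by positivity
  linarith

theorem gw_cont (h : ℝ) (P : E M →ₗ[ℝ] E k) :
    Continuous fun z : E M × E k => gw h P z.2 z.1 := by
  have hP := pc P
  unfold gw
  fun_prop

theorem gw_c1 (h : ℝ) (P : E M →ₗ[ℝ] E k) (y : E k) : Continuous (gw h P y) := by
  have hP := pc P
  unfold gw
  fun_prop

theorem gw_c2 (h : ℝ) (P : E M →ₗ[ℝ] E k) (t : E M) : Continuous fun y => gw h P y t := by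
  unfold gw
  fun_prop

theorem gw_prod {h : ℝ} (hh : 0 < h) (P : E M →ₗ[ℝ] E k) (ρ : Measure (E M))
    [IsProbabilityMeasure ρ] :
    Integrable (fun z : E M × E k => gw h P z.2 z.1) (ρ.prod volume) := by
  have hgc := gc_pos (κ := Fin k) h hh
  rw [integrable_prod_iff (gw_cont h P).aestronglyMeasurable]
  refine ⟨Filter.Eventually.of_forall fun x => hgc.2.2.1 (P x), ?_⟩
  have : (fun x : E M => ∫ y, ‖gw h P (x, y).2 (x, y).1‖) = fun _ => gc (Fin k) h := by
    funext x
    rw [← hgc.2.1 (P x)]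
    refine integral_congr_ae (Filter.Eventually.of_forall fun y => ?_)
    exact Real.norm_of_nonneg (gw_pos P y x).le
  rw [this]
  exact integrable_const _

theorem prod_int {h : ℝ} (hh : 0 < h) (P : E M →ₗ[ℝ] E k) (ρ : Measure (E M))
    [IsProbabilityMeasure ρ] {F : E M → ℝ} {ψ : E k → ℝ} {a b : ℝ} (hF : Measurable F)
    (hFb : ∀ t, |F t| ≤ a) (hψ : Continuous ψ) (hψb : ∀ y, |ψ y| ≤ b) :
    Integrable (fun z : E M × E k => (F z.1 * ψ z.2) * gw h P z.2 z.1) (ρ.prod volume) := by
  refine (gw_prod hh P ρ).bdd_mul (c := a * b) ?_ ?_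
  · exact ((hF.comp measurable_fst).mul (hψ.measurable.comp measurable_snd)).aestronglyMeasurable
  · refine Filter.Eventually.of_forall fun z => ?_
    rw [norm_mul, Real.norm_eq_abs, Real.norm_eq_abs]
    exact mul_le_mul (hFb _) (hψb _) (abs_nonneg _) ((abs_nonneg _).trans (hFb z.1))

theorem fub {h : ℝ} (hh : 0 < h) (P : E M →ₗ[ℝ] E k) (ρ : Measure (E M))
    [IsProbabilityMeasure ρ] {F : E M → ℝ} {ψ : E k → ℝ} {a b : ℝ} (hF : Measurable F)
    (hFb : ∀ t, |F t| ≤ a) (hψ : Continuous ψ) (hψb : ∀ y, |ψ y| ≤ b) :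
    Integrable (fun y => ψ y * ∫ t, F t * gw h P y t ∂ρ) ∧
    Integrable (fun t => F t * gs h ψ (P t)) ρ ∧
    ∫ y, ψ y * ∫ t, F t * gw h P y t ∂ρ = gc (Fin k) h * ∫ t, F t * gs h ψ (P t) ∂ρ := by
  have hgc := (gc_pos (κ := Fin k) h hh).1
  have hI := prod_int hh P ρ hF hFb hψ hψb
  have hy : ∀ y, ∫ t, (F t * ψ y) * gw h P y t ∂ρ = ψ y * ∫ t, F t * gw h P y t ∂ρ := by
    intro y
    rw [← integral_const_mul]
    refine integral_congr_ae (Filter.Eventually.of_forall fun t => ?_)
    simp only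
    ring
  have hx : ∀ t, ∫ y, (F t * ψ y) * gw h P y t = gc (Fin k) h * (F t * gs h ψ (P t)) := by
    intro t
    have e : gc (Fin k) h * (F t * gs h ψ (P t)) =
        F t * ∫ y, ψ y * Real.exp (-(‖P t - y‖ ^ 2 / (2 * h))) := by
      unfold gs
      field_simp
    rw [e, ← integral_const_mul]
    refine integral_congr_ae (Filter.Eventually.of_forall fun y => ?_)
    simp only [gw]
    ring
  refine ⟨?_, ?_, ?_⟩
  · exact hI.integral_prod_right.congr (Filter.Eventually.of_forall fun y => hy y)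
  · have h1 := hI.integral_prod_left.const_mul (gc (Fin k) h)⁻¹
    refine h1.congr (Filter.Eventually.of_forall fun t => ?_)
    simp only
    rw [hx, ← mul_assoc, inv_mul_cancel₀ hgc.ne', one_mul]
  · have h1 := integral_integral_swap (f := fun t y => (F t * ψ y) * gw h P y t) (μ := ρ)
      (ν := volume) hI
    simp only [hy, hx] at h1
    rw [integral_const_mul] at h1
    exact h1.symm

theorem int_gw {h : ℝ} (hh : 0 < h) (P : E M →ₗ[ℝ] E k) (ρ : Measure (E M))
    [IsProbabilityMeasure ρ] {F : E M → ℝ} {a : ℝ} (hF : Measurable F)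
    (hFb : ∀ t, |F t| ≤ a) (y : E k) : Integrable (fun t => F t * gw h P y t) ρ := by
  refine Integrable.of_bound (hF.mul (gw_c1 h P y).measurable).aestronglyMeasurable a
    (Filter.Eventually.of_forall fun t => ?_)
  rw [norm_mul, Real.norm_eq_abs, Real.norm_of_nonneg (gw_pos P y t).le]
  calc |F t| * gw h P y t ≤ a * 1 :=
        mul_le_mul (hFb t) (gw_le hh P y t) (gw_pos P y t).le ((abs_nonneg _).trans (hFb t))
    _ = a := mul_one _

theorem cont_N {h : ℝ} (hh : 0 < h) (P : E M →ₗ[ℝ] E k) (ρ : Measure (E M))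
    [IsProbabilityMeasure ρ] {F : E M → ℝ} {a : ℝ} (hF : Measurable F)
    (hFb : ∀ t, |F t| ≤ a) : Continuous fun y => ∫ t, F t * gw h P y t ∂ρ := by
  refine continuous_of_dominated (bound := fun _ => a) ?_ ?_ (integrable_const _) ?_
  · intro y
    exact (hF.mul (gw_c1 h P y).measurable).aestronglyMeasurable
  · intro y
    refine Filter.Eventually.of_forall fun t => ?_
    rw [norm_mul, Real.norm_eq_abs, Real.norm_of_nonneg (gw_pos P y t).le]
    calc |F t| * gw h P y t ≤ a * 1 :=
          mul_le_mul (hFb t) (gw_le hh P y t) (gw_pos P y t).le ((abs_nonneg _).trans (hFb t))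
      _ = a := mul_one _
  · exact Filter.Eventually.of_forall fun t => continuous_const.mul (gw_c2 h P t)

theorem gs_bd {h : ℝ} (hh : 0 < h) {f : E k → ℝ} {B : ℝ} (hB : ∀ y, |f y| ≤ B)
    (x : E k) : |gs h f x| ≤ B := by
  obtain ⟨hg0, hg1, hg2, -⟩ := gc_pos (κ := Fin k) h hh
  unfold gs
  rw [abs_div, abs_of_pos hg0, div_le_iff₀ hg0]
  have h1 : ‖∫ y, f y * Real.exp (-(‖x - y‖ ^ 2 / (2 * h)))‖ ≤
      ∫ y, B * Real.exp (-(‖x - y‖ ^ 2 / (2 * h))) := by
    refine norm_integral_le_of_norm_le ((hg2 x).const_mul B) ?_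
    refine Filter.Eventually.of_forall fun y => ?_
    rw [norm_mul, Real.norm_eq_abs, Real.norm_of_nonneg (Real.exp_pos _).le]
    exact mul_le_mul_of_nonneg_right (hB y) (Real.exp_pos _).le
  rw [integral_const_mul, hg1] at h1
  exact h1

theorem gs_one {h : ℝ} (hh : 0 < h) (x : E k) : gs h (fun _ : E k => (1 : ℝ)) x = 1 := by
  obtain ⟨hg0, hg1, hg2, -⟩ := gc_pos (κ := Fin k) h hh
  unfold gs
  simp only [one_mul]
  rw [hg1, div_self hg0.ne']

end KS3aux

open KS3aux

theorem chan (h1 : Pool.Agent.R755.KF.S_BE) : S_CHAN := by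
  intro M k ρ P g B h A δ α β B0 hPB hh hA hAh hδ hα hβ hg hg1 hB hBP hV
  have hprob := hPB.prob
  obtain ⟨hg0, hgc1, hgc2, -⟩ := gc_pos (κ := Fin k) h hh
  have hP := pc P
  -- the functions
  set Z : E k → ℝ := fun y => ∫ t, gw h P y t ∂ρ with hZ
  set N : E k → ℝ := fun y => ∫ t, g t * gw h P y t ∂ρ with hN
  set N2 : E k → ℝ := fun y => ∫ t, g t ^ 2 * gw h P y t ∂ρ with hN2
  set NB : E k → ℝ := fun y => ∫ t in B, gw h P y t ∂ρ with hNB
  set gm : ℝ := ∫ t, g t ∂ρ with hgm
  have hone : ∀ t : E M, |(1 : ℝ)| ≤ 1 := fun _ => by simp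
  have hZe : ∀ y, Z y = ∫ t, (1 : ℝ) * gw h P y t ∂ρ := fun y => by simp only [hZ, one_mul]
  have hNBe : ∀ y, NB y = ∫ t, B.indicator (fun _ => (1 : ℝ)) t * gw h P y t ∂ρ := by
    intro y
    simp only [hNB]
    rw [← integral_indicator hB]
    refine integral_congr_ae (Filter.Eventually.of_forall fun t => ?_)
    by_cases ht : t ∈ B <;> simp [ht]
  have hgint : Integrable g ρ :=
    Integrable.of_bound hg.aestronglyMeasurable 1 (Filter.Eventually.of_forall fun t => hg1 t)
  have hg2b : ∀ t, |g t ^ 2| ≤ 1 := fun t => by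
    rw [abs_pow]
    exact pow_le_one₀ (abs_nonneg _) (hg1 t)
  have hg2int : Integrable (fun t => g t ^ 2) ρ :=
    Integrable.of_bound (hg.pow_const 2).aestronglyMeasurable 1
      (Filter.Eventually.of_forall fun t => hg2b t)
  have hgm1 : |gm| ≤ 1 := by
    have := norm_integral_le_of_norm_le_const (μ := ρ) (f := g) (C := 1)
      (Filter.Eventually.of_forall fun t => hg1 t)
    simpa using this
  have hZpos : ∀ y, 0 < Z y := by
    intro y
    have hi := int_gw hh P ρ measurable_const hone y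
    simp only [one_mul] at hi
    exact integral_exp_pos hi
  have hZint : ∀ y, Integrable (gw h P y) ρ := by
    intro y
    have hi := int_gw hh P ρ measurable_const hone y
    simpa only [one_mul] using hi
  have hNZ : ∀ y, |N y| ≤ Z y := by
    intro y
    have := norm_integral_le_of_norm_le (μ := ρ) (f := fun t => g t * gw h P y t)
      (g := gw h P y) (hZint y) (Filter.Eventually.of_forall fun t => by
        rw [norm_mul, Real.norm_eq_abs, Real.norm_of_nonneg (gw_pos P y t).le]
        calc |g t| * gw h P y t ≤ 1 * gw h P y t :=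
              mul_le_mul_of_nonneg_right (hg1 t) (gw_pos P y t).le
          _ = gw h P y t := one_mul _)
    exact this
  set κ : E k → ℝ := fun y => N y / Z y - gm with hκ
  have hκb : ∀ y, |κ y| ≤ 2 := by
    intro y
    have e1 : |N y / Z y| ≤ 1 := by
      rw [abs_div, abs_of_pos (hZpos y), div_le_one (hZpos y)]
      exact hNZ y
    have := abs_sub (N y / Z y) gm
    simp only [hκ]
    linarith
  have hNc : Continuous N := cont_N hh P ρ hg hg1
  have hZc : Continuous Z := by
    have := cont_N hh P ρ (F := fun _ => (1 : ℝ)) measurable_const hone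
    simp only [one_mul] at this
    exact this
  have hκc : Continuous κ := (hNc.div hZc fun y => (hZpos y).ne').sub continuous_const
  have hκ2b : ∀ y, |κ y ^ 2| ≤ 4 := by
    intro y
    rw [abs_pow]
    have := pow_le_pow_left₀ (abs_nonneg _) (hκb y) 2
    linarith
  -- bounds for g - gm
  set q : E M → ℝ := fun t => g t - gm with hq
  have hqm : Measurable q := hg.sub measurable_const
  have hqb : ∀ t, |q t| ≤ 2 := by
    intro t
    have := abs_sub (g t) gm
    have := hg1 t
    simp only [hq]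
    linarith
  have hq2b : ∀ t, |q t ^ 2| ≤ 4 := by
    intro t
    rw [abs_pow]
    have := pow_le_pow_left₀ (abs_nonneg _) (hqb t) 2
    linarith
  have hone' : ∀ y : E k, |(fun _ : E k => (1 : ℝ)) y| ≤ 1 := fun _ => by simp
  -- Fubini
  obtain ⟨i1, j1, f1⟩ := fub hh P ρ hqm hqb hκc hκb
  obtain ⟨i2, j2, f2⟩ := fub hh P ρ (F := fun _ => (1 : ℝ)) (ψ := fun y => κ y ^ 2)
    measurable_const hone (hκc.pow 2) hκ2b
  obtain ⟨i3, j3, f3⟩ := fub hh P ρ (hqm.pow_const 2) hq2b continuous_const hone'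
  obtain ⟨i4, j4, f4⟩ := fub hh P ρ (F := B.indicator fun _ => (1 : ℝ)) (a := 1)
    (measurable_const.indicator hB) (fun t => by
      by_cases ht : t ∈ B <;> simp [ht]) continuous_const hone'
  obtain ⟨i5, j5, f5⟩ := fub hh P ρ (F := fun _ => (1 : ℝ)) measurable_const hone
    continuous_const hone'
  simp only [one_mul, gs_one hh, mul_one] at i2 j2 f2 i3 j3 f3 i4 j4 f4 i5 j5 f5
  simp only [← hNBe] at i4 f4
  have i2' : Integrable (fun y => κ y ^ 2 * Z y) := i2
  have f2' : ∫ y, κ y ^ 2 * Z y = gc (Fin k) h * ∫ t, gs h (fun y => κ y ^ 2) (P t) ∂ρ := f2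
  have hq1 : ∀ y, ∫ t, q t * gw h P y t ∂ρ = Z y * κ y := by
    intro y
    have e : ∀ t, q t * gw h P y t = g t * gw h P y t - gm * gw h P y t := fun t => by
      simp only [hq]
      ring
    simp_rw [e]
    rw [integral_sub (int_gw hh P ρ hg hg1 y) ((hZint y).const_mul gm), integral_const_mul]
    have hz := (hZpos y).ne'
    change N y - gm * Z y = Z y * (N y / Z y - gm)
    field_simp
  have hq2 : ∀ y, ∫ t, q t ^ 2 * gw h P y t ∂ρ = N2 y - 2 * gm * N y + gm ^ 2 * Z y := by
    intro y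
    have e : ∀ t, q t ^ 2 * gw h P y t = (g t ^ 2 * gw h P y t - 2 * gm * (g t * gw h P y t)) +
        gm ^ 2 * gw h P y t := fun t => by
      simp only [hq]
      ring
    simp_rw [e]
    have k1 := int_gw hh P ρ (hg.pow_const 2) hg2b y
    have k2 := (int_gw hh P ρ hg hg1 y).const_mul (2 * gm)
    have k3 := (hZint y).const_mul (gm ^ 2)
    have k12 : Integrable (fun t => g t ^ 2 * gw h P y t - 2 * gm * (g t * gw h P y t)) ρ :=
      k1.sub k2
    rw [integral_add k12 k3, integral_sub k1 k2, integral_const_mul, integral_const_mul]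
  have hpt : ∀ y, ∫ t, q t ^ 2 * gw h P y t ∂ρ ≤ α * Z y + β * NB y + κ y ^ 2 * Z y := by
    intro y
    rw [hq2 y]
    have hz := hZpos y
    have hv : N2 y * Z y - N y ^ 2 ≤ (α * Z y + β * NB y) * Z y := hV y
    have e1 : N2 y - N y ^ 2 / Z y ≤ α * Z y + β * NB y := by
      have e2 : N2 y - N y ^ 2 / Z y = (N2 y * Z y - N y ^ 2) / Z y := by
        field_simp
      rw [e2, div_le_iff₀ hz]
      exact hv
    have e3 : κ y ^ 2 * Z y = N y ^ 2 / Z y - 2 * gm * N y + gm ^ 2 * Z y := by
      have hz' := hz.ne'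
      change (N y / Z y - gm) ^ 2 * Z y = _
      field_simp
      ring
    rw [e3]
    linarith
  -- the first inequality
  set V : ℝ := ∫ t, q t ^ 2 ∂ρ with hVd
  set X : ℝ := ∫ t, gs h (fun y => κ y ^ 2) (P t) ∂ρ with hX
  have hρB : ∫ t, B.indicator (fun _ => (1 : ℝ)) t ∂ρ = ρ.real B := by
    rw [integral_indicator hB]
    simp
  rw [hρB] at f4
  have f5' : ∫ y, Z y = gc (Fin k) h := by
    rw [f5]
    simp
  have i5' : Integrable Z := i5
  have hV1 : V ≤ α + β * ρ.real B + X := by
    have e1 : ∫ y, (∫ t, q t ^ 2 * gw h P y t ∂ρ) ≤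
        ∫ y, ((α * Z y + β * NB y) + κ y ^ 2 * Z y) :=
      integral_mono i3 (((i5'.const_mul α).add (i4.const_mul β)).add i2') hpt
    have e0 : Integrable (fun y => α * Z y + β * NB y) :=
      (i5'.const_mul α).add (i4.const_mul β)
    rw [f3, integral_add e0 i2', integral_add (i5'.const_mul α) (i4.const_mul β),
      integral_const_mul, integral_const_mul, f5', f4, f2'] at e1
    have e2 : gc (Fin k) h * V ≤ gc (Fin k) h * (α + β * ρ.real B + X) := by
      linarith
    exact le_of_mul_le_mul_left e2 hg0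
  -- the second inequality
  set u : E M → ℝ := fun t => gs h κ (P t) with hu
  have hXq : X = ∫ t, q t * u t ∂ρ := by
    have e1 : ∀ y, κ y * ∫ t, q t * gw h P y t ∂ρ = κ y ^ 2 * Z y := by
      intro y
      rw [hq1 y]
      ring
    simp_rw [e1] at f1
    rw [f2'] at f1
    exact mul_left_cancel₀ hg0.ne' f1
  obtain ⟨b1, -, b3⟩ := h1 k h 2 κ hh hκc hκb
  have hub : ∀ t, |u t| ≤ 2 := fun t => gs_bd hh hκb (P t)
  have huc : Continuous u := b1.continuous.comp hP
  have huint : Integrable u ρ :=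
    Integrable.of_bound huc.aestronglyMeasurable 2 (Filter.Eventually.of_forall fun t => hub t)
  have hu2int : Integrable (fun t => u t ^ 2) ρ := by
    refine Integrable.of_bound (huc.pow 2).aestronglyMeasurable 4
      (Filter.Eventually.of_forall fun t => ?_)
    rw [Real.norm_eq_abs, abs_pow]
    have := pow_le_pow_left₀ (abs_nonneg _) (hub t) 2
    linarith
  set um : ℝ := ∫ t, u t ∂ρ with hum
  set W : ℝ := (∫ t, u t ^ 2 ∂ρ) - um ^ 2 with hW
  have hqint : Integrable q ρ := hgint.sub (integrable_const _)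
  have hq0 : ∫ t, q t ∂ρ = 0 := by
    simp only [hq]
    rw [integral_sub hgint (integrable_const _), integral_const, probReal_univ, one_smul, ← hgm,
      sub_self]
  have hX1 : X ≤ V / 4 + W := by
    have e1 : X = ∫ t, (q t * u t - um * q t) ∂ρ := by
      rw [integral_sub j1 (hqint.const_mul um), integral_const_mul, hq0, mul_zero, sub_zero]
      exact hXq
    have e2 : Integrable (fun t => (u t ^ 2 - 2 * um * u t) + um ^ 2) ρ :=
      (hu2int.sub (huint.const_mul _)).add (integrable_const _)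
    have e2' : Integrable (fun t => u t ^ 2 - 2 * um * u t) ρ := hu2int.sub (huint.const_mul _)
    have e3 : V / 4 + W = ∫ t, (q t ^ 2 / 4 + ((u t ^ 2 - 2 * um * u t) + um ^ 2)) ∂ρ := by
      rw [integral_add (j3.div_const 4) e2, integral_div, integral_add e2' (integrable_const _),
        integral_sub hu2int (huint.const_mul _), integral_const_mul]
      simp only [integral_const, probReal_univ, one_smul, hW, hVd]
      ring
    rw [e1, e3]
    refine integral_mono (j1.sub (hqint.const_mul um)) ((j3.div_const 4).add e2) fun t => ?_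
    simp only
    nlinarith [sq_nonneg (q t / 2 - (u t - um))]
  -- the third inequality
  have hX0 : 0 ≤ X := by
    refine integral_nonneg fun t => ?_
    simp only [Pi.zero_apply]
    unfold gs
    refine div_nonneg (integral_nonneg fun y => ?_) hg0.le
    exact mul_nonneg (sq_nonneg _) (Real.exp_pos _).le
  have hW1 : W ≤ 4 * δ + X / 16 := by
    set v : E k → ℝ := fun y => (1 / 2 : ℝ) * gs h κ y with hv
    have hfd : ∀ y, fderiv ℝ v y = (1 / 2 : ℝ) • fderiv ℝ (gs h κ) y := by
      intro y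
      have := ((b1.differentiable (by norm_num)) y).hasFDerivAt.const_mul (1 / 2 : ℝ)
      exact this.fderiv
    have hgr : ∀ y, ‖fderiv ℝ v y‖ ^ 2 ≤ 1 / (4 * h) * gs h (fun y => κ y ^ 2) y := by
      intro y
      rw [hfd y, norm_smul, mul_pow]
      have e1 := b3 y
      have e2 : h * ‖fderiv ℝ (gs h κ) y‖ ^ 2 ≤ gs h (fun y => κ y ^ 2) y := by
        nlinarith [sq_nonneg (gs h κ y)]
      have e3 : ‖fderiv ℝ (gs h κ) y‖ ^ 2 ≤ gs h (fun y => κ y ^ 2) y / h := by
        rw [le_div_iff₀ hh]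
        linarith
      have e4 : ‖(1 / 2 : ℝ)‖ ^ 2 = 1 / 4 := by norm_num
      rw [e4]
      calc 1 / 4 * ‖fderiv ℝ (gs h κ) y‖ ^ 2 ≤ 1 / 4 * (gs h (fun y => κ y ^ 2) y / h) :=
            mul_le_mul_of_nonneg_left e3 (by norm_num)
        _ = _ := by
            have := hh.ne'
            field_simp
    have hgr2 : ∀ y, ‖fderiv ℝ v y‖ ^ 2 ≤ 1 / h := by
      intro y
      refine (hgr y).trans ?_
      have e1 : gs h (fun y => κ y ^ 2) y ≤ 4 := (le_abs_self _).trans (gs_bd hh hκ2b y)
      calc 1 / (4 * h) * gs h (fun y => κ y ^ 2) y ≤ 1 / (4 * h) * 4 :=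
            mul_le_mul_of_nonneg_left e1 (by positivity)
        _ = 1 / h := by
            have := hh.ne'
            field_simp
    have hv1 : ∀ y, |v y| ≤ 1 := by
      intro y
      simp only [hv]
      rw [abs_mul, abs_of_pos (by norm_num : (0 : ℝ) < 1 / 2)]
      have := gs_bd hh hκb y
      linarith
    have hBL : BL (max 1 (Real.sqrt (1 / h))) v := by
      refine ⟨contDiff_const.mul b1, fun y => (hv1 y).trans (le_max_left _ _), fun y => ?_⟩
      refine le_trans ?_ (le_max_right _ _)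
      exact Real.le_sqrt_of_sq_le (hgr2 y)
    have h2 := hBP _ v hBL hv1
    have e1 : ∫ t, v (P t) ^ 2 ∂ρ = 1 / 4 * ∫ t, u t ^ 2 ∂ρ := by
      rw [← integral_const_mul]
      refine integral_congr_ae (Filter.Eventually.of_forall fun t => ?_)
      simp only [hv, hu]
      ring
    have e2 : ∫ t, v (P t) ∂ρ = 1 / 2 * um := by
      rw [hum, ← integral_const_mul]
    have e3 : ∫ t, ‖fderiv ℝ v (P t)‖ ^ 2 ∂ρ ≤ 1 / (4 * h) * X := by
      rw [hX, ← integral_const_mul]
      refine integral_mono_of_nonneg (Filter.Eventually.of_forall fun t => sq_nonneg _)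
        (j2.const_mul _) (Filter.Eventually.of_forall fun t => hgr (P t))
    rw [e1, e2] at h2
    have e4 : A * ∫ t, ‖fderiv ℝ v (P t)‖ ^ 2 ∂ρ ≤ X / 64 := by
      calc A * ∫ t, ‖fderiv ℝ v (P t)‖ ^ 2 ∂ρ ≤ A * (1 / (4 * h) * X) :=
            mul_le_mul_of_nonneg_left e3 hA
        _ = (16 * A) * X / (64 * h) := by
            have := hh.ne'
            field_simp
            ring
        _ ≤ h * X / (64 * h) := by
            refine div_le_div_of_nonneg_right ?_ (by positivity)
            exact mul_le_mul_of_nonneg_right hAh hX0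
        _ = X / 64 := by
            have := hh.ne'
            field_simp
    have e5 : (1 / 2 * um) ^ 2 = 1 / 4 * um ^ 2 := by ring
    rw [e5] at h2
    simp only [hW]
    linarith
  -- conclusion
  have hVe : V = (∫ t, g t ^ 2 ∂ρ) - gm ^ 2 := by
    have e : ∀ t, q t ^ 2 = (g t ^ 2 - 2 * gm * g t) + gm ^ 2 := fun t => by
      simp only [hq]
      ring
    simp only [hVd]
    simp_rw [e]
    have e2' : Integrable (fun t => g t ^ 2 - 2 * gm * g t) ρ := hg2int.sub (hgint.const_mul _)
    rw [integral_add e2' (integrable_const _), integral_sub hg2int (hgint.const_mul _),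
      integral_const_mul]
    simp only [integral_const, probReal_univ, one_smul]
    ring
  rw [← hVe]
  have hnn : 0 ≤ α + β * ρ.real B := by positivity
  linarith

end Pool.Agent.R755.KS
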