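import Pool.Agent.R755.KS.Defs

/-!
# KS8: first and second moments of measures invariant under a product of groups
-/

set_option autoImplicit false

namespace Pool.Agent.R755.KS

open MeasureTheory Set Filter Topology
open scoped ENNReal InnerProductSpace
open Pool.Agent.R754.KG (E)

namespace KS8aux

variable {h N : ℕ} {m : Fin h → ℕ}

/-- the component -/
noncomputable def pr (φ : (∀ i, E (m i)) ≃ₗ[ℝ] E N) (i : Fin h) : E N →L[ℝ] E (m i) :=
  LinearMap.toContinuousLinearMap (LinearMap.proj i ∘ₗ φ.symm.toLinearMap)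

theorem pr_apply (φ : (∀ i, E (m i)) ≃ₗ[ℝ] E N) (i : Fin h) (x : E N) :
    pr φ i x = φ.symm x i := rfl

theorem pr_ap (φ : (∀ i, E (m i)) ≃ₗ[ℝ] E N) (i : Fin h) (g : E (m i) ≃ₗᵢ[ℝ] E (m i)) (x : E N) :
    pr φ i (ap φ i g x) = g (pr φ i x) := by
  rw [pr_apply, pr_apply, ap, LinearEquiv.symm_apply_apply, Function.update_self]

theorem pr_ap_ne (φ : (∀ i, E (m i)) ≃ₗ[ℝ] E N) {i j : Fin h} (hij : j ≠ i)
    (g : E (m i) ≃ₗᵢ[ℝ] E (m i)) (x : E N) : pr φ j (ap φ i g x) = pr φ j x := by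
  rw [pr_apply, pr_apply, ap, LinearEquiv.symm_apply_apply, Function.update_of_ne hij]

theorem ap_cont (φ : (∀ i, E (m i)) ≃ₗ[ℝ] E N) (i : Fin h) (g : E (m i) ≃ₗᵢ[ℝ] E (m i)) :
    Continuous (ap φ i g) := by
  have h1 : Continuous φ := φ.toLinearMap.continuous_of_finiteDimensional
  have h2 : Continuous φ.symm := φ.symm.toLinearMap.continuous_of_finiteDimensional
  unfold ap
  exact h1.comp (h2.update i (g.continuous.comp ((continuous_apply i).comp h2)))

/-- the components of a functional -/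
noncomputable def th (φ : (∀ i, E (m i)) ≃ₗ[ℝ] E N) (i : Fin h) (θ : E N) : E (m i) :=
  LinearMap.adjoint (φ.toLinearMap ∘ₗ LinearMap.single ℝ (fun i => E (m i)) i) θ

theorem inner_eq (φ : (∀ i, E (m i)) ≃ₗ[ℝ] E N) (x θ : E N) :
    ⟪x, θ⟫_ℝ = ∑ i, ⟪pr φ i x, th φ i θ⟫_ℝ := by
  have h1 : x = ∑ i, φ (Pi.single i (φ.symm x i)) := by
    rw [← map_sum, Finset.univ_sum_single, LinearEquiv.apply_symm_apply]
  have h2 : ∀ i, ⟪pr φ i x, th φ i θ⟫_ℝ = ⟪φ (Pi.single i (φ.symm x i)), θ⟫_ℝ := by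
    intro i
    unfold th
    rw [LinearMap.adjoint_inner_right]
    rfl
  rw [Finset.sum_congr rfl fun i _ => h2 i, ← sum_inner, ← h1]

section meas

variable {μ : Measure (E N)} [IsProbabilityMeasure μ]

omit [IsProbabilityMeasure μ] in
theorem chg {W : Type} [NormedAddCommGroup W] [NormedSpace ℝ W]
    [SecondCountableTopologyEither (E N) W] (φ : (∀ i, E (m i)) ≃ₗ[ℝ] E N) (i : Fin h)
    (g : E (m i) ≃ₗᵢ[ℝ] E (m i)) (hg : Measure.map (ap φ i g) μ = μ) (F : E N → W)
    (hF : Continuous F) : ∫ x, F (ap φ i g x) ∂μ = ∫ x, F x ∂μ := by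
  conv_rhs => rw [← hg]
  rw [integral_map (ap_cont φ i g).aemeasurable hF.aestronglyMeasurable]

theorem intg {W : Type} [NormedAddCommGroup W] [NormedSpace ℝ W]
    [SecondCountableTopologyEither (E N) W] {B : ℝ} (hB : ∀ᵐ x ∂μ, ‖x‖ ≤ B) (F : E N → W)
    (hF : Continuous F) : Integrable F μ := by
  obtain ⟨C, hC⟩ := (isCompact_closedBall (0 : E N) B).exists_bound_of_continuousOn
    hF.continuousOn
  refine Integrable.of_bound hF.aestronglyMeasurable C ?_
  filter_upwards [hB] with x hx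
  exact hC x (by rwa [mem_closedBall_zero_iff])

theorem gint {k : ℕ} (g : E k ≃ₗᵢ[ℝ] E k) {B : ℝ} (hB : ∀ᵐ x ∂μ, ‖x‖ ≤ B) (F : E N → E k)
    (hF : Continuous F) : g (∫ x, F x ∂μ) = ∫ x, g (F x) ∂μ :=
  ((g.toContinuousLinearEquiv : E k →L[ℝ] E k).integral_comp_comm (intg hB F hF)).symm

theorem innint {k : ℕ} (u : E k) {B : ℝ} (hB : ∀ᵐ x ∂μ, ‖x‖ ≤ B) (F : E N → E k)
    (hF : Continuous F) : ⟪∫ x, F x ∂μ, u⟫_ℝ = ∫ x, ⟪F x, u⟫_ℝ ∂μ := by
  have h1 := integral_inner (intg hB F hF) u (𝕜 := ℝ)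
  rw [real_inner_comm, ← h1]
  refine integral_congr_ae (Eventually.of_forall fun x => ?_)
  exact real_inner_comm _ _

/-- the covariance of a component -/
noncomputable def cv (μ : Measure (E N)) [IsProbabilityMeasure μ] {k : ℕ} (P : E N →L[ℝ] E k)
    {B : ℝ} (hB : ∀ᵐ x ∂μ, ‖x‖ ≤ B) : E k →ₗ[ℝ] E k where
  toFun u := ∫ x, ⟪P x, u⟫_ℝ • P x ∂μ
  map_add' u v := by
    rw [← integral_add (intg hB _ (by fun_prop)) (intg hB _ (by fun_prop))]
    refine integral_congr_ae (Eventually.of_forall fun x => ?_)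
    beta_reduce
    rw [inner_add_right, add_smul]
  map_smul' c u := by
    rw [RingHom.id_apply, ← integral_smul]
    refine integral_congr_ae (Eventually.of_forall fun x => ?_)
    beta_reduce
    rw [inner_smul_right, mul_smul]

theorem cv_apply {k : ℕ} (P : E N →L[ℝ] E k) {B : ℝ} (hB : ∀ᵐ x ∂μ, ‖x‖ ≤ B) (u : E k) :
    cv μ P hB u = ∫ x, ⟪P x, u⟫_ℝ • P x ∂μ := rfl

theorem cv_inner {k : ℕ} (P : E N →L[ℝ] E k) {B : ℝ} (hB : ∀ᵐ x ∂μ, ‖x‖ ≤ B) (u v : E k) :
    ⟪cv μ P hB u, v⟫_ℝ = ∫ x, ⟪P x, u⟫_ℝ * ⟪P x, v⟫_ℝ ∂μ := by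
  rw [cv_apply, innint v hB _ (by fun_prop)]
  refine integral_congr_ae (Eventually.of_forall fun x => ?_)
  beta_reduce
  rw [real_inner_smul_left]

end meas

end KS8aux

open KS8aux

theorem inv : S_INV := by
  classical
  intro c0 h N m G φ hG
  refine ⟨fun i θ => ‖th φ i θ‖ ^ 2 / m i, fun i θ => by positivity, ?_⟩
  intro μ hμ ⟨B, hB⟩ hinv
  -- means
  have hmean : ∀ i, ∫ x, pr φ i x ∂μ = 0 := by
    intro i
    refine (hG i).mean _ fun g hg => ?_
    rw [gint g hB _ (pr φ i).continuous]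
    have h1 := chg φ i g (hinv i g hg) (fun x => pr φ i x) (pr φ i).continuous
    simpa only [pr_ap] using h1
  -- different components
  have hmix : ∀ i j, i ≠ j → ∀ (u : E (m i)) (v : E (m j)),
      ∫ x, ⟪pr φ i x, u⟫_ℝ * ⟪pr φ j x, v⟫_ℝ ∂μ = 0 := by
    intro i j hij u v
    have h0 : ∫ x, ⟪pr φ j x, v⟫_ℝ • pr φ i x ∂μ = 0 := by
      refine (hG i).mean _ fun g hg => ?_
      rw [gint g hB _ (by fun_prop)]
      have h1 := chg φ i g (hinv i g hg) (fun x => ⟪pr φ j x, v⟫_ℝ • pr φ i x) (by fun_prop)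
      simp only [pr_ap, pr_ap_ne φ (Ne.symm hij)] at h1
      rw [← h1]
      refine integral_congr_ae (Eventually.of_forall fun x => ?_)
      beta_reduce
      rw [map_smul]
    have h2 := innint u hB (fun x => ⟪pr φ j x, v⟫_ℝ • pr φ i x) (by fun_prop)
    rw [h0, inner_zero_left] at h2
    rw [h2]
    refine integral_congr_ae (Eventually.of_forall fun x => ?_)
    beta_reduce
    rw [real_inner_smul_left, mul_comm]
  -- one component
  have hone : ∀ i (u : E (m i)), ∫ x, ⟪pr φ i x, u⟫_ℝ * ⟪pr φ i x, u⟫_ℝ ∂μ =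
      (∫ x, ‖φ.symm x i‖ ^ 2 ∂μ) * (‖u‖ ^ 2 / m i) := by
    intro i u
    obtain ⟨c, hc⟩ := (hG i).scal (cv μ (pr φ i) hB) (by
      intro u v
      rw [cv_inner, real_inner_comm, cv_inner]
      refine integral_congr_ae (Eventually.of_forall fun x => ?_)
      beta_reduce
      rw [mul_comm]) (by
      intro g hg v
      rw [cv_apply, cv_apply, gint g hB _ (by fun_prop)]
      have h1 := chg φ i g (hinv i g hg) (fun x => ⟪pr φ i x, g v⟫_ℝ • pr φ i x) (by fun_prop)
      rw [← h1]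
      refine integral_congr_ae (Eventually.of_forall fun x => ?_)
      beta_reduce
      rw [pr_ap, LinearIsometryEquiv.inner_map_map, map_smul])
    have h1 : ∀ v : E (m i), ∫ x, ⟪pr φ i x, v⟫_ℝ * ⟪pr φ i x, v⟫_ℝ ∂μ = c * ‖v‖ ^ 2 := by
      intro v
      rw [← cv_inner (pr φ i) hB, hc, real_inner_smul_left, real_inner_self_eq_norm_sq]
    have h2 : ∫ x, ‖φ.symm x i‖ ^ 2 ∂μ = c * m i := by
      have h3 : ∀ x, ‖φ.symm x i‖ ^ 2 = ∑ a : Fin (m i),
          ⟪pr φ i x, EuclideanSpace.single a (1 : ℝ)⟫_ℝ *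
            ⟪pr φ i x, EuclideanSpace.single a (1 : ℝ)⟫_ℝ := by
        intro x
        rw [← pr_apply, EuclideanSpace.norm_sq_eq]
        refine Finset.sum_congr rfl fun a _ => ?_
        simp [EuclideanSpace.inner_single_right, sq]
      rw [integral_congr_ae (Eventually.of_forall h3), integral_finsetSum]
      · rw [Finset.sum_congr rfl fun a _ => h1 (EuclideanSpace.single a (1 : ℝ))]
        simp [mul_comm]
      · intro a _
        exact intg hB _ (by fun_prop)
    rw [h1, h2]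
    rcases Nat.eq_zero_or_pos (m i) with h0 | h0
    · have h4 : u = 0 := by
        have : IsEmpty (Fin (m i)) := by rw [h0]; infer_instance
        ext a
        exact isEmptyElim a
      rw [h4]
      simp
    · have : (m i : ℝ) ≠ 0 := by positivity
      field_simp
  refine ⟨fun θ => ?_, fun θ => ?_⟩
  · have h1 : ∀ x, ⟪x, θ⟫_ℝ = ∑ i, ⟪pr φ i x, th φ i θ⟫_ℝ := fun x => inner_eq φ x θ
    rw [integral_congr_ae (Eventually.of_forall h1), integral_finsetSum]
    · refine Finset.sum_eq_zero fun i _ => ?_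
      rw [← innint (th φ i θ) hB _ (pr φ i).continuous, hmean, inner_zero_left]
    · intro i _
      exact intg hB _ (by fun_prop)
  · have h1 : ∀ x, ⟪x, θ⟫_ℝ ^ 2 = ∑ i, ∑ j,
        ⟪pr φ i x, th φ i θ⟫_ℝ * ⟪pr φ j x, th φ j θ⟫_ℝ := by
      intro x
      rw [inner_eq φ x θ, sq, Finset.sum_mul_sum]
    rw [integral_congr_ae (Eventually.of_forall h1), integral_finsetSum]
    · refine Finset.sum_congr rfl fun i _ => ?_
      rw [integral_finsetSum]
      · rw [Finset.sum_eq_single i]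
        · exact hone i _
        · intro j _ hj
          exact hmix i j (Ne.symm hj) _ _
        · intro h2
          exact absurd (Finset.mem_univ i) h2
      · intro j _
        exact intg hB _ (by fun_prop)
    · intro i _
      exact integrable_finsetSum _ fun j _ => intg hB _ (by fun_prop)

end Pool.Agent.R755.KS
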