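import Pool.Agent.R755.KS.Grp
import Pool.Agent.R755.KS.KS1
import Pool.Agent.R755.KS.KS2
import Pool.Agent.R755.KS.KS3
import Pool.Agent.R755.KS.KS4
import Pool.Agent.R755.KS.KS5
import Pool.Agent.R755.KS.KS6b
import Pool.Agent.R755.KS.KS8
import Pool.Agent.R755.KS.KS9
import Pool.Agent.R755.KS.KS10
import Pool.Agent.R755.KS.E1
import Pool.Agent.R755.KS.E2
import Pool.Agent.R755.KS.E3
import Pool.Agent.R755.KS.E4
import Pool.Agent.R755.KF.Fin

/-!
# Centred fibrations: the final form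
-/

set_option autoImplicit false

namespace Pool.Agent.R755.KS

open MeasureTheory Set Filter Topology
open scoped ENNReal InnerProductSpace
open Pool.Agent.R754.KG (E)
open Pool.Agent.Y506.RG (Star)
open Pool.Agent.Y506.PV (ind)
open Pool.Agent.R755.KF

theorem bvR : S_BV := bv rl (bpl geo) (chan be)
theorem ybR : S_YB2 := yb2 bvR (loc geo fib (plh zn_ok) tmR) (lv rep gp)
theorem kgbR : S_KGB := kgb geo
theorem qciR : S_QCI := qci inv
theorem ccbR : S_CCB := ccb wh pxR ybR kw_of_cc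

theorem csR (c0 Q : ℝ) (hc0 : 0 < c0) (hQ : 0 < Q) (d h : ℕ) :
    ∃ c : ℝ, 0 < c ∧
    ∀ (n : ℕ) (K : Set (E n)), Cs c0 Q d h n K → IsCompact K ∧ Convex ℝ K ∧
      (interior K).Nonempty ∧ Star c (ind K) := cs_star ccR ccbR kw_of_cc c0 Q hc0 hQ d h

end Pool.Agent.R755.KS
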