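import Pool.Agent.R755.KS.Conv

/-!
# Centred fibrations: symmetries, packaged
-/

set_option autoImplicit false

namespace Pool.Agent.R755.KS

open MeasureTheory Set Filter Topology ProbabilityTheory
open scoped ENNReal InnerProductSpace
open Pool.Agent.R754.KG (E un sl Rv un_prob un_int)
open Pool.Agent.R755.KF

/-- more symmetries -/
theorem KG.mono {c0 : ℝ} {m : ℕ} {G G' : Set (E m ≃ₗᵢ[ℝ] E m)} (h : KG c0 G) (hG : G ⊆ G') :
    KG c0 G' := by
  refine ⟨fun v hv => h.mean v fun g hg => hv g (hG hg),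
    fun A hA hc => h.scal A hA fun g hg => hc g (hG hg), fun w hw μ hμ hp f hf hf1 => ?_⟩
  exact h.kls w ⟨hw.meas, hw.nn, hw.logc, hw.supp, fun g hg => hw.inv g (hG hg)⟩ μ hμ hp f hf hf1

/-- larger constants -/
theorem KG.le {c0 c1 : ℝ} {m : ℕ} {G : Set (E m ≃ₗᵢ[ℝ] E m)} (h : KG c0 G) (hc : c0 ≤ c1) :
    KG c1 G := by
  refine ⟨h.mean, h.scal, fun w hw μ hμ hp f hf hf1 => (h.kls w hw μ hμ hp f hf hf1).trans ?_⟩
  refine mul_le_mul_of_nonneg_right (mul_le_mul_of_nonneg_right hc ?_) ?_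
  · exact div_nonneg (integral_nonneg fun x => sq_nonneg _) (Nat.cast_nonneg _)
  · exact integral_nonneg fun x => sq_nonneg _

end Pool.Agent.R755.KS
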