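import Pool.Agent.R755.KS.Cc
import Pool.Agent.R754.KG.G

/-!
# Centred fibrations: preimages
-/

set_option autoImplicit false

namespace Pool.Agent.R755.KS

open MeasureTheory Set Filter Topology
open scoped ENNReal InnerProductSpace
open Pool.Agent.R754.KG (E un sl Rv cc_zero)
open Pool.Agent.R755.KF
open Pool.Agent.Y506.PV (CcW ind)

/-- preimages of bodies -/
theorem cb_pre {N M n : ℕ} (e : (E N × E M) ≃ₗ[ℝ] E n) {K : Set (E n)} (hc : IsCompact K)
    (hcv : Convex ℝ K) (hi : (interior K).Nonempty) : CB (e ⁻¹' K) := by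
  let e' : (E N × E M) ≃L[ℝ] E n := e.toContinuousLinearEquiv
  have hpc : IsCompact (e ⁻¹' K) := e'.toHomeomorph.isCompact_preimage.2 hc
  have hint : (interior (e ⁻¹' K)).Nonempty := by
    obtain ⟨x, hx⟩ := hi
    have h2 : IsOpen (e' ⁻¹' interior K) := isOpen_interior.preimage e'.continuous
    refine ⟨e'.symm x, interior_maximal (preimage_mono interior_subset) h2 ?_⟩
    change e' (e'.symm x) ∈ interior K
    rw [e'.apply_symm_apply]
    exact hx
  exact ⟨hcv.linear_preimage e.toLinearMap, hpc,
    lt_of_lt_of_le (isOpen_interior.measure_pos volume hint) (measure_mono interior_subset)⟩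

end Pool.Agent.R755.KS
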