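import Pool.Agent.R755.KS.Defs2
import Pool.Agent.H888R2.KT.N7

/-!
# KS6: concentration of functions of `T z + √h Z`, assembly
-/

set_option autoImplicit false

namespace Pool.Agent.R755.KS

open MeasureTheory Set Filter Topology
open scoped ENNReal InnerProductSpace
open Pool.Agent.H888R2.KT (gs gc)
open Pool.Agent.R754.KG (E un sl Rv)
open Pool.Agent.R755.KF (BL PB KW CB lw ey)

namespace KS6aux

section copied

variable {N d k : ℕ} {K : Set (E N × E d)}

theorem meas (h : CB K) : MeasurableSet K := h.comp.measurableSet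
theorem bdd (h : CB K) : Bornology.IsBounded K := h.comp.isBounded
theorem kfin (h : CB K) : volume K ≠ ⊤ := h.comp.measure_lt_top.ne
theorem sl_meas (h : CB K) (t : E d) : MeasurableSet (sl K t) := measurable_prodMk_right (meas h)
theorem sl_bd (h : CB K) (t : E d) : Bornology.IsBounded (sl K t) :=
  (bdd h).image_fst.subset fun x hx => ⟨(x, t), hx, rfl⟩
theorem sl_fin (h : CB K) (t : E d) : volume (sl K t) ≠ ⊤ := (sl_bd h t).measure_lt_top.ne

theorem R_vol (h : CB K) (t : E d) : volume (sl K t) = ENNReal.ofReal (Rv K t) := by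
  unfold Rv
  rw [ENNReal.ofReal_toReal (sl_fin h t)]

theorem fub (h : CB K) (F : E N × E d → ℝ≥0∞) (hF : Measurable F) :
    ∫⁻ z in K, F z = ∫⁻ t, ∫⁻ x in sl K t, F (x, t) := by
  rw [← lintegral_indicator (meas h), Measure.volume_eq_prod,
    lintegral_prod_symm' _ (hF.indicator (meas h))]
  refine lintegral_congr fun t => ?_
  rw [← lintegral_indicator (sl_meas h t)]
  rfl

theorem sec_meas (h : CB K) (F : E N × E d → ℝ≥0∞) (hF : Measurable F) :
    Measurable fun t => ∫⁻ x in sl K t, F (x, t) := by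
  have h1 : Measurable fun t : E d => ∫⁻ x, K.indicator F (x, t) := by
    exact (hF.indicator (meas h)).lintegral_prod_left'
  convert h1 using 2 with t
  rw [← lintegral_indicator (sl_meas h t)]
  rfl

theorem vol_fub (h : CB K) : volume K = ∫⁻ t, volume (sl K t) := by
  have := fub h (fun _ => 1) measurable_const
  simpa using this

theorem vol_meas (h : CB K) : Measurable fun t => volume (sl K t) := by
  have := sec_meas h (fun _ => 1) measurable_const
  simpa using this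

theorem R_meas (h : CB K) : Measurable (Rv K) := by
  unfold Rv
  exact (vol_meas h).ennreal_toReal

theorem gint (h : ℝ) (hh : 0 < h) (x : E k) (f : E k → ℝ) (hf : Continuous f) (B : ℝ)
    (hb : ∀ y, |f y| ≤ B) : Integrable fun y => f y * Real.exp (-(‖x - y‖ ^ 2 / (2 * h))) := by
  have h1 := (Pool.Agent.H888R2.KT.gc_pos (κ := Fin k) h hh).2.2.1 x
  refine (h1.const_mul B).mono' (by fun_prop) (Eventually.of_forall fun y => ?_)
  rw [norm_mul, Real.norm_eq_abs, Real.norm_eq_abs, abs_of_pos (Real.exp_pos _)]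
  exact mul_le_mul_of_nonneg_right (hb y) (Real.exp_pos _).le

theorem gs_nonneg (h : ℝ) (f : E k → ℝ) (hf : ∀ y, 0 ≤ f y) (x : E k) :
    0 ≤ gs h f x := by
  unfold gs
  refine div_nonneg (integral_nonneg fun y => mul_nonneg (hf y) (Real.exp_pos _).le) ?_
  unfold gc
  exact integral_nonneg fun y => (Real.exp_pos _).le

theorem gs_const (h : ℝ) (hh : 0 < h) (c : ℝ) (x : E k) : gs h (fun _ => c) x = c := by
  unfold gs
  obtain ⟨h1, h2, -⟩ := Pool.Agent.H888R2.KT.gc_pos (κ := Fin k) h hh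
  rw [integral_const_mul, h2 x]
  field_simp

theorem gs_mono (h : ℝ) (hh : 0 < h) (f g : E k → ℝ) (hf : Continuous f) (hg : Continuous g)
    (B : ℝ) (hb : ∀ y, |f y| ≤ B) (hb' : ∀ y, |g y| ≤ B) (hfg : ∀ y, f y ≤ g y) (x : E k) :
    gs h f x ≤ gs h g x := by
  unfold gs
  refine div_le_div_of_nonneg_right ?_ (Pool.Agent.H888R2.KT.gc_pos (κ := Fin k) h hh).1.le
  refine integral_mono (gint h hh x f hf B hb) (gint h hh x g hg B hb') fun y => ?_
  exact mul_le_mul_of_nonneg_right (hfg y) (Real.exp_pos _).le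

theorem gs_sq (h : ℝ) (hh : 0 < h) (f : E k → ℝ) (hf : Continuous f) (B : ℝ)
    (hb : ∀ y, |f y| ≤ B) (c : ℝ) (x : E k) :
    gs h (fun y => (f y - c) ^ 2) x = gs h (fun y => f y ^ 2) x - 2 * c * gs h f x + c ^ 2 := by
  have hc := gs_const h hh (c ^ 2) x
  have hB2 : ∀ y, |f y ^ 2| ≤ B ^ 2 := fun y => by
    rw [abs_pow]
    exact pow_le_pow_left₀ (abs_nonneg _) (hb y) 2
  have i1 := gint h hh x (fun y => f y ^ 2) (by fun_prop) (B ^ 2) hB2
  have i2 := gint h hh x f hf B hb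
  have i3 := gint h hh x (fun _ => c ^ 2) (by fun_prop) (|c ^ 2|) fun _ => le_rfl
  rw [← hc]
  unfold gs
  have e : (fun y => (f y - c) ^ 2 * Real.exp (-(‖x - y‖ ^ 2 / (2 * h)))) = fun y =>
      f y ^ 2 * Real.exp (-(‖x - y‖ ^ 2 / (2 * h))) +
      (-(2 * c) * (f y * Real.exp (-(‖x - y‖ ^ 2 / (2 * h)))) +
        c ^ 2 * Real.exp (-(‖x - y‖ ^ 2 / (2 * h)))) := by
    funext y
    ring
  have i23 : Integrable (fun y => -(2 * c) * (f y * Real.exp (-(‖x - y‖ ^ 2 / (2 * h)))) +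
      c ^ 2 * Real.exp (-(‖x - y‖ ^ 2 / (2 * h)))) := (i2.const_mul _).add i3
  rw [e, integral_add i1 i23, integral_add (i2.const_mul _) i3, integral_const_mul]
  ring

end copied

variable {N M : ℕ} {K : Set (E N × E M)}

/-- mean over the fibre -/
noncomputable def me (K : Set (E N × E M)) (G : E N × E M → ℝ) (t : E M) : ℝ :=
  ∫ x, G (x, t) ∂(un (sl K t))

theorem me_eq (G : E N × E M → ℝ) (t : E M) :
    me K G t = (Rv K t)⁻¹ * ∫ x in sl K t, G (x, t) := by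
  unfold me un Rv
  rw [integral_smul_measure, ENNReal.toReal_inv, smul_eq_mul]

theorem un_eq {A : Set (E N × E M)} (G : E N × E M → ℝ) :
    ∫ z, G z ∂(un A) = ((volume A).toReal)⁻¹ * ∫ z in A, G z := by
  unfold un
  rw [integral_smul_measure, ENNReal.toReal_inv, smul_eq_mul]

theorem prob (h : CB K) : IsProbabilityMeasure (un K) :=
  Pool.Agent.R754.KG.un_prob h.pos.ne' (kfin h)

theorem probb (h : CB K) : IsProbabilityMeasure (bl K) := by
  have := prob h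
  exact Measure.isProbabilityMeasure_map measurable_snd.aemeasurable

theorem ind_eq (G : E N × E M → ℝ) (t : E M) (h : CB K) :
    ∫ x in sl K t, G (x, t) = ∫ x, K.indicator G (x, t) := by
  rw [← integral_indicator (sl_meas h t)]
  rfl

theorem S_meas (h : CB K) {G : E N × E M → ℝ} (hG : Measurable G) :
    Measurable fun t => ∫ x in sl K t, G (x, t) := by
  have h1 : StronglyMeasurable fun t : E M => ∫ x, K.indicator G (x, t) :=
    (hG.indicator (meas h)).stronglyMeasurable.integral_prod_left'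
  convert h1.measurable using 2 with t
  exact ind_eq G t h

theorem me_meas (h : CB K) {G : E N × E M → ℝ} (hG : Measurable G) : Measurable (me K G) := by
  have : me K G = fun t => (Rv K t)⁻¹ * ∫ x in sl K t, G (x, t) := by
    funext t
    exact me_eq G t
  rw [this]
  exact (R_meas h).inv.mul (S_meas h hG)

theorem me_null {G : E N × E M → ℝ} {t : E M} (h0 : volume (sl K t) = 0) : me K G t = 0 := by
  rw [me_eq, setIntegral_measure_zero _ h0, mul_zero]

theorem ae_mem {V : Type} [MeasureSpace V] {A : Set V} (hA : MeasurableSet A) :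
    ∀ᵐ x ∂(un A), x ∈ A := by
  unfold un
  exact Measure.ae_smul_measure (ae_restrict_mem hA) _

theorem me_bd (h : CB K) {G : E N × E M → ℝ} {B : ℝ} (hB0 : 0 ≤ B)
    (hB : ∀ z ∈ K, |G z| ≤ B) (t : E M) : |me K G t| ≤ B := by
  by_cases h0 : volume (sl K t) = 0
  · rw [me_null h0, abs_zero]
    exact hB0
  · have := Pool.Agent.R754.KG.un_prob h0 (sl_fin h t)
    unfold me
    rw [← Real.norm_eq_abs]
    refine (norm_integral_le_of_norm_le_const (C := B) ?_).trans ?_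
    · filter_upwards [ae_mem (sl_meas h t)] with x hx
      exact hB (x, t) hx
    · simp

theorem fubR (h : CB K) {G : E N × E M → ℝ} (hG : Measurable G) {B : ℝ}
    (hB : ∀ z ∈ K, |G z| ≤ B) : ∫ z in K, G z = ∫ t, ∫ x in sl K t, G (x, t) := by
  have hi : IntegrableOn G K volume :=
    Measure.integrableOn_of_bounded (M := B) (kfin h) hG.aestronglyMeasurable
      ((ae_restrict_iff' (meas h)).2 (Eventually.of_forall fun z hz => hB z hz))
  have hi2 := hi.integrable_indicator (meas h)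
  rw [← integral_indicator (meas h)]
  rw [Measure.volume_eq_prod] at hi2 ⊢
  rw [integral_prod_symm _ hi2]
  refine integral_congr_ae (Eventually.of_forall fun t => ?_)
  exact (ind_eq G t h).symm

/-- disintegration -/
theorem disint (h : CB K) {G : E N × E M → ℝ} (hG : Measurable G) {B : ℝ} (hB0 : 0 ≤ B)
    (hB : ∀ z ∈ K, |G z| ≤ B) : ∫ z, G z ∂(un K) = ∫ t, me K G t ∂(bl K) := by
  unfold bl
  rw [integral_map measurable_snd.aemeasurable (me_meas h hG).aestronglyMeasurable, un_eq, un_eq,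
    fubR h hG hB]
  have h1 : ∫ z in K, me K G z.2 = ∫ t, ∫ x in sl K t, me K G t :=
    fubR h (G := fun z => me K G z.2) ((me_meas h hG).comp measurable_snd) (B := B)
      fun z _ => me_bd h hB0 hB z.2
  rw [h1]
  congr 1
  refine integral_congr_ae (Eventually.of_forall fun t => ?_)
  simp only []
  rw [setIntegral_const, me_eq, smul_eq_mul]
  have h2 : volume.real (sl K t) = Rv K t := rfl
  rw [h2]
  by_cases h0 : volume (sl K t) = 0
  · have h3 : Rv K t = 0 := by rw [← h2, Measure.real, h0]; rfl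
    rw [h3, zero_mul, setIntegral_measure_zero _ h0]
  · have h3 : Rv K t ≠ 0 := by
      intro h4
      rw [R_vol h t, h4] at h0
      simp at h0
    rw [mul_inv_cancel_left₀ h3]

theorem int_bl (h : CB K) {g : E M → ℝ} (hg : Measurable g) {B : ℝ} (hB : ∀ t, |g t| ≤ B) :
    Integrable g (bl K) := by
  have := probb h
  exact Integrable.of_bound hg.aestronglyMeasurable B (Eventually.of_forall hB)

theorem int_un (h : CB K) {G : E N × E M → ℝ} (hG : Continuous G) : Integrable G (un K) := by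
  unfold un
  exact (hG.continuousOn.integrableOn_compact h.comp).smul_measure
    (ENNReal.inv_ne_top.2 h.pos.ne')

theorem disintC (h : CB K) {G : E N × E M → ℝ} (hG : Continuous G) :
    ∫ z, G z ∂(un K) = ∫ t, me K G t ∂(bl K) := by
  obtain ⟨B, hB⟩ := h.comp.exists_bound_of_continuousOn hG.continuousOn
  exact disint h hG.measurable (B := max B 0) (le_max_right _ _)
    fun z hz => (hB z hz).trans (le_max_left _ _)

theorem adj {k : ℕ} (T : E N × E M →ₗ[ℝ] E k) (θ : E k) :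
    ∃ θ' : E N, ∀ x : E N, ⟪T (x, 0), θ⟫_ℝ = ⟪x, θ'⟫_ℝ := by
  refine ⟨LinearMap.adjoint (T ∘ₗ LinearMap.inl ℝ (E N) (E M)) θ, fun x => ?_⟩
  rw [LinearMap.adjoint_inner_right]
  rfl

theorem bl_int (h : CB K) {b : E M → ℝ} (hb : Continuous b) :
    ∫ t, b t ∂(bl K) = ∫ z, b z.2 ∂(un K) := by
  unfold bl
  rw [integral_map measurable_snd.aemeasurable hb.aestronglyMeasurable]

theorem gen {Ω : Type} [MeasurableSpace Ω] (μ : Measure Ω) {a b : Ω → ℝ} (ha : Integrable a μ)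
    (hb : Integrable b μ) (ha2 : Integrable (fun x => a x ^ 2) μ)
    (hb2 : Integrable (fun x => b x ^ 2) μ) (hab : Integrable (fun x => a x * b x) μ)
    (h1 : ∫ x, a x ∂μ = 0) (h2 : ∫ x, a x * b x ∂μ = 0) :
    (∫ x, (a x + b x) ^ 2 ∂μ) - (∫ x, (a x + b x) ∂μ) ^ 2 =
      (∫ x, a x ^ 2 ∂μ) + ((∫ x, b x ^ 2 ∂μ) - (∫ x, b x ∂μ) ^ 2) := by
  rw [integral_add ha hb, h1, zero_add]
  have e : ∀ x, (a x + b x) ^ 2 = (a x ^ 2 + 2 * (a x * b x)) + b x ^ 2 := fun x => by ring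
  have i1 : Integrable (fun x => 2 * (a x * b x)) μ := hab.const_mul 2
  have i2 : Integrable (fun x => a x ^ 2 + 2 * (a x * b x)) μ := ha2.add i1
  rw [integral_congr_ae (Eventually.of_forall e), integral_add i2 hb2, integral_add ha2 i1,
    integral_const_mul, h2]
  ring

/-- decomposition of the variance -/
theorem split {k : ℕ} (h : CB K)
    (hc : ∀ t, volume (sl K t) ≠ 0 → ∀ θ : E N, ∫ x, ⟪x, θ⟫_ℝ ∂(un (sl K t)) = 0)
    (T : E N × E M →ₗ[ℝ] E k) (θ : E k) :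
    (∫ z, ⟪T z, θ⟫_ℝ ^ 2 ∂(un K)) - (∫ z, ⟪T z, θ⟫_ℝ ∂(un K)) ^ 2 =
    (∫ z, ⟪T (z.1, 0), θ⟫_ℝ ^ 2 ∂(un K)) +
      ((∫ t, ⟪T (0, t), θ⟫_ℝ ^ 2 ∂(bl K)) - (∫ t, ⟪T (0, t), θ⟫_ℝ ∂(bl K)) ^ 2) := by
  have hTc : Continuous T := T.continuous_of_finiteDimensional
  have ca : Continuous fun z : E N × E M => ⟪T (z.1, 0), θ⟫_ℝ :=
    (hTc.comp (by fun_prop)).inner continuous_const
  have cb' : Continuous fun t : E M => ⟪T (0, t), θ⟫_ℝ :=
    (hTc.comp (by fun_prop)).inner continuous_const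
  have cb2' : Continuous fun t : E M => ⟪T (0, t), θ⟫_ℝ ^ 2 := cb'.pow 2
  have cb : Continuous fun z : E N × E M => ⟪T (0, z.2), θ⟫_ℝ := cb'.comp continuous_snd
  have cab : Continuous fun z : E N × E M => ⟪T (z.1, 0), θ⟫_ℝ * ⟪T (0, z.2), θ⟫_ℝ := ca.mul cb
  obtain ⟨θ', hθ⟩ := adj T θ
  have hdec : ∀ z : E N × E M, ⟪T z, θ⟫_ℝ = ⟪T (z.1, 0), θ⟫_ℝ + ⟪T (0, z.2), θ⟫_ℝ := by
    intro z
    rw [← inner_add_left, ← map_add]
    simp
  have hme : ∀ t, me K (fun z => ⟪T (z.1, 0), θ⟫_ℝ) t = 0 := by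
    intro t
    by_cases h0 : volume (sl K t) = 0
    · exact me_null h0
    · unfold me
      simp only [hθ]
      exact hc t h0 θ'
  have e1 : ∫ z, ⟪T (z.1, 0), θ⟫_ℝ ∂(un K) = 0 := by
    rw [disintC h ca]
    simp [hme]
  have e2 : ∫ z, ⟪T (z.1, 0), θ⟫_ℝ * ⟪T (0, z.2), θ⟫_ℝ ∂(un K) = 0 := by
    rw [disintC h cab]
    have : ∀ t, me K (fun z => ⟪T (z.1, 0), θ⟫_ℝ * ⟪T (0, z.2), θ⟫_ℝ) t = 0 := by
      intro t
      have := hme t
      unfold me at this ⊢
      simp only [] at this ⊢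
      rw [integral_mul_const, this, zero_mul]
    simp [this]
  have e3 : ∫ z, ⟪T z, θ⟫_ℝ ∂(un K) =
      ∫ z, (⟪T (z.1, 0), θ⟫_ℝ + ⟪T (0, z.2), θ⟫_ℝ) ∂(un K) :=
    integral_congr_ae (Eventually.of_forall hdec)
  have e4 : ∫ z, ⟪T z, θ⟫_ℝ ^ 2 ∂(un K) =
      ∫ z, (⟪T (z.1, 0), θ⟫_ℝ + ⟪T (0, z.2), θ⟫_ℝ) ^ 2 ∂(un K) :=
    integral_congr_ae (Eventually.of_forall fun z => by
      simp only []
      rw [hdec])
  rw [e3, e4, bl_int h cb', bl_int h cb2']
  exact gen (un K) (int_un h ca) (int_un h cb) (int_un h (ca.pow 2)) (int_un h (cb.pow 2))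
    (int_un h cab) e1 e2

theorem var_nn {Ω : Type} [MeasurableSpace Ω] (μ : Measure Ω) [IsProbabilityMeasure μ] {g : Ω → ℝ}
    (h1 : Integrable g μ) (h2 : Integrable (fun x => g x ^ 2) μ) :
    0 ≤ (∫ x, g x ^ 2 ∂μ) - (∫ x, g x ∂μ) ^ 2 := by
  set c : ℝ := ∫ x, g x ∂μ with hc
  have e : ∀ x, (g x - c) ^ 2 = (g x ^ 2 + (-(2 * c)) * g x) + c ^ 2 := fun x => by ring
  have i1 : Integrable (fun x => (-(2 * c)) * g x) μ := h1.const_mul _
  have i2 : Integrable (fun x => g x ^ 2 + (-(2 * c)) * g x) μ := h2.add i1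
  have h3 : ∫ x, (g x - c) ^ 2 ∂μ = (∫ x, g x ^ 2 ∂μ) - c ^ 2 := by
    rw [integral_congr_ae (Eventually.of_forall e), integral_add i2 (integrable_const _),
      integral_add h2 i1, integral_const_mul, integral_const]
    rw [← hc]
    simp
    ring
  rw [← h3]
  exact integral_nonneg fun x => sq_nonneg _

theorem bl_intb (h : CB K) {b : E M → ℝ} (hb : Continuous b) : Integrable b (bl K) := by
  unfold bl
  rw [integrable_map_measure hb.aestronglyMeasurable measurable_snd.aemeasurable]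
  exact int_un h (hb.comp continuous_snd)

theorem covs {k : ℕ} (h : CB K)
    (hc : ∀ t, volume (sl K t) ≠ 0 → ∀ θ : E N, ∫ x, ⟪x, θ⟫_ℝ ∂(un (sl K t)) = 0)
    (T : E N × E M →ₗ[ℝ] E k) (θ : E k) (s : ℝ)
    (hs : (∫ z, ⟪T z, θ⟫_ℝ ^ 2 ∂(un K)) - (∫ z, ⟪T z, θ⟫_ℝ ∂(un K)) ^ 2 ≤ s) :
    (∫ z, ⟪T (z.1, 0), θ⟫_ℝ ^ 2 ∂(un K)) ≤ s ∧
      (∫ t, ⟪T (0, t), θ⟫_ℝ ^ 2 ∂(bl K)) - (∫ t, ⟪T (0, t), θ⟫_ℝ ∂(bl K)) ^ 2 ≤ s := by
  have hTc : Continuous T := T.continuous_of_finiteDimensional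
  have cb' : Continuous fun t : E M => ⟪T (0, t), θ⟫_ℝ :=
    (hTc.comp (by fun_prop)).inner continuous_const
  have := probb h
  have h1 := var_nn (bl K) (bl_intb h cb') (bl_intb h (cb'.pow 2))
  have h2 : 0 ≤ ∫ z, ⟪T (z.1, 0), θ⟫_ℝ ^ 2 ∂(un K) := integral_nonneg fun z => sq_nonneg _
  rw [split h hc T θ] at hs
  constructor <;> linarith

theorem ey_me {k : ℕ} (T : E N × E M →ₗ[ℝ] E k) {hh : ℝ} (hh0 : 0 < hh) {f : E k → ℝ}
    (hf : Continuous f) {B : ℝ} (hb : ∀ y, |f y| ≤ B) (t : E M) :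
    ey hh (lw K T t) f = me K (fun z => gs hh f (T z)) t := by
  have hTc : Continuous T := T.continuous_of_finiteDimensional
  have hc : Continuous (gs hh f) := Pool.Agent.H888R2.KT.N7x.cont_gs hh hh0 f hf B hb
  unfold ey lw me
  rw [integral_map]
  · exact (hTc.comp (by fun_prop)).aemeasurable
  · exact hc.aestronglyMeasurable

theorem gs_abs {k : ℕ} {hh : ℝ} (hh0 : 0 < hh) {f : E k → ℝ}
    (hf : Continuous f) (hb : ∀ y, |f y| ≤ 1) (y : E k) : |gs hh f y| ≤ 1 := by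
  rw [abs_le]
  constructor
  · rw [← gs_const hh hh0 (-1) y]
    refine gs_mono hh hh0 _ _ continuous_const hf 1 (fun _ => by simp) hb (fun y => ?_) y
    exact (abs_le.1 (hb y)).1
  · rw [← gs_const hh hh0 1 y]
    refine gs_mono hh hh0 _ _ hf continuous_const 1 hb (fun _ => by simp) (fun y => ?_) y
    exact (abs_le.1 (hb y)).2

theorem exp_bd {r : ℝ} (h0 : 0 < r) (h1 : r ≤ 1 / 16000) : Real.exp r ≤ 1 + 1 / 8000 := by
  have h2 := Real.abs_exp_sub_one_sub_id_le (x := r) (by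
    rw [abs_of_pos h0]
    linarith)
  have h3 := (abs_le.1 h2).2
  nlinarith

/-- measure of the set of bad points -/
theorem bad (h : CB K) {Q R0 : ℝ} (hR0 : 0 < R0) {q : E M → ℝ} (hq : QC Q K q) :
    (bl K).real {t | R0 < q t} ≤ Q / R0 := by
  have := probb h
  have h1 := mul_meas_ge_le_integral_of_nonneg (μ := bl K) (f := q)
    (Eventually.of_forall hq.nn) hq.int R0
  have h2 : (bl K).real {t | R0 < q t} ≤ (bl K).real {t | R0 ≤ q t} :=
    measureReal_mono (fun t (ht : R0 < q t) => (ht.le : R0 ≤ q t))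
  rw [le_div_iff₀ hR0]
  calc (bl K).real {t | R0 < q t} * R0 ≤ (bl K).real {t | R0 ≤ q t} * R0 :=
        mul_le_mul_of_nonneg_right h2 hR0.le
    _ ≤ Q := by
        rw [mul_comm]
        exact h1.trans hq.le

theorem good (h : CB K) {Q R0 A0 δ' s : ℝ} {k : ℕ} {q : E M → ℝ} (hq : QC Q K q)
    (hf : ∀ t, volume (sl K t) ≠ 0 → KW A0 δ' (sl K t) ∧
      ∀ θ : E N, ∫ x, ⟪x, θ⟫_ℝ ∂(un (sl K t)) = 0)
    (T : E N × E M →ₗ[ℝ] E k) (hcov : ∀ θ : E k, ‖θ‖ = 1 →
      (∫ z, ⟪T z, θ⟫_ℝ ^ 2 ∂(un K)) - (∫ z, ⟪T z, θ⟫_ℝ ∂(un K)) ^ 2 ≤ s)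
    {t : E M} (ht : q t ≤ R0) (hp : 0 < Rv K t) : Gd K T A0 δ' (R0 * s) t := by
  have h0 : volume (sl K t) ≠ 0 := by
    intro h4
    unfold Rv at hp
    rw [h4] at hp
    simp at hp
  refine ⟨hp, (hf t h0).1, (hf t h0).2, fun θ hθ => ?_⟩
  have h1 := (covs h (fun t ht => (hf t ht).2) T θ s (hcov θ hθ)).1
  obtain ⟨θ', hθ'⟩ := adj T θ
  simp only [hθ'] at h1 ⊢
  refine (hq.cov t h0 θ').trans ?_
  exact mul_le_mul ht h1 (integral_nonneg fun z => sq_nonneg _) ((hq.nn t).trans ht)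

theorem quad {Ω : Type} [MeasurableSpace Ω] (μ : Measure Ω) [IsProbabilityMeasure μ]
    {g1 g2 W : Ω → ℝ} (c : ℝ) (i1 : Integrable g1 μ) (i2 : Integrable g2 μ)
    (hW : ∀ z, W z = (g2 z + (-(2 * c)) * g1 z) + c ^ 2) :
    ∫ z, W z ∂μ = (∫ z, g2 z ∂μ) - 2 * c * (∫ z, g1 z ∂μ) + c ^ 2 := by
  have i3 : Integrable (fun z => (-(2 * c)) * g1 z) μ := i1.const_mul _
  have i4 : Integrable (fun z => g2 z + (-(2 * c)) * g1 z) μ := i2.add i3
  rw [integral_congr_ae (Eventually.of_forall hW), integral_add i4 (integrable_const _),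
    integral_add i2 i3, integral_const_mul, integral_const]
  simp
  ring

theorem split2 {Ω : Type} [MeasurableSpace Ω] (μ : Measure Ω) [IsProbabilityMeasure μ]
    {g2 G : Ω → ℝ} (ε : ℝ) (B : Set Ω) (mB : MeasurableSet B) (j1 : Integrable g2 μ)
    (j2 : Integrable G μ) (hpt : ∀ t, G t - g2 t ≤ ε + B.indicator (fun _ => (1 : ℝ)) t) :
    (∫ t, G t ∂μ) - (∫ t, g2 t ∂μ) ≤ ε + μ.real B := by
  have j4 : Integrable (B.indicator (fun _ => (1 : ℝ))) μ :=
    (integrable_const (1 : ℝ)).indicator mB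
  have j3 : Integrable (fun t => ε + B.indicator (fun _ => (1 : ℝ)) t) μ :=
    (integrable_const _).add j4
  rw [← integral_sub j2 j1]
  calc ∫ t, (G t - g2 t) ∂μ ≤ ∫ t, (ε + B.indicator (fun _ => (1 : ℝ)) t) ∂μ :=
        integral_mono (j2.sub j1) j3 hpt
    _ = ε + μ.real B := by
        rw [integral_add (integrable_const _) j4, integral_indicator_const _ mB, integral_const]
        simp

theorem core (h1 : S_BV) (h2 : S_LOC) (h3 : S_LV) {D0 : ℝ} (hD0 : 0 < D0) (hD1 : D0 ≤ 1)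
    {r τ δ' : ℝ} (hr : r = D0 / 16000) (hτ : τ = r * D0 / 48)
    (hδ0 : 0 < δ') (hδ1 : δ' ≤ τ ^ 2 / 2) (hδ2 : δ' ≤ 1 / 10 ^ 11) (hδ3 : δ' ≤ D0 / 96)
    {A0 Q R0 C κ : ℝ} (hA : 0 < A0) (hR0 : 0 < R0) (hR : Q / R0 ≤ r ^ 2 * D0 / 192)
    (hC1 : 64 * (A0 * R0) ≤ C) (hC2 : 64 * R0 ≤ C) (hC3 : 16 * 64000 * r * A0 ≤ C) (hC : 0 < C)
    (hκ : 0 < κ) (hκ1 : (A0 * R0 + C) * κ ^ 2 ≤ τ ^ 2 / 2)
    (hκ2 : (A0 * R0 + C) * κ ^ 2 ≤ D0 / 16)
    {k : ℕ} (h : CB K)
    (hf : ∀ t, volume (sl K t) ≠ 0 → KW A0 δ' (sl K t) ∧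
      ∀ θ : E N, ∫ x, ⟪x, θ⟫_ℝ ∂(un (sl K t)) = 0)
    {q : E M → ℝ} (hq : QC Q K q) (hkm : KM A0 δ' (bl K))
    (T : E N × E M →ₗ[ℝ] E k) {s : ℝ} (hs : 0 < s) (hcov : ∀ θ : E k, ‖θ‖ = 1 →
      (∫ z, ⟪T z, θ⟫_ℝ ^ 2 ∂(un K)) - (∫ z, ⟪T z, θ⟫_ℝ ∂(un K)) ^ 2 ≤ s)
    {f : E k → ℝ} (f1 : ContDiff ℝ 1 f) (f2 : ∀ y, |f y| ≤ 1)
    (f3 : ∀ y, ‖fderiv ℝ f y‖ ≤ κ / Real.sqrt s) :
    ∃ c : ℝ, ∫ z, gs (C * s) (fun y => (f y - c) ^ 2) (T z) ∂(un K) ≤ D0 := by
  have r0 : 0 < r := by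
    rw [hr]
    positivity
  have r1 : r ≤ 1 / 16000 := by
    rw [hr]
    linarith
  have τ0 : 0 < τ := by
    rw [hτ]
    positivity
  have τ1 : τ ≤ 1 := by
    rw [hτ]
    nlinarith
  have := prob h
  have := probb h
  set hh : ℝ := C * s with hhd
  have hh0 : 0 < hh := by positivity
  have hTc : Continuous T := T.continuous_of_finiteDimensional
  have hfc : Continuous f := f1.continuous
  have f22 : ∀ y, |f y ^ 2| ≤ 1 := fun y => by
    rw [abs_pow]
    exact pow_le_one₀ (abs_nonneg _) (f2 y)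
  have hf2c : Continuous fun y => f y ^ 2 := by fun_prop
  set g1 : E N × E M → ℝ := fun z => gs hh f (T z) with hg1
  set g2 : E N × E M → ℝ := fun z => gs hh (fun y => f y ^ 2) (T z) with hg2
  have cg1 : Continuous g1 :=
    (Pool.Agent.H888R2.KT.N7x.cont_gs hh hh0 f hfc 1 f2).comp hTc
  have cg2 : Continuous g2 :=
    (Pool.Agent.H888R2.KT.N7x.cont_gs hh hh0 _ hf2c 1 f22).comp hTc
  have bg1 : ∀ z, |g1 z| ≤ 1 := fun z => gs_abs hh0 hfc f2 _
  have bg2 : ∀ z, |g2 z| ≤ 1 := fun z => gs_abs hh0 hf2c f22 _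
  set g : E M → ℝ := me K g1 with hg
  set G : E M → ℝ := me K g2 with hG
  have mg : Measurable g := me_meas h cg1.measurable
  have mG : Measurable G := me_meas h cg2.measurable
  have bg : ∀ t, |g t| ≤ 1 := me_bd h zero_le_one (fun z _ => bg1 z)
  have bG : ∀ t, |G t| ≤ 1 := me_bd h zero_le_one (fun z _ => bg2 z)
  have eg : ∀ t, ey hh (lw K T t) f = g t := ey_me T hh0 hfc f2
  have eG : ∀ t, ey hh (lw K T t) (fun y => f y ^ 2) = G t := ey_me T hh0 hf2c f22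
  set B : Set (E M) := {t | R0 < q t} with hB
  have mB : MeasurableSet B := measurableSet_lt measurable_const hq.meas
  have hβ : (bl K).real B ≤ r ^ 2 * D0 / 192 := (bad h hR0 hq).trans hR
  have hβ0 : 0 ≤ (bl K).real B := measureReal_nonneg
  set L : ℝ := κ / Real.sqrt s with hL
  have hL0 : 0 ≤ L := by positivity
  have hL2 : L ^ 2 = κ ^ 2 / s := by
    rw [hL, div_pow, Real.sq_sqrt hs.le]
  have hX : (A0 * (R0 * s) + hh) * L ^ 2 = (A0 * R0 + C) * κ ^ 2 := by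
    rw [hL2, hhd]
    field_simp
  have hgd : ∀ t, t ∉ B → 0 < Rv K t → Gd K T A0 δ' (R0 * s) t := fun t ht hp =>
    good h hq hf T hcov (not_lt.1 ht) hp
  set P : E M →ₗ[ℝ] E k := T ∘ₗ LinearMap.inr ℝ (E N) (E M) with hP
  have eP : ∀ t, P t = T (0, t) := fun t => rfl
  have hc1 : 64 * (A0 * (R0 * s)) ≤ hh := by
    rw [hhd]
    nlinarith
  have hc2 : 64 * (R0 * s) ≤ hh := by
    rw [hhd]
    nlinarith
  have hloc : ∀ a b, a ∉ B → b ∉ B → 0 < Rv K a → 0 < Rv K b →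
      Rv K ((1 / 2 : ℝ) • (a + b)) ≤ (1 + 1 / 8000) * Real.sqrt (Rv K a * Rv K b) →
      ‖P (a - b)‖ ≤ Real.sqrt (hh / 8000) → |g a - g b| ≤ τ := by
    intro a b ha hb pa pb hab hD
    have h4 : ‖T (0, a - b)‖ ^ 2 ≤ hh / 8000 := by
      rw [← eP]
      calc ‖P (a - b)‖ ^ 2 ≤ Real.sqrt (hh / 8000) ^ 2 :=
            pow_le_pow_left₀ (norm_nonneg _) hD 2
        _ = hh / 8000 := Real.sq_sqrt (by positivity)
    have h5 := h2 N M k K T A0 δ' (R0 * s) hh L f a b h hA hδ0.le hδ2 (by positivity) hc1 hc2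
      (hgd a ha pa) (hgd b hb pb) hab h4 f1 hL0 f2 f3
    rw [hX, eg, eg] at h5
    rw [abs_sub_comm]
    refine abs_le_of_sq_le_sq ?_ τ0.le
    linarith
  have hvar := h1 N M k K P (hh / (64000 * r)) r τ (1 / 8000) (Real.sqrt (hh / 8000)) (A0 * s) δ'
    g B h (by positivity) r0 (by linarith) τ0.le (by nlinarith) (by norm_num)
    (Real.sqrt_pos.2 (by positivity)) (exp_bd r0 r1) (by
      rw [Real.sq_sqrt (by positivity)]
      have : 8 * r * (hh / (64000 * r)) = hh / 8000 := by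
        field_simp
        norm_num
      rw [this]) (by positivity) (by
      rw [le_div_iff₀ (by positivity), hhd]
      nlinarith) hδ0.le mg bg mB (by
      intro Cv v hv hv1
      exact hkm k P s hs (fun θ hθ => (covs h (fun t ht => (hf t ht).2) T θ s (hcov θ hθ)).2)
        Cv v hv hv1) hloc
  have e1 : 2 * τ / r = D0 / 24 := by
    rw [hτ]
    field_simp
    norm_num
  have e2 : 8 / r ^ 2 * (bl K).real B ≤ D0 / 24 := by
    calc 8 / r ^ 2 * (bl K).real B ≤ 8 / r ^ 2 * (r ^ 2 * D0 / 192) :=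
          mul_le_mul_of_nonneg_left hβ (by positivity)
      _ = D0 / 24 := by
          field_simp
          norm_num
  have hV : (∫ t, g t ^ 2 ∂(bl K)) - (∫ t, g t ∂(bl K)) ^ 2 ≤ D0 / 4 := by
    refine hvar.trans ?_
    rw [e1]
    linarith
  have hc : ∫ z, g1 z ∂(un K) = ∫ t, g t ∂(bl K) :=
    disint h cg1.measurable zero_le_one (fun z _ => bg1 z)
  have hc' : ∫ z, g2 z ∂(un K) = ∫ t, G t ∂(bl K) :=
    disint h cg2.measurable zero_le_one (fun z _ => bg2 z)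
  set c : ℝ := ∫ t, g t ∂(bl K) with hcd
  refine ⟨c, ?_⟩
  have e3 : ∀ z, gs hh (fun y => (f y - c) ^ 2) (T z) = (g2 z + (-(2 * c)) * g1 z) + c ^ 2 := by
    intro z
    rw [gs_sq hh hh0 f hfc 1 f2 c (T z)]
    ring
  have i1 : Integrable g1 (un K) := int_un h cg1
  have i2 : Integrable g2 (un K) := int_un h cg2
  have e4 : ∫ z, gs hh (fun y => (f y - c) ^ 2) (T z) ∂(un K) =
      (∫ z, g2 z ∂(un K)) - 2 * c * (∫ z, g1 z ∂(un K)) + c ^ 2 := quad (un K) c i1 i2 e3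
  rw [hc, hc'] at e4
  have j1 : Integrable (fun t => g t ^ 2) (bl K) :=
    int_bl h (mg.pow_const 2) (B := 1) fun t => by
      rw [abs_pow]
      exact pow_le_one₀ (abs_nonneg _) (bg t)
  have j2 : Integrable G (bl K) := int_bl h mG bG
  have hpt : ∀ t, G t - g t ^ 2 ≤ (D0 / 16 + δ') + B.indicator (fun _ => (1 : ℝ)) t := by
    intro t
    by_cases ht : t ∈ B
    · rw [indicator_of_mem ht]
      have := (abs_le.1 (bG t)).2
      nlinarith [sq_nonneg (g t)]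
    · rw [indicator_of_notMem ht]
      by_cases hp : 0 < Rv K t
      · have h6 := h3 N M k K T A0 δ' (R0 * s) hh L f t h hA hδ0.le (by positivity) hh0
          (hgd t ht hp) f1 hL0 f2 f3
        rw [hX, eg, eG] at h6
        linarith
      · have h0 : volume (sl K t) = 0 := by
          rw [R_vol h t]
          exact ENNReal.ofReal_eq_zero.2 (not_lt.1 hp)
        have q1 : g t = 0 := me_null h0
        have q2 : G t = 0 := me_null h0
        rw [q1, q2]
        nlinarith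
  have e5 := split2 (bl K) (D0 / 16 + δ') B mB j1 j2 hpt
  rw [e4]
  have e6 : (bl K).real B ≤ D0 / 192 := by
    refine hβ.trans ?_
    have : r ^ 2 ≤ 1 := by nlinarith
    nlinarith
  linarith

end KS6aux

/-- KS6 -/
theorem yb2 (h1 : S_BV) (h2 : S_LOC) (h3 : S_LV) : S_YB2 := by
  intro δ hδ
  set D0 : ℝ := min δ 1 with hD
  have hD0 : 0 < D0 := lt_min hδ one_pos
  have hD1 : D0 ≤ 1 := min_le_right _ _
  set r : ℝ := D0 / 16000 with hr
  set τ : ℝ := r * D0 / 48 with hτ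
  have r0 : 0 < r := by positivity
  have τ0 : 0 < τ := by positivity
  set δ' : ℝ := min (τ ^ 2 / 2) (min (1 / 10 ^ 11) (D0 / 96)) with hδ'
  have hδ0 : 0 < δ' := lt_min (by positivity) (lt_min (by positivity) (by positivity))
  have hδ1 : δ' ≤ τ ^ 2 / 2 := min_le_left _ _
  have hδ2 : δ' ≤ 1 / 10 ^ 11 := (min_le_right _ _).trans (min_le_left _ _)
  have hδ3 : δ' ≤ D0 / 96 := (min_le_right _ _).trans (min_le_right _ _)
  refine ⟨δ', hδ0, fun A0 Q hA hQ => ?_⟩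
  set R0 : ℝ := 192 * Q / (r ^ 2 * D0) with hR0d
  have hR0 : 0 < R0 := by positivity
  have hR : Q / R0 ≤ r ^ 2 * D0 / 192 := by
    rw [hR0d]
    apply le_of_eq
    field_simp
  set C : ℝ := max (64 * (A0 * R0)) (max (64 * R0) (16 * 64000 * r * A0)) with hCd
  have hC1 : 64 * (A0 * R0) ≤ C := le_max_left _ _
  have hC2 : 64 * R0 ≤ C := (le_max_left _ _).trans (le_max_right _ _)
  have hC3 : 16 * 64000 * r * A0 ≤ C := (le_max_right _ _).trans (le_max_right _ _)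
  have hC : 0 < C := lt_of_lt_of_le (by positivity) hC1
  set κ : ℝ := Real.sqrt (min (τ ^ 2 / 2) (D0 / 16) / (A0 * R0 + C)) with hκd
  have hm : 0 < min (τ ^ 2 / 2) (D0 / 16) := lt_min (by positivity) (by positivity)
  have hκ : 0 < κ := Real.sqrt_pos.2 (by positivity)
  have hκ2 : (A0 * R0 + C) * κ ^ 2 = min (τ ^ 2 / 2) (D0 / 16) := by
    rw [hκd, Real.sq_sqrt (by positivity)]
    field_simp
  refine ⟨C, κ, hC, hκ, fun N M k K h hf hq hkm T s hs hcov f f1 f2 f3 => ?_⟩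
  obtain ⟨q, hq⟩ := hq
  obtain ⟨c, hc⟩ := KS6aux.core h1 h2 h3 hD0 hD1 hr hτ hδ0 hδ1 hδ2 hδ3 hA hR0 hR hC1 hC2 hC3 hC hκ
    (by
      rw [hκ2]
      exact min_le_left _ _) (by
      rw [hκ2]
      exact min_le_right _ _) h hf hq hkm T hs hcov f1 f2 f3
  exact ⟨c, hc.trans (min_le_left _ _)⟩

end Pool.Agent.R755.KS
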