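import Pool.Agent.R755.KS.Fin

/-!
# Centred fibrations, lifts, images with small kernel: the common class of bodies
-/

set_option autoImplicit false

namespace Pool.Agent.R755.KS

open MeasureTheory Set Filter Topology ProbabilityTheory
open scoped ENNReal InnerProductSpace
open Pool.Agent.R754.KG (E un sl Rv cc_zero VW_ind un_prob min_const int_trans cc_trans)
open Pool.Agent.R755.KF
open Pool.Agent.Y506.PV (CcW ind Base)
open Pool.Agent.Y506.RG (EW VW Adm Star)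

/-- concentration from a weak Poincaré inequality -/
theorem cc_of_km {A δ : ℝ} (hA : 0 < A) (hδ : 0 < δ) {N : ℕ} {C : Set (E N)}
    (hm : IsCompact C) (hi : (interior C).Nonempty) (h : KM A (δ / 2) (un C)) :
    CcW (Real.sqrt (δ / (2 * A))) δ (ind C) := by
  intro k hk T s hs hT v hv hvb hvd
  have hp : IsProbabilityMeasure (un C) := un_prob (vol_ne hi) hm.measure_lt_top.ne
  have hTc : Continuous T := T.continuous_of_finiteDimensional
  have hd : Continuous (fderiv ℝ v) := hv.continuous_fderiv one_ne_zero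
  obtain ⟨κ, hκd⟩ : ∃ κ, κ = Real.sqrt (δ / (2 * A)) := ⟨_, rfl⟩
  rw [← hκd] at hvd
  have h1 := h k T s hs (fun θ hθ => by
    have := hT θ hθ
    rwa [VW_ind hm.measurableSet] at this) (max 1 (κ / Real.sqrt s)) v
    ⟨hv, fun y => (hvb y).trans (le_max_left _ _), fun y => (hvd y).trans (le_max_right _ _)⟩ hvb
  rw [VW_ind hm.measurableSet]
  have hκ : (κ / Real.sqrt s) ^ 2 = δ / (2 * A) / s := by
    rw [div_pow, hκd, Real.sq_sqrt (by positivity), Real.sq_sqrt hs.le]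
  have h2 : ∫ x, ‖fderiv ℝ v (T x)‖ ^ 2 ∂(un C) ≤ δ / (2 * A) / s := by
    rw [← hκ]
    have h3 : ∫ _, (κ / Real.sqrt s) ^ 2 ∂(un C) = (κ / Real.sqrt s) ^ 2 := by simp
    rw [← h3]
    refine integral_mono (Pool.Agent.R754.KG.un_int (vol_ne hi) hm.isBounded
      ((hd.comp hTc).norm.pow 2)) (integrable_const _) fun x => ?_
    exact pow_le_pow_left₀ (norm_nonneg _) (hvd _) 2
  refine h1.trans ?_
  have h3 : A * s * ∫ x, ‖fderiv ℝ v (T x)‖ ^ 2 ∂(un C) ≤ A * s * (δ / (2 * A) / s) :=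
    mul_le_mul_of_nonneg_left h2 (by positivity)
  have h4 : A * s * (δ / (2 * A) / s) = δ / 2 := by
    field_simp
  linarith

/-- the class of bodies -/
inductive Ct (A : ℝ → ℝ) (Q : ℝ) (d r : ℕ) : ℕ → ∀ n : ℕ, Set (E n) → Prop
  | base (n : ℕ) (K : Set (E n)) : IsCompact K → Convex ℝ K → (interior K).Nonempty →
      (∀ δ : ℝ, 0 < δ → KM (A δ) δ (un K)) → Ct A Q d r 0 n K
  | up (h n : ℕ) (K : Set (E n)) : Ct A Q d r h n K → Ct A Q d r (h + 1) n K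
  | image (h m n : ℕ) (K : Set (E m)) (B : E m →ₗ[ℝ] E n) (w : E n) : m ≤ n + r →
      Function.Surjective B → Ct A Q d r h m K →
      Ct A Q d r (h + 1) n ((fun x => w + B x) '' K)
  | lift (h m n : ℕ) (K : Set (E m)) (B : E m →ₗ[ℝ] E n) : m ≤ n + r →
      Function.Surjective B → IsCompact K → Convex ℝ K → (interior K).Nonempty →
      Ct A Q d r h n (B '' K) → Ct A Q d r (h + 1) m K
  | fibred (h N j n : ℕ) (K : Set (E n)) (e : (E N × E j) ≃ₗ[ℝ] E n) : j ≤ d → IsCompact K →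
      Convex ℝ K → (interior K).Nonempty →
      (∀ t, volume (sl (e ⁻¹' K) t) ≠ 0 → Ct A Q d r h N (sl (e ⁻¹' K) t)) →
      Ct A Q d r (h + 1) n K
  | cent (h N M n : ℕ) (K : Set (E n)) (e : (E N × E M) ≃ₗ[ℝ] E n) : IsCompact K →
      Convex ℝ K → (interior K).Nonempty →
      (∀ t, volume (sl (e ⁻¹' K) t) ≠ 0 → Ct A Q d r h N (sl (e ⁻¹' K) t)) →
      (∀ t, volume (sl (e ⁻¹' K) t) ≠ 0 → ∀ θ : E N,
        ∫ x, ⟪x, θ⟫_ℝ ∂(un (sl (e ⁻¹' K) t)) = 0) →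
      (∃ q : E M → ℝ, QC Q (e ⁻¹' K) q) → (∀ δ : ℝ, 0 < δ → KM (A δ) δ (bl (e ⁻¹' K))) →
      Ct A Q d r (h + 1) n K
  | cent' (h N M n m : ℕ) (K : Set (E n)) (e : (E N × E M) ≃ₗ[ℝ] E n) (K' : Set (E m))
      (L : E m →ₗ[ℝ] E M) : IsCompact K →
      Convex ℝ K → (interior K).Nonempty →
      (∀ t, volume (sl (e ⁻¹' K) t) ≠ 0 → Ct A Q d r h N (sl (e ⁻¹' K) t)) →
      (∀ t, volume (sl (e ⁻¹' K) t) ≠ 0 → ∀ θ : E N,
        ∫ x, ⟪x, θ⟫_ℝ ∂(un (sl (e ⁻¹' K) t)) = 0) →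
      (∃ q : E M → ℝ, QC Q (e ⁻¹' K) q) → Ct A Q d r h m K' →
      bl (e ⁻¹' K) = Measure.map L (un K') → Ct A Q d r (h + 1) n K

/-- concentration for all bodies of the class -/
theorem ct_cc (hcc : S_CC) (hli : S_LIFT) (hC : S_CCB) (hK : S_KWC) (A : ℝ → ℝ) (Q : ℝ)
    (hQ : 0 < Q) (d r h : ℕ) : ∀ δ : ℝ, 0 < δ → ∃ κ : ℝ, 0 < κ ∧
    ∀ (n : ℕ) (K : Set (E n)), Ct A Q d r h n K → IsCompact K ∧ Convex ℝ K ∧
      (interior K).Nonempty ∧ CcW κ δ (ind K) := by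
  induction h with
  | zero =>
    intro δ hδ
    have hA : 0 < max (A (δ / 2)) 1 := lt_max_of_lt_right one_pos
    refine ⟨Real.sqrt (δ / (2 * max (A (δ / 2)) 1)), Real.sqrt_pos.2 (by positivity),
      fun n K hK => ?_⟩
    cases hK with
    | base _ _ h1 h2 h3 h4 =>
      exact ⟨h1, h2, h3, cc_of_km hA hδ h1 h3
        (km_mono (le_max_left _ _) le_rfl (h4 (δ / 2) (by positivity)))⟩
  | succ h ih =>
    intro δ hδ
    obtain ⟨κ0, hκ0, H0⟩ := ih δ hδ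
    -- images
    obtain ⟨κ1, hκ1, H1⟩ := min_const (P := fun j κ => ∀ (n : ℕ) (K : Set (E (n + j)))
        (B : E (n + j) →ₗ[ℝ] E n), Function.Surjective B → Ct A Q d r h (n + j) K →
        CcW κ δ (ind (B '' K)))
      (fun j => by
        obtain ⟨δ0, c, hδ0, hc, H1⟩ := Pool.Agent.Y506.PV.cc_img Pool.Agent.Y941.PV.prj
          Pool.Agent.Y506.PV.denR Pool.Agent.Y388.PV.cmp Pool.Agent.Y388.PV.fac j δ hδ
        obtain ⟨κ, hκ, H2⟩ := ih δ0 hδ0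
        refine ⟨c * κ, by positivity, fun n K B hB hK => ?_⟩
        obtain ⟨h1, h2, h3, h4⟩ := H2 _ K hK
        exact H1 n κ K B hκ h1 h2 h3 hB h4)
      (fun j κ κ' hκκ hP n K B hB hK => (hP n K B hB hK).mono hκκ) r
    -- fibrations
    obtain ⟨κ2, hκ2, H2⟩ := min_const (P := fun j κ => ∀ (N n : ℕ) (e : (E N × E j) ≃ₗ[ℝ] E n)
        (K : Set (E N × E j)), CB K →
        (∀ t, volume (sl K t) ≠ 0 → Ct A Q d r h N (sl K t)) → CcW κ δ (ind (e '' K)))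
      (fun j => by
        obtain ⟨δ', hδ', H3⟩ := hcc j δ hδ
        obtain ⟨κ, hκ, H2⟩ := ih δ' hδ'
        obtain ⟨κ', hκ', H4⟩ := H3 κ hκ
        exact ⟨κ', hκ', fun N n e K hF hK => H4 N n e K hF fun t ht => (H2 _ _ (hK t ht)).2.2.2⟩)
      (fun j κ κ' hκκ hP N n e K hF hK => (hP N n e K hF hK).mono hκκ) d
    -- adding dimensions
    obtain ⟨κ4, hκ4, H4⟩ := min_const (P := fun j κ => ∀ (n : ℕ) (K : Set (E (n + j)))
        (B : E (n + j) →ₗ[ℝ] E n), Function.Surjective B → IsCompact K → Convex ℝ K →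
        (interior K).Nonempty → Ct A Q d r h n (B '' K) → CcW κ δ (ind K))
      (fun j => by
        obtain ⟨δ0, hδ0, H1⟩ := hli j δ hδ
        obtain ⟨κ, hκ, H2⟩ := ih δ0 hδ0
        obtain ⟨κ', hκ', H4⟩ := H1 κ hκ
        exact ⟨κ', hκ', fun n K B hB h1 h2 h3 hK => H4 n K B hB h1 h2 h3 (H2 _ _ hK).2.2.2⟩)
      (fun j κ κ' hκκ hP n K B hB h1 h2 h3 hK => (hP n K B hB h1 h2 h3 hK).mono hκκ) r
    -- centred fibrations
    obtain ⟨δ', hδ', H3⟩ := hC δ hδ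
    obtain ⟨κ', hκ', H5⟩ := ih (δ' / 17) (by positivity)
    obtain ⟨A0, hA0, HK⟩ := hK κ' (δ' / 17) hκ' (by positivity)
    obtain ⟨κ3, hκ3, H6⟩ := H3 κ' (max A0 (A δ')) Q hκ' (lt_max_of_lt_left hA0) hQ
    refine ⟨min (min κ0 κ4) (min κ1 (min κ2 κ3)),
      lt_min (lt_min hκ0 hκ4) (lt_min hκ1 (lt_min hκ2 hκ3)), fun n K hK => ?_⟩
    cases hK with
    | up _ _ _ hK =>
      obtain ⟨h1, h2, h3, h4⟩ := H0 n K hK
      exact ⟨h1, h2, h3, h4.mono ((min_le_left _ _).trans (min_le_left _ _))⟩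
    | image _ m _ K B w hm hB hK =>
      obtain ⟨h1, h2, h3, -⟩ := H0 m K hK
      have hBc : Continuous B := B.continuous_of_finiteDimensional
      have e : (fun x => w + B x) '' K = (fun x => w + x) '' (B '' K) := by
        rw [image_image]
      have hnm : n ≤ m := by
        have := LinearMap.finrank_le_finrank_of_surjective (f := B) hB
        simpa using this
      obtain ⟨j, rfl⟩ : ∃ j, m = n + j := ⟨m - n, by omega⟩
      have i1 : IsCompact (B '' K) := h1.image hBc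
      have i3 := Pool.Agent.Y506.PV.int_image h3 B hB
      rw [e]
      refine ⟨i1.image (by fun_prop), (h2.linear_image B).translate w, int_trans i3 w, ?_⟩
      exact (cc_trans _ i1 i3 w (H1 j (by omega) n K B hB hK)).mono
        ((min_le_right _ _).trans (min_le_left _ _))
    | lift _ _ n' _ B hm hB hc hcv hi hK =>
      refine ⟨hc, hcv, hi, ?_⟩
      have hnm : n' ≤ n := by
        have := LinearMap.finrank_le_finrank_of_surjective (f := B) hB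
        simpa using this
      obtain ⟨j, rfl⟩ : ∃ j, n = n' + j := ⟨n - n', by omega⟩
      exact (H4 j (by omega) n' K B hB hc hcv hi hK).mono
        ((min_le_left _ _).trans (min_le_right _ _))
    | fibred _ N j _ K e hj hc hcv hi hfib =>
      refine ⟨hc, hcv, hi, ?_⟩
      have h3 := H2 j hj N n e (e ⁻¹' K) (cb_pre e hc hcv hi) hfib
      rw [image_preimage_eq K e.surjective] at h3
      exact h3.mono ((min_le_right _ _).trans ((min_le_right _ _).trans (min_le_left _ _)))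
    | cent _ N M _ K e hc hcv hi hfib hcen hq hb =>
      refine ⟨hc, hcv, hi, ?_⟩
      have h3 := H6 N M n e (e ⁻¹' K) (cb_pre e hc hcv hi)
        (fun t ht => ⟨ccw_mono (H5 _ _ (hfib t ht)).2.2.2 (by linarith), hcen t ht⟩) hq
        (km_mono (le_max_right _ _) le_rfl (hb δ' hδ'))
      rw [image_preimage_eq K e.surjective] at h3
      exact h3.mono ((min_le_right _ _).trans ((min_le_right _ _).trans (min_le_right _ _)))
    | cent' _ N M _ m K e K' L hc hcv hi hfib hcen hq hK' hb =>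
      refine ⟨hc, hcv, hi, ?_⟩
      obtain ⟨k1, k2, k3, k4⟩ := H5 _ _ hK'
      have h4 := HK m K' k1 k2 k3 k4
      rw [mul_div_cancel₀ _ (by norm_num : (17 : ℝ) ≠ 0)] at h4
      have h5 := km_map h4 L
      rw [← hb] at h5
      have h3 := H6 N M n e (e ⁻¹' K) (cb_pre e hc hcv hi)
        (fun t ht => ⟨ccw_mono (H5 _ _ (hfib t ht)).2.2.2 (by linarith), hcen t ht⟩) hq
        (km_mono (le_max_left _ _) le_rfl h5)
      rw [image_preimage_eq K e.surjective] at h3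
      exact h3.mono ((min_le_right _ _).trans ((min_le_right _ _).trans (min_le_right _ _)))

/-- the functional inequality for all bodies of the class -/
theorem ctR (A : ℝ → ℝ) (Q : ℝ) (hQ : 0 < Q) (d r h : ℕ) : ∃ c : ℝ, 0 < c ∧
    ∀ (n : ℕ) (K : Set (E n)), Ct A Q d r h n K → IsCompact K ∧ Convex ℝ K ∧
      (interior K).Nonempty ∧ Star c (ind K) := by
  obtain ⟨κ, hκ, H⟩ := ct_cc ccR liftR ccbR kw_of_cc A Q hQ d r h (1 / 25) (by norm_num)
  obtain ⟨c, hc, H'⟩ := Pool.Agent.Y506.PV.stb Pool.Agent.Y211.PV.iso κ hκ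
  refine ⟨c, hc, fun n K hK => ?_⟩
  obtain ⟨h1, h2, h3, h4⟩ := H n K hK
  exact ⟨h1, h2, h3, H' n K h1 h2 h3 h4⟩

/-- centred fibrations belong to the class -/
theorem cs_ct {c0 Q : ℝ} {d : ℕ} (r : ℕ) {h n : ℕ} {K : Set (E n)} (H : Cs c0 Q d h n K) :
    Ct (fun δ => c0 / (4 * δ)) Q d r h n K := by
  induction H with
  | base n K h1 h2 h3 h4 => exact .base _ _ h1 h2 h3 fun δ hδ => km_of_bp hδ h4
  | up _ _ _ _ ih => exact .up _ _ _ ih
  | tr h n K w _ ih => exact .image _ _ _ K LinearMap.id w (by omega) Function.surjective_id ih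
  | fibred _ _ _ _ _ e hj h1 h2 h3 _ ih => exact .fibred _ _ _ _ _ e hj h1 h2 h3 ih
  | cent _ _ _ _ _ e h1 h2 h3 _ hcen hq hb ih =>
    exact .cent _ _ _ _ _ e h1 h2 h3 ih hcen hq fun δ hδ => km_of_bp hδ hb
  | cent' _ _ _ _ _ _ e K' L h1 h2 h3 _ hcen hq _ hb ih ih' =>
    exact .cent' _ _ _ _ _ _ e K' L h1 h2 h3 ih hcen hq ih' hb

/-- bodies with concentration for all `δ` -/
theorem km_profile {P : ∀ n : ℕ, Set (E n) → Prop}
    (H : ∀ δ : ℝ, 0 < δ → ∃ κ : ℝ, 0 < κ ∧ ∀ (n : ℕ) (K : Set (E n)), P n K → IsCompact K ∧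
      Convex ℝ K ∧ (interior K).Nonempty ∧ CcW κ δ (ind K)) :
    ∃ A : ℝ → ℝ, (∀ δ, 0 < A δ) ∧ ∀ (n : ℕ) (K : Set (E n)), P n K → IsCompact K ∧ Convex ℝ K ∧
      (interior K).Nonempty ∧ ∀ δ : ℝ, 0 < δ → KM (A δ) δ (un K) := by
  have h1 : ∀ δ : ℝ, ∃ A : ℝ, 0 < A ∧ (0 < δ → ∀ (n : ℕ) (K : Set (E n)), P n K →
      KM A δ (un K)) := by
    intro δ
    by_cases hδ : 0 < δ
    · obtain ⟨κ, hκ, H1⟩ := H (δ / 17) (by positivity)
      obtain ⟨A0, hA0, H2⟩ := kw_of_cc κ (δ / 17) hκ (by positivity)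
      refine ⟨A0, hA0, fun _ n K hK => ?_⟩
      obtain ⟨k1, k2, k3, k4⟩ := H1 n K hK
      have h4 := H2 n K k1 k2 k3 k4
      rw [mul_div_cancel₀ _ (by norm_num : (17 : ℝ) ≠ 0)] at h4
      exact h4
    · exact ⟨1, one_pos, fun h => absurd h hδ⟩
  choose A hA0 hA using h1
  refine ⟨A, hA0, fun n K hK => ?_⟩
  obtain ⟨κ, hκ, H1⟩ := H 1 one_pos
  obtain ⟨k1, k2, k3, -⟩ := H1 n K hK
  exact ⟨k1, k2, k3, fun δ hδ => hA δ hδ n K hK⟩

/-- the bodies of the class satisfy a weak Poincaré inequality -/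
theorem ct_km (A : ℝ → ℝ) (Q : ℝ) (hQ : 0 < Q) (d r h : ℕ) : ∃ A' : ℝ → ℝ, (∀ δ, 0 < A' δ) ∧
    ∀ (n : ℕ) (K : Set (E n)), Ct A Q d r h n K → IsCompact K ∧ Convex ℝ K ∧
      (interior K).Nonempty ∧ ∀ δ : ℝ, 0 < δ → KM (A' δ) δ (un K) :=
  km_profile (P := fun n K => Ct A Q d r h n K)
    (ct_cc ccR liftR ccbR kw_of_cc A Q hQ d r h)

/-- the same for the bodies of the base class of `Towers` -/
theorem base_km (q B : ℕ) (p c0 : ℝ) (hp : 1 ≤ p) (hc0 : 0 < c0) : ∃ A : ℝ → ℝ, (∀ δ, 0 < A δ) ∧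
    ∀ (n : ℕ) (K : Set (E n)), Cm q B p c0 0 0 0 n K → IsCompact K ∧ Convex ℝ K ∧
      (interior K).Nonempty ∧ ∀ δ : ℝ, 0 < δ → KM (A δ) δ (un K) :=
  km_profile (P := fun n K => Cm q B p c0 0 0 0 n K) (cm_cc ccR liftR q B p c0 hp hc0 0 0 0)

/-- towers of fibrations belong to the class -/
theorem cm_ct {q B : ℕ} {p c0 : ℝ} {A : ℝ → ℝ}
    (H0 : ∀ (n : ℕ) (K : Set (E n)), Cm q B p c0 0 0 0 n K → IsCompact K ∧ Convex ℝ K ∧
      (interior K).Nonempty ∧ ∀ δ : ℝ, 0 < δ → KM (A δ) δ (un K)) (Q : ℝ) {d r h n : ℕ}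
    {K : Set (E n)} (H : Cm q B p c0 d r h n K) : Ct A Q d r h n K := by
  induction H with
  | base n K hb =>
    obtain ⟨h1, h2, h3, h4⟩ := H0 n K (.base _ _ hb)
    exact .base _ _ h1 h2 h3 h4
  | poinc n K hb =>
    obtain ⟨h1, h2, h3, h4⟩ := H0 n K (.poinc _ _ hb)
    exact .base _ _ h1 h2 h3 h4
  | up _ _ _ _ ih => exact .up _ _ _ ih
  | image _ _ _ _ B w hm hB _ ih => exact .image _ _ _ _ B w hm hB ih
  | lift _ _ _ _ B hm hB h1 h2 h3 _ ih => exact .lift _ _ _ _ B hm hB h1 h2 h3 ih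
  | fibred _ _ _ _ _ e hj h1 h2 h3 _ ih => exact .fibred _ _ _ _ _ e hj h1 h2 h3 ih

/-- weak Poincaré inequalities for all linear images -/
def WPf (A : ℝ → ℝ) {M : ℕ} (μ : Measure (E M)) : Prop :=
  ∀ δ : ℝ, 0 < δ → ∀ (k : ℕ) (P : E M →ₗ[ℝ] E k) (s : ℝ), 0 < s →
  (∀ θ : E k, ‖θ‖ = 1 → variance (fun x => ⟪P x, θ⟫_ℝ) μ ≤ s) →
  ∀ (v : E k → ℝ) (C : ℝ), ContDiff ℝ 1 v → (∀ y, |v y| ≤ 1) → (∀ y, ‖fderiv ℝ v y‖ ≤ C) →
  variance (fun x => v (P x)) μ ≤ δ + A δ * s * ∫ x, ‖fderiv ℝ v (P x)‖ ^ 2 ∂μ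

theorem km_of_wpf {A : ℝ → ℝ} {M : ℕ} {μ : Measure (E M)} [IsProbabilityMeasure μ] {B : ℝ}
    (hB : ∀ᵐ x ∂μ, ‖x‖ ≤ B) (h : WPf A μ) : ∀ δ : ℝ, 0 < δ → KM (A δ) δ μ := by
  intro δ hδ k P s hs hP C v hv hv1
  have hPc : Continuous P := P.continuous_of_finiteDimensional
  have h1 := h δ hδ k P s hs (fun θ hθ => by
    rw [var_cont hB (by fun_prop)]
    exact hP θ hθ) v C hv.c1 hv1 hv.gd
  rwa [var_cont hB (f := fun x => v (P x)) (hv.c1.continuous.comp hPc)] at h1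

theorem wpf_of_km {A : ℝ → ℝ} {M : ℕ} {μ : Measure (E M)} [IsProbabilityMeasure μ] {B : ℝ}
    (hB : ∀ᵐ x ∂μ, ‖x‖ ≤ B) (h : ∀ δ : ℝ, 0 < δ → KM (A δ) δ μ) : WPf A μ := by
  intro δ hδ k P s hs hP v C hv hv1 hvC
  have hPc : Continuous P := P.continuous_of_finiteDimensional
  rw [var_cont hB (f := fun x => v (P x)) (hv.continuous.comp hPc)]
  refine h δ hδ k P s hs (fun θ hθ => ?_) (max 1 C) v ⟨hv, fun y => (hv1 y).trans (le_max_left _ _),
    fun y => (hvC y).trans (le_max_right _ _)⟩ hv1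
  have h1 := hP θ hθ
  rwa [var_cont hB (by fun_prop)] at h1

end Pool.Agent.R755.KS
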